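import Mathlib

set_option autoImplicit false

open MeasureTheory Filter Topology Set Metric
open scoped Real ENNReal

namespace Pool.Dav

/-- Truncated Hilbert transform `(1/π) ∫_{|x-y|>ε} f(y)/(x-y) dy`. -/
noncomputable def truncH (f : ℝ → ℂ) (ε x : ℝ) : ℂ :=
  (1 / (π : ℂ)) * ∫ y in {y : ℝ | ε < |x - y|}, f y / ((x : ℂ) - (y : ℂ))

/-- The principal value integral defining `Hf(x)` exists and equals `v`. -/
def HasHilbert (f : ℝ → ℂ) (x : ℝ) (v : ℂ) : Prop :=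
  Tendsto (fun ε : ℝ => truncH f ε x) (𝓝[>] (0 : ℝ)) (𝓝 v)

open Classical in
/-- The Hilbert transform `Hf(x)`: the principal value where it exists (that is almost everywhere
for integrable `f`), and `0` at the remaining points. -/
noncomputable def hilbert (f : ℝ → ℂ) (x : ℝ) : ℂ :=
  if h : ∃ v, HasHilbert f x v then h.choose else 0

/-- The weak-type (1,1) constant of the Hilbert transform on `L¹(ℝ, ℂ)`. -/
noncomputable def weakConstC : ℝ≥0∞ :=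
  ⨆ (f : ℝ → ℂ) (_ : Integrable f) (_ : ¬ f =ᵐ[volume] 0) (lam : ℝ) (_ : 0 < lam),
    ENNReal.ofReal lam * volume {x : ℝ | lam < ‖hilbert f x‖} / ENNReal.ofReal (∫ x, ‖f x‖)

/-- The weak-type (1,1) constant of the Hilbert transform on `L¹(ℝ, ℝ)`. -/
noncomputable def weakConstR : ℝ≥0∞ :=
  ⨆ (f : ℝ → ℝ) (_ : Integrable f) (_ : ¬ f =ᵐ[volume] 0) (lam : ℝ) (_ : 0 < lam),
    ENNReal.ofReal lam * volume {x : ℝ | lam < ‖hilbert (fun y => (f y : ℂ)) x‖}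
      / ENNReal.ofReal (∫ x, |f x|)

/-- The kernel `k(ζ) = 1 / (2 cosh(πζ/2))`. -/
noncomputable def ker (z : ℂ) : ℂ := 1 / (2 * Complex.cosh (π * z / 2))

/-- `G(ζ) = ∫ |s| k(s-ζ) ds`, holomorphic on the strip `|Im ζ| < 1`. -/
noncomputable def G (z : ℂ) : ℂ := ∫ s : ℝ, ((|s| : ℝ) : ℂ) * ker ((s : ℂ) - z)

/-- `U0 = ∫ |s| k(s) ds = G(0)`. -/
noncomputable def U0 : ℝ := ∫ s : ℝ, |s| / (2 * Real.cosh (π * s / 2))

/-- The function `V` on `ℂ` with `V(ζ²) = Re G(ζ)` if `|Im ζ| < 1` and `V(ζ²) = |Re ζ|` else. -/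
noncomputable def V (w : ℂ) : ℝ :=
  if |(w ^ (1 / 2 : ℂ)).im| < 1 then (G (w ^ (1 / 2 : ℂ))).re else |(w ^ (1 / 2 : ℂ)).re|

/-- Local sub-mean value property of `u` at `z`. -/
def SubAt (u : ℂ → ℝ) (z : ℂ) : Prop :=
  ∃ r₀ : ℝ, 0 < r₀ ∧ ∀ r : ℝ, 0 < r → r < r₀ → u z ≤ Real.circleAverage u z r

/-- `(i/π) ∫ f(t)/(z-t) dt`: for real `f` the real part is the Poisson integral, the imaginary part
the conjugate Poisson integral. -/
noncomputable def cau (f : ℝ → ℝ) (z : ℂ) : ℂ := (Complex.I / π) * ∫ t : ℝ, (f t : ℂ) / (z - t)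

/-- Poisson integral of a complex function. -/
noncomputable def PP (f : ℝ → ℂ) (δ x : ℝ) : ℂ :=
  ∫ t : ℝ, ((π⁻¹ * (δ / ((x - t) ^ 2 + δ ^ 2)) : ℝ) : ℂ) * f t

/-- Conjugate Poisson integral of a complex function. -/
noncomputable def QQ (f : ℝ → ℂ) (δ x : ℝ) : ℂ :=
  ∫ t : ℝ, ((π⁻¹ * ((x - t) / ((x - t) ^ 2 + δ ^ 2)) : ℝ) : ℂ) * f t

/-- `J(z) = z - √(z-1) √(z+1)`, maps the upper half plane into the unit disc. -/
noncomputable def J (z : ℂ) : ℂ := z - (z - 1) ^ (1 / 2 : ℂ) * (z + 1) ^ (1 / 2 : ℂ)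

/-- `Φ(b) = (2/π) log((1+b)/(1-b))`, maps the unit disc onto the strip `|Im| < 1`. -/
noncomputable def Phi (b : ℂ) : ℂ := (2 / π) * (Complex.log (1 + b) - Complex.log (1 - b))

/-- The extremal functions. -/
noncomputable def Gm (m : ℕ) (δ : ℝ) (z : ℂ) : ℂ := Phi (J (z + δ * Complex.I) ^ m)

/-- `r(x) = |x| - √(x²-1)`. -/
noncomputable def rr (x : ℝ) : ℝ := |x| - √(x ^ 2 - 1)

end Pool.Dav
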