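import Pool.Agent.Helper458.Dav.Defs

set_option autoImplicit false

open MeasureTheory Filter Topology Set Metric
open scoped Real ENNReal

namespace Pool.Dav



lemma poly_approx352 {T : ℝ → ℝ} (hT : Continuous T) (hper : Function.Periodic T (2 * Real.pi))
    {r : ℝ} (hr : 0 < r) {δ : ℝ} (hδ : 0 < δ) :
    ∃ P : ℂ → ℂ, Differentiable ℂ P ∧
      ∀ θ : ℝ, |T θ - (P (r * Complex.exp (θ * Complex.I))).re| ≤ δ := by
  have : Fact (0 < 2 * Real.pi) := ⟨Real.two_pi_pos⟩
  -- lift to the circle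
  have hper2 : Function.Periodic (fun θ => (T θ : ℂ)) (2 * Real.pi) := fun x => by
    simp only; rw [hper x]
  let f : C(AddCircle (2 * Real.pi), ℂ) :=
    ⟨hper2.lift, by
      have : Continuous (fun θ : ℝ => (T θ : ℂ)) := Complex.continuous_ofReal.comp hT
      exact continuous_coinduced_dom.mpr this⟩
  have hf : ∀ θ : ℝ, f (θ : AddCircle (2 * Real.pi)) = (T θ : ℂ) := fun θ => rfl
  have hmem : f ∈ (Submodule.span ℂ (Set.range (@fourier (2 * Real.pi)))).topologicalClosure := by
    rw [span_fourier_closure_eq_top]; trivial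
  rw [← SetLike.mem_coe, Submodule.topologicalClosure_coe, Metric.mem_closure_iff] at hmem
  obtain ⟨g, hg, hfg⟩ := hmem δ hδ
  have key : ∀ g ∈ Submodule.span ℂ (Set.range (@fourier (2 * Real.pi))),
      ∃ P₁ P₂ : ℂ → ℂ, Differentiable ℂ P₁ ∧ Differentiable ℂ P₂ ∧ ∀ θ : ℝ,
        g (θ : AddCircle (2 * Real.pi)) = P₁ (r * Complex.exp (θ * Complex.I))
          + (starRingEnd ℂ) (P₂ (r * Complex.exp (θ * Complex.I))) := by
    intro g hg
    induction hg using Submodule.span_induction with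
    | mem x hx =>
      obtain ⟨n, rfl⟩ := hx
      have hrc : (r : ℂ) ≠ 0 := by exact_mod_cast hr.ne'
      have hfour : ∀ θ : ℝ, (fourier n : C(AddCircle (2 * Real.pi), ℂ))
          (θ : AddCircle (2 * Real.pi)) = Complex.exp (n * (θ * Complex.I)) := by
        intro θ
        rw [fourier_coe_apply]
        congr 1
        have : (Real.pi : ℂ) ≠ 0 := by exact_mod_cast Real.pi_ne_zero
        push_cast
        field_simp
      rcases le_total 0 n with hn | hn
      · obtain ⟨m, rfl⟩ := Int.eq_ofNat_of_zero_le hn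
        refine ⟨fun x => (x / r) ^ m, fun _ => 0, by fun_prop, by fun_prop, fun θ => ?_⟩
        rw [hfour]
        simp only [map_zero, add_zero]
        rw [mul_div_cancel_left₀ _ hrc, ← Complex.exp_nat_mul]
        push_cast
        rfl
      · obtain ⟨m, hm⟩ := Int.eq_ofNat_of_zero_le (neg_nonneg.2 hn)
        have hn' : n = -(m : ℤ) := by omega
        subst hn'
        refine ⟨fun _ => 0, fun x => (x / r) ^ m, by fun_prop, by fun_prop, fun θ => ?_⟩
        rw [hfour]
        simp only [zero_add]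
        rw [mul_div_cancel_left₀ _ hrc, ← Complex.exp_nat_mul, ← Complex.exp_conj]
        congr 1
        simp
    | zero => exact ⟨fun _ => 0, fun _ => 0, by fun_prop, by fun_prop, fun θ => by simp⟩
    | add x y _ _ hx hy =>
      obtain ⟨P₁, P₂, h1, h2, h3⟩ := hx
      obtain ⟨Q₁, Q₂, k1, k2, k3⟩ := hy
      refine ⟨fun x => P₁ x + Q₁ x, fun x => P₂ x + Q₂ x, h1.add k1, h2.add k2, fun θ => ?_⟩
      rw [ContinuousMap.add_apply, h3, k3, map_add]; ring
    | smul a x _ hx =>
      obtain ⟨P₁, P₂, h1, h2, h3⟩ := hx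
      refine ⟨fun x => a * P₁ x, fun x => (starRingEnd ℂ) a * P₂ x, h1.const_mul a,
        h2.const_mul _, fun θ => ?_⟩
      rw [ContinuousMap.smul_apply, h3, map_mul]
      simp only [smul_eq_mul, Complex.conj_conj]
      ring
  obtain ⟨P₁, P₂, h1, h2, h3⟩ := key g hg
  refine ⟨fun x => P₁ x + P₂ x, h1.add h2, fun θ => ?_⟩
  have h4 : dist (f (θ : AddCircle (2 * Real.pi))) (g (θ : AddCircle (2 * Real.pi))) ≤ δ :=
    (ContinuousMap.dist_apply_le_dist _).trans hfg.le
  rw [hf, h3, dist_eq_norm] at h4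
  refine le_trans ?_ h4
  refine le_trans (le_of_eq ?_) (Complex.abs_re_le_norm _)
  congr 1

lemma avg_re352 {P : ℂ → ℂ} (hP : Differentiable ℂ P) (c : ℂ) (R : ℝ) :
    Real.circleAverage (fun z => (P z).re) c R = (P c).re := by
  have h1 : Real.circleAverage P c R = P c := DiffContOnCl.circleAverage hP.diffContOnCl
  have h2 := Complex.reCLM.circleAverage_comp_comm
    (ContinuousOn.circleIntegrable' (c := c) (R := R) hP.continuous.continuousOn)
  rw [h1] at h2
  exact h2

lemma max352 (h : ℂ → ℝ) (c : ℂ) (R : ℝ) (hR : 0 < R) (hc : ContinuousOn h (closedBall c R))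
    (hs : ∀ z ∈ ball c R, SubAt h z) {P : ℂ → ℂ} (hP : Differentiable ℂ P) {δ : ℝ}
    (hb : ∀ x ∈ sphere c R, h x ≤ (P x).re + δ) : h c ≤ (P c).re + δ := by
  by_contra hneg
  push Not at hneg
  obtain ⟨ε, hε0, hε⟩ : ∃ ε : ℝ, 0 < ε ∧ (P c).re + δ + ε * R ^ 2 < h c := by
    refine ⟨(h c - (P c).re - δ) / (2 * R ^ 2), by
      apply div_pos <;> [linarith; positivity], ?_⟩
    have : (h c - (P c).re - δ) / (2 * R ^ 2) * R ^ 2 = (h c - (P c).re - δ) / 2 := by
      field_simp
    rw [this]; linarith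
  have hG : ContinuousOn (fun x => h x - (P x).re + ε * ‖x - c‖ ^ 2) (closedBall c R) := by
    refine (hc.sub ?_).add ?_
    · exact (Complex.continuous_re.comp hP.continuous).continuousOn
    · fun_prop
  obtain ⟨x₀, hx₀, hmax⟩ := (isCompact_closedBall c R).exists_isMaxOn
    ⟨c, mem_closedBall_self hR.le⟩ hG
  have h00 : h c - (P c).re + ε * ‖c - c‖ ^ 2 ≤ h x₀ - (P x₀).re + ε * ‖x₀ - c‖ ^ 2 :=
    hmax (mem_closedBall_self hR.le)
  rw [sub_self, norm_zero] at h00
  have hx₀r : ‖x₀ - c‖ ≤ R := by rwa [mem_closedBall_iff_norm] at hx₀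
  rcases hx₀r.lt_or_eq with hlt | heq
  · have hball : x₀ ∈ ball c R := by rwa [mem_ball_iff_norm]
    obtain ⟨r₀, hr₀, hsub⟩ := hs x₀ hball
    set r := min r₀ (R - ‖x₀ - c‖) / 2 with hr
    have hmin : 0 < min r₀ (R - ‖x₀ - c‖) := lt_min hr₀ (by linarith)
    have hr0 : 0 < r := by positivity
    have hr1 : r < r₀ := by
      have := min_le_left r₀ (R - ‖x₀ - c‖)
      rw [hr]; linarith
    have hr2 : r < R - ‖x₀ - c‖ := by
      have := min_le_right r₀ (R - ‖x₀ - c‖)
      rw [hr]; linarith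
    have hle := hsub r hr0 hr1
    have hsubset : sphere x₀ |r| ⊆ closedBall c R := by
      intro x hx
      rw [mem_sphere_iff_norm, abs_of_pos hr0] at hx
      rw [mem_closedBall_iff_norm]
      calc ‖x - c‖ = ‖(x - x₀) + (x₀ - c)‖ := by congr 1; ring
        _ ≤ ‖x - x₀‖ + ‖x₀ - c‖ := norm_add_le _ _
        _ ≤ R := by rw [hx]; linarith
    set E : ℂ → ℂ := fun x => P x - ((ε : ℂ) * (((‖x₀ - c‖ ^ 2 + r ^ 2 : ℝ) : ℂ) +
      2 * ((starRingEnd ℂ) (x₀ - c) * (x - x₀)))) + ((h x₀ - (P x₀).re + ε * ‖x₀ - c‖ ^ 2 : ℝ) : ℂ)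
      with hE
    have hEd : Differentiable ℂ E := by
      rw [hE]
      fun_prop
    have hnorm : ∀ x ∈ sphere x₀ |r|, ‖x - c‖ ^ 2 = ‖x₀ - c‖ ^ 2 + r ^ 2 +
        2 * ((starRingEnd ℂ) (x₀ - c) * (x - x₀)).re := by
      intro x hx
      rw [mem_sphere_iff_norm, abs_of_pos hr0] at hx
      have h1 : ‖x - x₀‖ ^ 2 = r ^ 2 := by rw [hx]
      rw [← Complex.normSq_eq_norm_sq, Complex.normSq_apply] at h1
      rw [← Complex.normSq_eq_norm_sq, ← Complex.normSq_eq_norm_sq, Complex.normSq_apply,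
        Complex.normSq_apply, ← h1]
      simp only [Complex.mul_re, Complex.conj_re, Complex.conj_im, Complex.sub_re, Complex.sub_im]
      ring
    have hEre : ∀ x ∈ sphere x₀ |r|, (E x).re = (P x).re - ε * ‖x - c‖ ^ 2 +
        (h x₀ - (P x₀).re + ε * ‖x₀ - c‖ ^ 2) := by
      intro x hx
      rw [hnorm x hx, hE]
      simp only [Complex.add_re, Complex.sub_re, Complex.ofReal_re]
      rw [Complex.re_ofReal_mul, Complex.add_re, Complex.ofReal_re]
      have : (2 * ((starRingEnd ℂ) (x₀ - c) * (x - x₀))).re =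
          2 * ((starRingEnd ℂ) (x₀ - c) * (x - x₀)).re := by
        have h2 : (2 : ℂ) = ((2 : ℝ) : ℂ) := by norm_num
        rw [h2, Complex.re_ofReal_mul]
      rw [this]
    have h1 : Real.circleAverage h x₀ r ≤ Real.circleAverage (fun z => (E z).re) x₀ r := by
      refine Real.circleAverage_mono (ContinuousOn.circleIntegrable' (hc.mono hsubset))
        (ContinuousOn.circleIntegrable'
          (Complex.continuous_re.comp hEd.continuous).continuousOn) fun x hx => ?_
      rw [hEre x hx]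
      have h2 : h x - (P x).re + ε * ‖x - c‖ ^ 2 ≤ h x₀ - (P x₀).re + ε * ‖x₀ - c‖ ^ 2 :=
        hmax (hsubset hx)
      linarith
    rw [avg_re352 hEd] at h1
    have h2 : (E x₀).re = h x₀ - ε * r ^ 2 := by
      rw [hE]
      simp only [sub_self, mul_zero, add_zero, Complex.add_re, Complex.sub_re, Complex.ofReal_re]
      rw [Complex.re_ofReal_mul, Complex.ofReal_re]
      ring
    rw [h2] at h1
    have h3 : 0 < ε * r ^ 2 := by positivity
    linarith
  · have h5 := hb x₀ (by rwa [mem_sphere_iff_norm])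
    rw [heq] at h00
    have h6 : ε * (0 : ℝ) ^ 2 = 0 := by ring
    linarith

theorem GS (h : ℂ → ℝ) (c : ℂ) (R : ℝ) (hR : 0 < R) (hc : ContinuousOn h (closedBall c R))
    (hs : ∀ z ∈ ball c R, SubAt h z) : h c ≤ Real.circleAverage h c R := by
  have hsph : ∀ θ : ℝ, c + (R : ℂ) * Complex.exp (θ * Complex.I) ∈ sphere c R := by
    intro θ
    rw [mem_sphere_iff_norm, add_sub_cancel_left, norm_mul, Complex.norm_exp_ofReal_mul_I,
      Complex.norm_real, Real.norm_of_nonneg hR.le, mul_one]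
  have hcirc : Continuous fun θ : ℝ => h (c + R * Complex.exp (θ * Complex.I)) :=
    hc.comp_continuous (by fun_prop) fun θ => sphere_subset_closedBall (hsph θ)
  have hper : Function.Periodic (fun θ : ℝ => h (c + R * Complex.exp (θ * Complex.I)))
      (2 * Real.pi) := by
    intro θ
    simp only
    congr 3
    push_cast
    rw [add_mul, Complex.exp_add, Complex.exp_two_pi_mul_I, mul_one]
  have hcI : CircleIntegrable h c R := ContinuousOn.circleIntegrable' (by
    rw [abs_of_pos hR]; exact hc.mono sphere_subset_closedBall)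
  refine le_of_forall_pos_le_add fun δ hδ => ?_
  obtain ⟨P, hP, hPu⟩ := poly_approx352 hcirc hper hR (half_pos hδ)
  have hP' : Differentiable ℂ fun z => P (z - c) := hP.comp (by fun_prop)
  have hPs : ∀ x ∈ sphere c R, |h x - (P (x - c)).re| ≤ δ / 2 := by
    intro x hx
    have hx' : ‖x - c‖ = R := by rwa [mem_sphere_iff_norm] at hx
    have := hPu (x - c).arg
    have hxe : (R : ℂ) * Complex.exp ((x - c).arg * Complex.I) = x - c := by
      rw [← hx']; exact Complex.norm_mul_exp_arg_mul_I (x - c)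
    rw [hxe, add_sub_cancel] at this
    exact this
  have h1 : h c ≤ (P (c - c)).re + δ / 2 :=
    max352 h c R hR hc hs hP' fun x hx => by linarith [(abs_le.1 (hPs x hx)).2]
  have h2 : (P (c - c)).re ≤ Real.circleAverage (fun z => h z + δ / 2) c R := by
    rw [← avg_re352 hP' c R]
    refine Real.circleAverage_mono (ContinuousOn.circleIntegrable'
      (Complex.continuous_re.comp hP'.continuous).continuousOn)
      (hcI.add (circleIntegrable_const _ _ _)) fun x hx => ?_
    rw [abs_of_pos hR] at hx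
    linarith [(abs_le.1 (hPs x hx)).1]
  have h3 : Real.circleAverage (fun z => h z + δ / 2) c R = Real.circleAverage h c R + δ / 2 := by
    rw [Real.circleAverage_fun_add hcI (circleIntegrable_const _ _ _), Real.circleAverage_const]
  linarith

end Pool.Dav
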