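import Pool.Agent.Helper458.Dav.Defs

set_option autoImplicit false

open MeasureTheory Filter Topology Set Metric
open scoped Real ENNReal

namespace Pool.Dav



theorem ker_re_pos (z : ℂ) (hz : |z.im| < 1) : 0 < (ker z).re := by
  unfold ker
  have him : (π * z / 2 : ℂ).im = π * z.im / 2 := by
    have : (π * z / 2 : ℂ) = ((π / 2 : ℝ) : ℂ) * z := by push_cast; ring
    rw [this, Complex.im_ofReal_mul]
    ring
  have hre : 0 < (2 * Complex.cosh (π * z / 2)).re := by
    generalize (π * z / 2 : ℂ) = w at him
    have h0 : Complex.cosh w = ((Real.cosh w.re * Real.cos w.im : ℝ) : ℂ) +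
        ((Real.sinh w.re * Real.sin w.im : ℝ) : ℂ) * Complex.I := by
      conv_lhs => rw [← Complex.re_add_im w, Complex.cosh_add, Complex.cosh_mul_I,
        Complex.sinh_mul_I]
      push_cast
      ring
    have h1 : (2 * Complex.cosh w).re = 2 * (Real.cosh w.re * Real.cos w.im) := by
      have h00 : (2 * Complex.cosh w) = ((2 * (Real.cosh w.re * Real.cos w.im) : ℝ) : ℂ) +
        ((2 * (Real.sinh w.re * Real.sin w.im) : ℝ) : ℂ) * Complex.I := by
        rw [h0]; push_cast; ring
      rw [h00, Complex.add_re, Complex.ofReal_re, Complex.re_ofReal_mul, Complex.I_re, mul_zero,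
        add_zero]
    rw [h1, him]
    have h2 := Real.cosh_pos w.re
    have h3 : 0 < Real.cos (π * z.im / 2) := by
      rw [abs_lt] at hz
      apply Real.cos_pos_of_mem_Ioo
      constructor <;> nlinarith [Real.pi_pos, hz.1, hz.2]
    positivity
  rw [one_div, Complex.inv_re]
  apply div_pos hre
  apply Complex.normSq_pos.2
  intro h0
  rw [h0] at hre
  simp at hre

end Pool.Dav
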