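import Pool.Agent.Helper458.Dav.Defs

set_option autoImplicit false

open MeasureTheory Filter Topology Set Metric
open scoped Real ENNReal

namespace Pool.Dav



theorem ker_norm_le (z : ℂ) (hz : |z.im| < 1) :
    ‖ker z‖ ≤ 1 / (2 * Real.cos (π * z.im / 2) * Real.cosh (π * z.re / 2)) := by
  set x : ℝ := π * z.re / 2 with hx
  set y : ℝ := π * z.im / 2 with hy
  have hw : (π : ℂ) * z / 2 = (x : ℂ) + (y : ℂ) * Complex.I := by
    rw [hx, hy]
    push_cast
    nth_rewrite 1 [← Complex.re_add_im z]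
    ring
  have hy1 : |y| < π / 2 := by
    rw [hy, abs_div, abs_mul, abs_of_pos Real.pi_pos, abs_two]
    have := mul_lt_mul_of_pos_left hz Real.pi_pos
    linarith
  have hcos : 0 < Real.cos y := Real.cos_pos_of_mem_Ioo (abs_lt.1 hy1)
  have hcosh : 0 < Real.cosh x := Real.cosh_pos x
  have hre : (Complex.cosh ((x : ℂ) + (y : ℂ) * Complex.I)).re = Real.cosh x * Real.cos y := by
    rw [Complex.cosh_add, Complex.cosh_mul_I, Complex.sinh_mul_I, ← Complex.ofReal_cosh,
      ← Complex.ofReal_cos, ← Complex.ofReal_sinh, ← Complex.ofReal_sin]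
    simp
    left
    rw [← Complex.ofReal_cos, Complex.ofReal_re]
  have h1 : Real.cosh x * Real.cos y ≤ ‖Complex.cosh ((x : ℂ) + (y : ℂ) * Complex.I)‖ := by
    rw [← hre]
    exact Complex.re_le_norm _
  unfold ker
  rw [hw, norm_div, norm_one, norm_mul, Complex.norm_ofNat]
  refine one_div_le_one_div_of_le (by positivity) ?_
  nlinarith

end Pool.Dav
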