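import Pool.Agent.Helper458.Dav.Defs
import Pool.Agent.Helper458.Dav.P_ker_norm_le

set_option autoImplicit false

open MeasureTheory Filter Topology Set Metric
open scoped Real ENNReal

namespace Pool.Dav



private theorem cosh_poly (u t : ℝ) (hu : u = π * t / 2) : (1 + t ^ 2) ^ 2 ≤ 100 * Real.cosh u := by
  have h1 : Real.exp |u| ≤ 2 * Real.cosh u := by
    rw [← Real.cosh_abs u, Real.cosh_eq]
    have := Real.exp_pos (-|u|)
    linarith
  have h2 : (1:ℝ) ≤ Real.exp |u| := Real.one_le_exp (abs_nonneg u)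
  have h3 := Real.pow_div_factorial_le_exp |u| (abs_nonneg u) 4
  have h4 : |u| ^ 4 = u ^ 4 := by
    rw [← abs_pow]; exact abs_of_nonneg (by positivity)
  rw [h4] at h3
  have h5 : ((Nat.factorial 4 : ℕ) : ℝ) = 24 := by norm_num [Nat.factorial]
  rw [h5] at h3
  have h6 : t ^ 4 ≤ u ^ 4 := by
    have hpi : (2:ℝ) ≤ π := by linarith [Real.pi_gt_three]
    have : t ^ 2 ≤ u ^ 2 := by
      rw [hu]
      have h7 : (π * t / 2) ^ 2 = (π / 2) ^ 2 * t ^ 2 := by ring
      rw [h7]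
      have h8 : 1 ≤ (π / 2) ^ 2 := by nlinarith
      nlinarith [sq_nonneg t]
    nlinarith [sq_nonneg t, sq_nonneg u]
  nlinarith [sq_nonneg (t ^ 2 - 1)]

theorem ker_weight_int (φ : ℝ → ℂ) (hφ : Continuous φ) (C : ℝ) (hC : ∀ s, ‖φ s‖ ≤ C * (1 + s ^ 2))
    (z : ℂ) (hz : |z.im| < 1) : Integrable (fun s : ℝ => φ s * ker ((s : ℂ) - z)) := by
  have hC0 : 0 ≤ C := by
    have := hC 0
    have h0 := norm_nonneg (φ 0)
    nlinarith
  obtain ⟨c, hc⟩ : ∃ c, c = Real.cos (π * z.im / 2) := ⟨_, rfl⟩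
  have hc0 : 0 < c := by
    rw [hc]
    have h := abs_lt.1 hz
    apply Real.cos_pos_of_mem_Ioo
    constructor <;> nlinarith [Real.pi_pos]
  have hint : Integrable (fun s : ℝ => (C / (2 * c) * (200 * (1 + z.re ^ 2)))
      * (1 + (s - z.re) ^ 2)⁻¹) :=
    (integrable_inv_one_add_sq.comp_sub_right z.re).const_mul _
  refine hint.mono' ?_ (Filter.Eventually.of_forall fun s => ?_)
  · apply AEStronglyMeasurable.mul hφ.aestronglyMeasurable
    unfold ker
    apply Measurable.aestronglyMeasurable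
    apply Measurable.const_div
    apply Measurable.const_mul
    apply Complex.measurable_cosh.comp
    fun_prop
  · have h1 := ker_norm_le ((s : ℂ) - z) (by simpa using hz)
    have e1 : ((s : ℂ) - z).im = - z.im := by simp
    have e2 : ((s : ℂ) - z).re = s - z.re := by simp
    rw [e1, e2, show π * -z.im / 2 = -(π * z.im / 2) by ring, Real.cos_neg, ← hc] at h1
    have h2 := cosh_poly (π * (s - z.re) / 2) (s - z.re) rfl
    obtain ⟨H, hH⟩ : ∃ H, H = Real.cosh (π * (s - z.re) / 2) := ⟨_, rfl⟩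
    have hHpos : 0 < H := by rw [hH]; exact Real.cosh_pos _
    rw [← hH] at h1 h2
    rw [norm_mul]
    have h3 : 1 + s ^ 2 ≤ 2 * (1 + z.re ^ 2) * (1 + (s - z.re) ^ 2) := by
      nlinarith [sq_nonneg (s - z.re - z.re), sq_nonneg (z.re * (s - z.re)), sq_nonneg (s - z.re)]
    have h4 : 0 < 1 + (s - z.re) ^ 2 := by positivity
    have h5 : (1 + s ^ 2) / H ≤ 200 * (1 + z.re ^ 2) * (1 + (s - z.re) ^ 2)⁻¹ := by
      rw [div_le_iff₀ hHpos, ← div_eq_mul_inv, div_mul_eq_mul_div, le_div_iff₀ h4]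
      calc (1 + s ^ 2) * (1 + (s - z.re) ^ 2)
          ≤ (2 * (1 + z.re ^ 2) * (1 + (s - z.re) ^ 2)) * (1 + (s - z.re) ^ 2) := by gcongr
        _ = 2 * (1 + z.re ^ 2) * (1 + (s - z.re) ^ 2) ^ 2 := by ring
        _ ≤ 2 * (1 + z.re ^ 2) * (100 * H) := by gcongr
        _ = 200 * (1 + z.re ^ 2) * H := by ring
    calc ‖φ s‖ * ‖ker ((s : ℂ) - z)‖ ≤ (C * (1 + s ^ 2)) * (1 / (2 * c * H)) :=
          mul_le_mul (hC s) h1 (norm_nonneg _) (by positivity)
      _ = C / (2 * c) * ((1 + s ^ 2) / H) := by field_simp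
      _ ≤ C / (2 * c) * (200 * (1 + z.re ^ 2) * (1 + (s - z.re) ^ 2)⁻¹) := by
          apply mul_le_mul_of_nonneg_left h5; positivity
      _ = _ := by ring

end Pool.Dav
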