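import Pool.Agent.Helper458.Dav.Defs

set_option autoImplicit false

open MeasureTheory Filter Topology Set Metric
open scoped Real ENNReal

namespace Pool.Dav



theorem ker_mass_cosh (x : ℝ) : 2 + x ^ 2 / 2 ≤ 2 * Real.cosh x := by
  rw [← Real.cosh_abs, ← sq_abs, Real.cosh_eq]
  have h1 := Real.quadratic_le_exp_of_nonneg (abs_nonneg x)
  have h2 := Real.add_one_le_exp (-|x|)
  linarith

theorem ker_mass_int : Integrable (fun s : ℝ => 1 / (2 * Real.cosh (π * s / 2))) := by
  refine integrable_inv_one_add_sq.mono' ?_ ?_
  · apply Continuous.aestronglyMeasurable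
    apply Continuous.div continuous_const (by fun_prop)
    intro s
    have := Real.cosh_pos (π * s / 2)
    positivity
  · refine Filter.Eventually.of_forall fun s => ?_
    have h1 := ker_mass_cosh (π * s / 2)
    have h2 := Real.cosh_pos (π * s / 2)
    rw [Real.norm_eq_abs, abs_of_pos (by positivity), one_div]
    apply inv_anti₀ (by positivity)
    have h3 := Real.pi_gt_three
    have h4 : 9 * s ^ 2 ≤ π ^ 2 * s ^ 2 := by
      apply mul_le_mul_of_nonneg_right _ (sq_nonneg s)
      nlinarith
    nlinarith

theorem ker_mass_der (s : ℝ) : HasDerivAt (fun s : ℝ => 2 / π * Real.arctan (Real.exp (π * s / 2)))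
    (1 / (2 * Real.cosh (π * s / 2))) s := by
  have h1 : HasDerivAt (fun s : ℝ => π * s / 2) (π / 2) s := by
    have := ((hasDerivAt_id s).const_mul π).div_const 2
    simpa using this
  have h2 := (h1.exp.arctan).const_mul (2 / π)
  refine HasDerivAt.congr_deriv h2 ?_
  have hpi := Real.pi_pos
  rw [Real.cosh_eq, Real.exp_neg]
  have h3 := Real.exp_pos (π * s / 2)
  generalize Real.exp (π * s / 2) = e at h3
  field_simp
  ring

theorem ker_mass : ∫ s : ℝ, 1 / (2 * Real.cosh (π * s / 2)) = 1 := by
  have hpi := Real.pi_pos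
  have hbot : Tendsto (fun s : ℝ => 2 / π * Real.arctan (Real.exp (π * s / 2))) atBot (𝓝 (2 / π * 0)) := by
    apply Tendsto.const_mul
    have h1 : Tendsto (fun s : ℝ => π * s / 2) atBot atBot := by
      have : (fun s : ℝ => π * s / 2) = fun s => (π / 2) * s := by ext s; ring
      rw [this]
      exact tendsto_id.const_mul_atBot (by positivity)
    have h2 : Tendsto (fun s : ℝ => Real.exp (π * s / 2)) atBot (𝓝 0) := Real.tendsto_exp_atBot.comp h1
    have h3 := (Real.continuous_arctan.tendsto 0).comp h2
    rw [Real.arctan_zero] at h3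
    exact h3
  have htop : Tendsto (fun s : ℝ => 2 / π * Real.arctan (Real.exp (π * s / 2))) atTop
      (𝓝 (2 / π * (π / 2))) := by
    apply Tendsto.const_mul
    have h1 : Tendsto (fun s : ℝ => π * s / 2) atTop atTop := by
      have : (fun s : ℝ => π * s / 2) = fun s => (π / 2) * s := by ext s; ring
      rw [this]
      exact tendsto_id.const_mul_atTop (by positivity)
    have h2 : Tendsto (fun s : ℝ => Real.exp (π * s / 2)) atTop atTop := Real.tendsto_exp_atTop.comp h1
    exact (Real.tendsto_arctan_atTop.mono_right nhdsWithin_le_nhds).comp h2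
  rw [integral_of_hasDerivAt_of_tendsto ker_mass_der ker_mass_int hbot htop]
  field_simp
  ring

end Pool.Dav
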