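import Pool.Agent.Helper458.Dav.Defs
import Pool.Agent.Helper458.Dav.P_ker_norm_le

set_option autoImplicit false

open MeasureTheory Filter Topology Set Metric
open scoped Real ENNReal

namespace Pool.Dav



theorem kwd_cosh {z : ℂ} (hz : |z.im| < 1) : Complex.cosh (π * z / 2) ≠ 0 := by
  intro h
  rw [← Complex.cos_mul_I, Complex.cos_eq_zero_iff] at h
  obtain ⟨k, hk⟩ := h
  have hpi : (π : ℂ) ≠ 0 := by exact_mod_cast Real.pi_ne_zero
  have h1 : (π : ℂ) * (z * Complex.I) = π * (2 * k + 1) := by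
    linear_combination 2 * hk
  have h2 : z * Complex.I = 2 * k + 1 := mul_left_cancel₀ hpi h1
  have h3 : -z.im = 2 * k + 1 := by
    have := congrArg Complex.re h2
    simpa using this
  have h4 : |z.im| = |(2 * k + 1 : ℤ)| := by
    rw [← abs_neg, h3]
    push_cast
    rfl
  rw [h4] at hz
  have h5 : |(2 * k + 1 : ℤ)| < 1 := by exact_mod_cast hz
  rw [abs_lt] at h5
  omega

theorem kwd_strip_open : IsOpen {z : ℂ | |z.im| < 1} :=
  isOpen_lt (by fun_prop) continuous_const

theorem kwd_ker_diff : DifferentiableOn ℂ ker {z : ℂ | |z.im| < 1} := by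
  intro z hz
  have h1 : DifferentiableAt ℂ (fun z : ℂ => 1 / (2 * Complex.cosh (π * z / 2))) z := by
    refine DifferentiableAt.div (by fun_prop) (by fun_prop) ?_
    exact mul_ne_zero two_ne_zero (kwd_cosh hz)
  exact DifferentiableAt.differentiableWithinAt h1

theorem kwd_poly (s : ℝ) : (1 + s ^ 2) * Real.exp (-|s|) ≤ 29 * (1 + s ^ 2)⁻¹ := by
  have h0 : 0 ≤ |s| := abs_nonneg s
  have h2 := Real.pow_div_factorial_le_exp |s| h0 2
  have h4 := Real.pow_div_factorial_le_exp |s| h0 4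
  have h1 := Real.one_le_exp h0
  have e2 : ((Nat.factorial 2 : ℕ) : ℝ) = 2 := by norm_num [Nat.factorial]
  have e4 : ((Nat.factorial 4 : ℕ) : ℝ) = 24 := by norm_num [Nat.factorial]
  rw [e2, sq_abs] at h2
  have hs4 : |s| ^ 4 = s ^ 4 := by
    have : |s| ^ 4 = (|s| ^ 2) ^ 2 := by ring
    rw [this, sq_abs]
    ring
  rw [e4, hs4] at h4
  have hpos : 0 < 1 + s ^ 2 := by positivity
  rw [Real.exp_neg, ← div_eq_mul_inv, ← div_eq_mul_inv, div_le_div_iff₀ (Real.exp_pos _) hpos]
  have h5 : (1 + s ^ 2) * (1 + s ^ 2) = 1 + 2 * s ^ 2 + s ^ 4 := by ring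
  rw [h5]
  linarith

theorem kwd_bound {b R : ℝ} (hb : b < 1) {w : ℂ} (hw : |w.im| ≤ b) (hR : |w.re| ≤ R) (s : ℝ) :
    ‖ker ((s : ℂ) - w)‖ ≤ 1 / Real.cos (π * b / 2) * Real.exp (π * R / 2) * Real.exp (-|s|) := by
  have hpi := Real.pi_pos
  have hb0 : 0 ≤ b := (abs_nonneg _).trans hw
  have him : ((s : ℂ) - w).im = -w.im := by simp
  have hre : ((s : ℂ) - w).re = s - w.re := by simp
  have h1 := ker_norm_le ((s : ℂ) - w) (by rw [him, abs_neg]; linarith)
  rw [him, hre] at h1
  have hc : 0 < Real.cos (π * b / 2) := by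
    apply Real.cos_pos_of_mem_Ioo
    constructor
    · have : 0 ≤ π * b / 2 := by positivity
      linarith
    · nlinarith
  have hcos : Real.cos (π * b / 2) ≤ Real.cos (π * -w.im / 2) := by
    have h2 : Real.cos (π * -w.im / 2) = Real.cos (π * |w.im| / 2) := by
      rw [← Real.cos_abs (π * -w.im / 2), abs_div, abs_mul, abs_of_pos hpi, abs_neg, abs_two]
    rw [h2]
    apply Real.cos_le_cos_of_nonneg_of_le_pi
    · positivity
    · nlinarith
    · gcongr
  have hcosh : 1 / 2 * Real.exp (|s| - π * R / 2) ≤ Real.cosh (π * (s - w.re) / 2) := by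
    rw [← Real.cosh_abs, Real.cosh_eq, abs_div, abs_mul, abs_of_pos hpi, abs_two]
    have h3 : |s| - π * R / 2 ≤ π * |s - w.re| / 2 := by
      have h4 : |s| - |w.re| ≤ |s - w.re| := abs_sub_abs_le_abs_sub s w.re
      have h5 : |s| ≤ π * |s| / 2 := by
        have := Real.pi_gt_three
        nlinarith [abs_nonneg s]
      nlinarith
    have h6 := Real.exp_le_exp.2 h3
    have h7 := Real.exp_pos (-(π * |s - w.re| / 2))
    linarith
  refine h1.trans ?_
  have hprod : Real.cos (π * b / 2) * Real.exp (|s| - π * R / 2) ≤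
      2 * Real.cos (π * -w.im / 2) * Real.cosh (π * (s - w.re) / 2) := by
    have h8 : 0 < Real.cos (π * -w.im / 2) := hc.trans_le hcos
    calc Real.cos (π * b / 2) * Real.exp (|s| - π * R / 2)
        ≤ Real.cos (π * -w.im / 2) * Real.exp (|s| - π * R / 2) :=
          mul_le_mul_of_nonneg_right hcos (Real.exp_pos _).le
      _ = 2 * Real.cos (π * -w.im / 2) * (1 / 2 * Real.exp (|s| - π * R / 2)) := by ring
      _ ≤ _ := mul_le_mul_of_nonneg_left hcosh (by positivity)
  have h9 : 1 / Real.cos (π * b / 2) * Real.exp (π * R / 2) * Real.exp (-|s|) =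
      1 / (Real.cos (π * b / 2) * Real.exp (|s| - π * R / 2)) := by
    rw [mul_assoc, ← Real.exp_add, one_div, one_div, mul_inv, ← Real.exp_neg]
    congr 2
    ring
  rw [h9]
  exact one_div_le_one_div_of_le (mul_pos hc (Real.exp_pos _)) hprod

theorem ker_weight_diff (φ : ℝ → ℂ) (hφ : Continuous φ) (C : ℝ) (hC : ∀ s, ‖φ s‖ ≤ C * (1 + s ^ 2)) :
    DifferentiableOn ℂ (fun z : ℂ => ∫ s : ℝ, φ s * ker ((s : ℂ) - z)) {z : ℂ | |z.im| < 1} := by
  intro z0 hz0
  have hz0' : |z0.im| < 1 := hz0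
  have hC0 : 0 ≤ C := by
    have := (norm_nonneg _).trans (hC 0)
    simpa using this
  obtain ⟨r, hr⟩ : ∃ r, r = (1 - |z0.im|) / 4 := ⟨_, rfl⟩
  have hr0 : 0 < r := by rw [hr]; linarith
  obtain ⟨b, hb⟩ : ∃ b, b = |z0.im| + 2 * r := ⟨_, rfl⟩
  have hb1 : b < 1 := by rw [hb, hr]; linarith
  obtain ⟨R, hR⟩ : ∃ R, R = |z0.re| + 2 * r := ⟨_, rfl⟩
  have hnear : ∀ w : ℂ, ‖w - z0‖ ≤ 2 * r → |w.im| ≤ b ∧ |w.re| ≤ R := by
    intro w hw
    constructor
    · have h1 : |w.im - z0.im| ≤ ‖w - z0‖ := by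
        have := Complex.abs_im_le_norm (w - z0)
        simpa using this
      have h2 := abs_sub_abs_le_abs_sub w.im z0.im
      rw [hb]
      linarith
    · have h1 : |w.re - z0.re| ≤ ‖w - z0‖ := by
        have := Complex.abs_re_le_norm (w - z0)
        simpa using this
      have h2 := abs_sub_abs_le_abs_sub w.re z0.re
      rw [hR]
      linarith
  have hpi := Real.pi_pos
  have hb0 : 0 ≤ b := by
    rw [hb]
    have := abs_nonneg z0.im
    linarith
  have hc : 0 < Real.cos (π * b / 2) := by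
    apply Real.cos_pos_of_mem_Ioo
    constructor
    · have : 0 ≤ π * b / 2 := by positivity
      linarith
    · nlinarith
  obtain ⟨K, hK⟩ : ∃ K, K = C * (1 / Real.cos (π * b / 2) * Real.exp (π * R / 2)) * 29 := ⟨_, rfl⟩
  have hF : ∀ w : ℂ, ‖w - z0‖ ≤ 2 * r → ∀ s : ℝ, ‖φ s * ker ((s : ℂ) - w)‖ ≤ K * (1 + s ^ 2)⁻¹ := by
    intro w hw s
    obtain ⟨h1, h2⟩ := hnear w hw
    rw [norm_mul]
    have h3 := kwd_bound hb1 h1 h2 s
    have h4 : 0 ≤ C * (1 / Real.cos (π * b / 2) * Real.exp (π * R / 2)) := by positivity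
    calc ‖φ s‖ * ‖ker ((s : ℂ) - w)‖ ≤ (C * (1 + s ^ 2)) *
          (1 / Real.cos (π * b / 2) * Real.exp (π * R / 2) * Real.exp (-|s|)) :=
          mul_le_mul (hC s) h3 (norm_nonneg _) (by positivity)
      _ = (C * (1 / Real.cos (π * b / 2) * Real.exp (π * R / 2))) *
          ((1 + s ^ 2) * Real.exp (-|s|)) := by ring
      _ ≤ (C * (1 / Real.cos (π * b / 2) * Real.exp (π * R / 2))) * (29 * (1 + s ^ 2)⁻¹) :=
          mul_le_mul_of_nonneg_left (kwd_poly s) h4
      _ = K * (1 + s ^ 2)⁻¹ := by rw [hK]; ring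
  have hstrip : ∀ w : ℂ, ‖w - z0‖ ≤ 2 * r → ∀ s : ℝ, ((s : ℂ) - w) ∈ {z : ℂ | |z.im| < 1} := by
    intro w hw s
    obtain ⟨h1, -⟩ := hnear w hw
    show |((s : ℂ) - w).im| < 1
    have him : ((s : ℂ) - w).im = -w.im := by simp
    rw [him, abs_neg]
    linarith
  have hcontker : ∀ w : ℂ, ‖w - z0‖ ≤ 2 * r → Continuous (fun s : ℝ => ker ((s : ℂ) - w)) := by
    intro w hw
    exact kwd_ker_diff.continuousOn.comp_continuous (by fun_prop) (hstrip w hw)
  have hderiv : ∀ w : ℂ, ‖w - z0‖ ≤ 2 * r → ∀ s : ℝ,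
      HasDerivAt (fun z : ℂ => φ s * ker ((s : ℂ) - z)) (φ s * (-deriv ker ((s : ℂ) - w))) w := by
    intro w hw s
    have h1 : HasDerivAt ker (deriv ker ((s : ℂ) - w)) ((s : ℂ) - w) :=
      (kwd_ker_diff.differentiableAt (kwd_strip_open.mem_nhds (hstrip w hw s))).hasDerivAt
    have h2 : HasDerivAt (fun z : ℂ => (s : ℂ) - z) (-1) w := by
      have := (hasDerivAt_id w).const_sub (s : ℂ)
      exact this
    have h3 := (h1.comp w h2).const_mul (φ s)
    rw [mul_neg_one] at h3
    exact h3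
  have hmain := hasDerivAt_integral_of_dominated_loc_of_deriv_le (μ := (volume : Measure ℝ))
    (F := fun (z : ℂ) (s : ℝ) => φ s * ker ((s : ℂ) - z))
    (F' := fun (z : ℂ) (s : ℝ) => φ s * (-deriv ker ((s : ℂ) - z))) (x₀ := z0)
    (bound := fun s : ℝ => K / r * (1 + s ^ 2)⁻¹) (Metric.ball_mem_nhds z0 hr0) ?_ ?_ ?_ ?_ ?_ ?_
  · exact hmain.2.differentiableAt.differentiableWithinAt
  · filter_upwards [Metric.ball_mem_nhds z0 hr0] with w hw
    rw [mem_ball_iff_norm] at hw
    exact (hφ.mul (hcontker w (by linarith))).aestronglyMeasurable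
  · have h1 : Integrable (fun s : ℝ => K * (1 + s ^ 2)⁻¹) := integrable_inv_one_add_sq.const_mul K
    refine h1.mono' (hφ.mul (hcontker z0 (by rw [sub_self, norm_zero]; linarith))).aestronglyMeasurable ?_
    exact Eventually.of_forall (fun s => hF z0 (by rw [sub_self, norm_zero]; linarith) s)
  · have h1 : ContinuousOn (deriv ker) {z : ℂ | |z.im| < 1} :=
      (kwd_ker_diff.deriv kwd_strip_open).continuousOn
    have h2 : Continuous (fun s : ℝ => deriv ker ((s : ℂ) - z0)) :=
      h1.comp_continuous (by fun_prop) (hstrip z0 (by rw [sub_self, norm_zero]; linarith))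
    exact (hφ.mul h2.neg).aestronglyMeasurable
  · refine Eventually.of_forall (fun s w hw => ?_)
    rw [mem_ball_iff_norm] at hw
    have h1 : DiffContOnCl ℂ (fun z : ℂ => φ s * ker ((s : ℂ) - z)) (ball w r) := by
      have h2 : DifferentiableOn ℂ (fun z : ℂ => φ s * ker ((s : ℂ) - z)) (closedBall w r) := by
        intro v hv
        rw [mem_closedBall_iff_norm] at hv
        have h3 : ‖v - z0‖ ≤ 2 * r := by
          have h4 : v - z0 = (v - w) + (w - z0) := by ring
          rw [h4]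
          have := norm_add_le (v - w) (w - z0)
          linarith
        exact (hderiv v h3 s).differentiableAt.differentiableWithinAt
      exact h2.diffContOnCl_ball (Subset.refl _)
    have h5 := Complex.norm_deriv_le_of_forall_mem_sphere_norm_le hr0 h1
      (C := K * (1 + s ^ 2)⁻¹) (fun v hv => by
        rw [mem_sphere_iff_norm] at hv
        have h3 : ‖v - z0‖ ≤ 2 * r := by
          have h4 : v - z0 = (v - w) + (w - z0) := by ring
          rw [h4]
          have := norm_add_le (v - w) (w - z0)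
          linarith
        exact hF v h3 s)
    rw [(hderiv w (by linarith) s).deriv] at h5
    refine h5.trans (le_of_eq ?_)
    ring
  · exact integrable_inv_one_add_sq.const_mul _
  · refine Eventually.of_forall (fun s w hw => ?_)
    rw [mem_ball_iff_norm] at hw
    exact hderiv w (by linarith) s

end Pool.Dav
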