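import Pool.Agent.Helper458.Dav.Defs

set_option autoImplicit false

open MeasureTheory Filter Topology Set Metric
open scoped Real ENNReal

namespace Pool.Dav



theorem strip_identity (f g : ℂ → ℂ) (hf : DifferentiableOn ℂ f {z : ℂ | |z.im| < 1})
    (hg : DifferentiableOn ℂ g {z : ℂ | |z.im| < 1}) (h : ∀ x : ℝ, f x = g x) :
    ∀ z : ℂ, |z.im| < 1 → f z = g z := by
  have hU : IsOpen {z : ℂ | |z.im| < 1} :=
    isOpen_lt (continuous_abs.comp Complex.continuous_im) continuous_const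
  have hconv : Convex ℝ {z : ℂ | |z.im| < 1} := by
    have h1 : {z : ℂ | |z.im| < 1} = {z : ℂ | -1 < z.im} ∩ {z : ℂ | z.im < 1} := by
      ext z
      simp only [mem_setOf_eq, mem_inter_iff]
      exact abs_lt
    rw [h1]
    exact (convex_halfSpace_im_gt (-1)).inter (convex_halfSpace_im_lt 1)
  have hfa : AnalyticOnNhd ℂ f {z : ℂ | |z.im| < 1} := hf.analyticOnNhd hU
  have hga : AnalyticOnNhd ℂ g {z : ℂ | |z.im| < 1} := hg.analyticOnNhd hU
  have h0 : (0 : ℂ) ∈ {z : ℂ | |z.im| < 1} := by simp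
  have hT : Tendsto (fun n : ℕ => (((1 : ℝ) / ((n : ℝ) + 1) : ℝ) : ℂ)) atTop (𝓝[≠] (0 : ℂ)) := by
    rw [tendsto_nhdsWithin_iff]
    constructor
    · have h2 := tendsto_one_div_add_atTop_nhds_zero_nat (𝕜 := ℝ)
      have h3 := (Complex.continuous_ofReal.tendsto (0 : ℝ)).comp h2
      rw [Complex.ofReal_zero] at h3
      exact h3
    · refine Eventually.of_forall fun n => ?_
      have h4 : (0 : ℝ) < 1 / ((n : ℝ) + 1) := by positivity
      simp only [mem_compl_iff, mem_singleton_iff, ne_eq, Complex.ofReal_eq_zero]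
      exact h4.ne'
  have hfreq : ∃ᶠ z in 𝓝[≠] (0 : ℂ), f z = g z :=
    hT.frequently (Eventually.frequently (Eventually.of_forall fun n => h _))
  intro z hz
  exact hfa.eqOn_of_preconnected_of_frequently_eq hga hconv.isPreconnected h0 hfreq hz

end Pool.Dav
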