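import Pool.Agent.Helper458.Dav.Defs
import Pool.Agent.Helper458.Dav.P_ker_weight_diff
import Pool.Agent.Helper458.Dav.P_ker_mass
import Pool.Agent.Helper458.Dav.P_strip_identity

set_option autoImplicit false

open MeasureTheory Filter Topology Set Metric
open scoped Real ENNReal

namespace Pool.Dav



theorem moment0 (z : ℂ) (hz : |z.im| < 1) : ∫ s : ℝ, ker ((s : ℂ) - z) = 1 := by
  have hd := ker_weight_diff (fun _ => 1) continuous_const 1 (fun s => by
    rw [norm_one, one_mul]
    nlinarith [sq_nonneg s])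
  have hreal : ∀ x : ℝ, (∫ s : ℝ, (1 : ℂ) * ker ((s : ℂ) - (x : ℂ))) = 1 := by
    intro x
    have h1 : (fun s : ℝ => (1 : ℂ) * ker ((s : ℂ) - (x : ℂ))) =
        fun s : ℝ => (fun s : ℝ => ker ((s : ℝ) : ℂ)) (s - x) := by
      funext s
      rw [one_mul]
      simp only [Complex.ofReal_sub]
    rw [h1, integral_sub_right_eq_self (fun s : ℝ => ker ((s : ℝ) : ℂ)) x]
    have h2 : (fun s : ℝ => ker ((s : ℝ) : ℂ)) =
        fun s : ℝ => ((1 / (2 * Real.cosh (π * s / 2)) : ℝ) : ℂ) := by
      funext s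
      unfold ker
      push_cast
      rfl
    rw [h2, integral_complex_ofReal, ker_mass]
    simp
  have h := strip_identity (fun z : ℂ => ∫ s : ℝ, (1 : ℂ) * ker ((s : ℂ) - z)) (fun _ => 1) hd
    (differentiableOn_const _) hreal z hz
  simpa using h

end Pool.Dav
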