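import Pool.Agent.Helper458.Dav.Defs
import Pool.Agent.Helper458.Dav.P_ker_weight_int
import Pool.Agent.Helper458.Dav.P_ker_weight_diff
import Pool.Agent.Helper458.Dav.P_ker_mass
import Pool.Agent.Helper458.Dav.P_strip_identity

set_option autoImplicit false

open MeasureTheory Filter Topology Set Metric
open scoped Real ENNReal

namespace Pool.Dav



theorem moment1 (z : ℂ) (hz : |z.im| < 1) : ∫ s : ℝ, (s : ℂ) * ker ((s : ℂ) - z) = z := by
  have hφ1 : ∀ s : ℝ, ‖(s:ℂ)‖ ≤ 1 * (1 + s^2) := by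
    intro s
    rw [Complex.norm_real, Real.norm_eq_abs]
    nlinarith [abs_nonneg s, sq_abs s, sq_nonneg (|s| - 1)]
  refine strip_identity (fun z => ∫ s : ℝ, (s:ℂ) * ker ((s:ℂ) - z)) (fun z => z)
    (ker_weight_diff (fun s => (s:ℂ)) Complex.continuous_ofReal 1 hφ1) differentiableOn_id ?_ z hz
  intro x
  have i1 : Integrable (fun s : ℝ => (s:ℂ) * ker (s:ℂ)) := by
    simpa using ker_weight_int (fun s => (s:ℂ)) Complex.continuous_ofReal 1 hφ1 0 (by simp)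
  have i0 : Integrable (fun s : ℝ => ker (s:ℂ)) := by
    simpa using ker_weight_int (fun _ => (1:ℂ)) continuous_const 1
      (by intro s; rw [norm_one]; nlinarith [sq_nonneg s]) 0 (by simp)
  have e1 : ∫ s : ℝ, (s:ℂ) * ker ((s:ℂ) - x) = ∫ u : ℝ, ((u + x : ℝ):ℂ) * ker ((u : ℝ):ℂ) := by
    rw [← integral_sub_right_eq_self (fun u : ℝ => ((u + x : ℝ):ℂ) * ker ((u : ℝ):ℂ)) x]
    congr 1
    funext s
    push_cast
    ring_nf
  have hev : ∀ u : ℝ, ker ((-u : ℝ) : ℂ) = ker (u : ℂ) := by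
    intro u
    unfold ker
    rw [show (π : ℂ) * ((-u : ℝ) : ℂ) / 2 = -((π : ℂ) * (u : ℂ) / 2) by push_cast; ring,
      Complex.cosh_neg]
  have e2 : ∫ u : ℝ, (u:ℂ) * ker (u:ℂ) = 0 := by
    have h := integral_neg_eq_self (fun u : ℝ => (u:ℂ) * ker (u:ℂ)) volume
    have h2 : ∫ u : ℝ, ((-u : ℝ):ℂ) * ker ((-u : ℝ):ℂ) = - ∫ u : ℝ, (u:ℂ) * ker (u:ℂ) := by
      rw [← integral_neg]
      congr 1
      funext u
      rw [hev]
      push_cast
      ring
    rw [h2] at h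
    have h3 : (2:ℂ) * ∫ u : ℝ, (u:ℂ) * ker (u:ℂ) = 0 := by
      linear_combination -h
    simpa using h3
  have e3 : ∫ u : ℝ, ker (u:ℂ) = 1 := by
    have : ∀ u : ℝ, ker (u:ℂ) = ((1 / (2 * Real.cosh (π * u / 2)) : ℝ) : ℂ) := by
      intro u
      unfold ker
      push_cast
      rfl
    simp_rw [this]
    have h := integral_ofReal (𝕜 := ℂ) (μ := volume)
      (f := fun u : ℝ => 1 / (2 * Real.cosh (π * u / 2)))
    rw [ker_mass] at h
    exact h.trans (by simp)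
  change ∫ s : ℝ, (s:ℂ) * ker ((s:ℂ) - (x:ℂ)) = (x:ℂ)
  rw [e1]
  have e4 : ∀ u : ℝ, ((u + x : ℝ):ℂ) * ker ((u : ℝ):ℂ) = (u:ℂ) * ker (u:ℂ) + (x:ℂ) * ker (u:ℂ) := by
    intro u
    push_cast
    ring
  simp_rw [e4]
  rw [integral_add i1 (i0.const_mul _), e2, integral_const_mul, e3]
  ring

end Pool.Dav
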