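import Pool.Agent.Helper458.Dav.Defs

set_option autoImplicit false

open MeasureTheory Filter Topology Set Metric
open scoped Real ENNReal

namespace Pool.Dav



theorem ks_int (a : ℝ) (ha : 0 < a) :
    ∫ t in Ioi (0 : ℝ), t ^ 2 * Real.exp (-(a * t)) = 2 / a ^ 3 := by
  have h := Real.integral_rpow_mul_exp_neg_mul_Ioi (a := 3) (r := a) (by norm_num) ha
  have hG : Real.Gamma 3 = 2 := by
    have h := Real.Gamma_nat_eq_factorial 2
    have e3 : (((2 : ℕ) : ℝ) + 1) = 3 := by norm_num
    rw [e3] at h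
    rw [h]
    norm_num [Nat.factorial]
  rw [hG] at h
  have e : ∫ t in Ioi (0 : ℝ), t ^ 2 * Real.exp (-(a * t)) =
      ∫ t in Ioi (0 : ℝ), t ^ ((3 : ℝ) - 1) * Real.exp (-(a * t)) := by
    refine setIntegral_congr_fun measurableSet_Ioi fun t _ => ?_
    have : t ^ ((3 : ℝ) - 1) = t ^ 2 := by
      rw [show (3 : ℝ) - 1 = ((2 : ℕ) : ℝ) by norm_num, Real.rpow_natCast]
    rw [this]
  rw [e, h, show (3 : ℝ) = ((3 : ℕ) : ℝ) by norm_num, Real.rpow_natCast]
  rw [one_div, inv_pow]
  ring

theorem ks_integrable (a : ℝ) (ha : 0 < a) :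
    IntegrableOn (fun t : ℝ => t ^ 2 * Real.exp (-(a * t))) (Ioi 0) := by
  by_contra h
  have h1 := integral_undef h
  rw [ks_int a ha] at h1
  have : 0 < 2 / a ^ 3 := by positivity
  linarith

theorem ks_series : HasSum (fun k : ℕ => (-1 : ℝ) ^ k * (2 / ((2 * k + 1) * π / 2) ^ 3)) (1 / 2) := by
  have h := hasSum_L_function_mod_four_eval_three
  have hinj : Function.Injective fun k : ℕ => 2 * k + 1 := fun a b hab => by
    simp only at hab; omega
  have h2 := (Function.Injective.hasSum_iff hinj (f := fun n : ℕ => (1 : ℝ) / (n : ℝ) ^ 3 *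
    Real.sin (π * n / 2)) (a := π ^ 3 / 32) (by
      intro n hn
      have hev : Even n := by
        rw [← Nat.not_odd_iff_even]
        rintro ⟨k, hk⟩
        exact hn ⟨k, hk.symm⟩
      obtain ⟨j, hj⟩ := hev
      have : π * (n : ℝ) / 2 = (j : ℝ) * π := by rw [hj]; push_cast; ring
      rw [this, Real.sin_nat_mul_pi, mul_zero])).2 h
  have h3 := h2.mul_left (16 / π ^ 3)
  have e : 16 / π ^ 3 * (π ^ 3 / 32) = 1 / 2 := by
    have := Real.pi_pos.ne'
    field_simp
    norm_num
  rw [e] at h3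
  have hfun : (fun k : ℕ => (-1 : ℝ) ^ k * (2 / ((2 * k + 1) * π / 2) ^ 3)) =
      fun k : ℕ => 16 / π ^ 3 * ((fun n : ℕ => (1 : ℝ) / (n : ℝ) ^ 3 * Real.sin (π * n / 2)) ∘
        fun k : ℕ => 2 * k + 1) k := by
    funext k
    simp only [Function.comp]
    have h4 : π * ((2 * k + 1 : ℕ) : ℝ) / 2 = (k : ℝ) * π + π / 2 := by push_cast; ring
    rw [h4, Real.sin_add_pi_div_two, Real.cos_nat_mul_pi]
    have := Real.pi_pos.ne'
    have h5 : ((2 : ℝ) * k + 1) ≠ 0 := by positivity
    push_cast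
    field_simp
    ring
  rw [hfun]
  exact h3

theorem ker_second : ∫ s : ℝ, s ^ 2 / (2 * Real.cosh (π * s / 2)) = 1 := by
  have hpi := Real.pi_pos
  have e1 : ∫ s : ℝ, s ^ 2 / (2 * Real.cosh (π * s / 2)) =
      ∫ s : ℝ, |s| ^ 2 / (2 * Real.cosh (π * |s| / 2)) := by
    refine integral_congr_ae (Eventually.of_forall fun s => ?_)
    simp only []
    have : π * |s| / 2 = |π * s / 2| := by
      rw [abs_div, abs_mul, abs_of_pos hpi, abs_two]
    rw [this, Real.cosh_abs, sq_abs]
  rw [e1, integral_comp_abs (f := fun s => s ^ 2 / (2 * Real.cosh (π * s / 2)))]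
  let F : ℕ → ℝ → ℝ := fun k s => (-1) ^ k * (s ^ 2 * Real.exp (-((2 * k + 1) * π / 2 * s)))
  have hFi : ∀ k, Integrable (F k) (volume.restrict (Ioi 0)) := fun k =>
    (ks_integrable ((2 * k + 1) * π / 2) (by positivity)).const_mul _
  have hFn : ∀ k, ∫ s in Ioi (0 : ℝ), ‖F k s‖ = 2 / ((2 * k + 1) * π / 2) ^ 3 := by
    intro k
    rw [← ks_int ((2 * k + 1) * π / 2) (by positivity)]
    refine setIntegral_congr_fun measurableSet_Ioi fun s _ => ?_
    simp only [F]
    rw [norm_mul, norm_pow, norm_neg, norm_one, one_pow, one_mul,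
      Real.norm_of_nonneg (by positivity)]
  have hFs : Summable fun k => ∫ s in Ioi (0 : ℝ), ‖F k s‖ := by
    simp_rw [hFn]
    have := ks_series.summable.norm
    refine this.congr fun k => ?_
    rw [norm_mul, norm_pow, norm_neg, norm_one, one_pow, one_mul,
      Real.norm_of_nonneg (by positivity)]
  have hmain := hasSum_integral_of_summable_integral_norm hFi hFs
  have hval : ∀ k, ∫ s in Ioi (0 : ℝ), F k s = (-1 : ℝ) ^ k * (2 / ((2 * k + 1) * π / 2) ^ 3) := by
    intro k
    simp only [F]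
    rw [integral_const_mul, ks_int _ (by positivity)]
  simp_rw [hval] at hmain
  have h1 := hmain.unique ks_series
  have h2 : ∫ s in Ioi (0 : ℝ), s ^ 2 / (2 * Real.cosh (π * s / 2)) =
      ∫ s in Ioi (0 : ℝ), ∑' k, F k s := by
    refine setIntegral_congr_fun measurableSet_Ioi fun s hs => ?_
    have hs0 : 0 < s := hs
    simp only [F]
    set q := Real.exp (-(π * s / 2)) with hq
    have hq0 : 0 < q := Real.exp_pos _
    have hq1 : q < 1 := Real.exp_lt_one_iff.2 (by
      have : 0 < π * s / 2 := by positivity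
      linarith)
    have hterm : ∀ k : ℕ, (-1 : ℝ) ^ k * (s ^ 2 * Real.exp (-((2 * k + 1) * π / 2 * s))) =
        (s ^ 2 * q) * (-(q ^ 2)) ^ k := by
      intro k
      have : Real.exp (-((2 * k + 1) * π / 2 * s)) = q ^ (2 * k + 1) := by
        rw [hq, ← Real.exp_nat_mul]
        congr 1
        push_cast
        ring
      rw [this, pow_succ q (2 * k), pow_mul q 2 k, neg_pow (q ^ 2) k]
      ring
    have habs : |(-(q ^ 2))| < 1 := by
      rw [abs_neg, abs_of_pos (by positivity)]
      nlinarith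
    rw [tsum_congr hterm, tsum_mul_left, tsum_geometric_of_abs_lt_one habs]
    have hcosh : 2 * Real.cosh (π * s / 2) = q⁻¹ + q := by
      rw [Real.cosh_eq, hq, ← Real.exp_neg, neg_neg]
      ring
    rw [hcosh]
    have : q⁻¹ + q ≠ 0 := by positivity
    have h3 : 1 - -(q ^ 2) ≠ 0 := by
      have : 0 < 1 - -(q ^ 2) := by
        have : 0 < q ^ 2 := by positivity
        linarith
      exact this.ne'
    field_simp
    ring
  rw [h2, h1]
  norm_num

end Pool.Dav
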