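import Pool.Agent.Helper458.Dav.Defs
import Pool.Agent.Helper458.Dav.P_ker_weight_int
import Pool.Agent.Helper458.Dav.P_ker_weight_diff
import Pool.Agent.Helper458.Dav.P_ker_mass
import Pool.Agent.Helper458.Dav.P_ker_second
import Pool.Agent.Helper458.Dav.P_strip_identity

set_option autoImplicit false

open MeasureTheory Filter Topology Set Metric
open scoped Real ENNReal

namespace Pool.Dav



theorem mom2_ker (u : ℝ) : ker (u : ℂ) = ((1 / (2 * Real.cosh (π * u / 2)) : ℝ) : ℂ) := by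
  unfold ker
  push_cast
  rfl

theorem moment2 (z : ℂ) (hz : |z.im| < 1) :
    ∫ s : ℝ, (s : ℂ) ^ 2 * ker ((s : ℂ) - z) = z ^ 2 + 1 := by
  have hb : ∀ s : ℝ, ‖((s : ℂ)) ^ 2‖ ≤ 1 * (1 + s ^ 2) := by
    intro s
    rw [norm_pow, Complex.norm_real, Real.norm_eq_abs, sq_abs]
    linarith
  have hc2 : Continuous (fun s : ℝ => (s : ℂ) ^ 2) := by fun_prop
  have hc1 : Continuous (fun s : ℝ => (s : ℂ)) := by fun_prop
  refine strip_identity (fun z : ℂ => ∫ s : ℝ, (s : ℂ) ^ 2 * ker ((s : ℂ) - z))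
    (fun z => z ^ 2 + 1) (ker_weight_diff (fun s : ℝ => (s : ℂ) ^ 2) hc2 1 hb) ?_ ?_ z hz
  · fun_prop
  · intro x
    show ∫ s : ℝ, (s : ℂ) ^ 2 * ker ((s : ℂ) - x) = (x : ℂ) ^ 2 + 1
    have h0 : |(0 : ℂ).im| < 1 := by simp
    have I2 : Integrable (fun s : ℝ => (s : ℂ) ^ 2 * ker (s : ℂ)) := by
      have := ker_weight_int (fun s : ℝ => (s : ℂ) ^ 2) hc2 1 hb 0 h0
      simpa using this
    have I1 : Integrable (fun s : ℝ => (s : ℂ) * ker (s : ℂ)) := by
      have := ker_weight_int (fun s : ℝ => (s : ℂ)) hc1 1 (fun s => by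
        rw [Complex.norm_real, Real.norm_eq_abs]
        have := abs_nonneg s
        nlinarith [sq_abs s, sq_nonneg (|s| - 1)]) 0 h0
      simpa using this
    have I0 : Integrable (fun s : ℝ => ker (s : ℂ)) := by
      have := ker_weight_int (fun _ : ℝ => (1 : ℂ)) continuous_const 1 (fun s => by
        simp; positivity) 0 h0
      simpa using this
    have e : ∫ s : ℝ, (s : ℂ) ^ 2 * ker ((s : ℂ) - x)
        = ∫ u : ℝ, ((u : ℂ) + x) ^ 2 * ker (u : ℂ) := by
      have := integral_sub_right_eq_self (μ := volume)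
        (fun u : ℝ => ((u : ℂ) + x) ^ 2 * ker (u : ℂ)) x
      rw [← this]
      congr 1
      funext s
      push_cast
      congr 2
      ring
    rw [e]
    have e2 : (fun u : ℝ => ((u : ℂ) + x) ^ 2 * ker (u : ℂ))
        = fun u : ℝ => ((u : ℂ) ^ 2 * ker (u : ℂ) + (2 * x) * ((u : ℂ) * ker (u : ℂ)))
          + (x : ℂ) ^ 2 * ker (u : ℂ) := by
      funext u; ring
    have I12 : Integrable (fun u : ℝ => (u : ℂ) ^ 2 * ker (u : ℂ)
        + (2 * (x : ℂ)) * ((u : ℂ) * ker (u : ℂ))) := I2.add (I1.const_mul _)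
    have I0' : Integrable (fun u : ℝ => (x : ℂ) ^ 2 * ker (u : ℂ)) := I0.const_mul _
    rw [e2, integral_add I12 I0',
      integral_add I2 (I1.const_mul _), integral_const_mul, integral_const_mul]
    have m2 : ∫ s : ℝ, (s : ℂ) ^ 2 * ker (s : ℂ) = 1 := by
      have : (fun s : ℝ => (s : ℂ) ^ 2 * ker (s : ℂ))
          = fun s : ℝ => ((s ^ 2 / (2 * Real.cosh (π * s / 2)) : ℝ) : ℂ) := by
        funext s; rw [mom2_ker]; push_cast; ring
      rw [this, integral_complex_ofReal, ker_second]; simp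
    have m0 : ∫ s : ℝ, ker (s : ℂ) = 1 := by
      have : (fun s : ℝ => ker (s : ℂ))
          = fun s : ℝ => ((1 / (2 * Real.cosh (π * s / 2)) : ℝ) : ℂ) := by
        funext s; rw [mom2_ker]
      rw [this, integral_complex_ofReal, ker_mass]; simp
    have m1 : ∫ s : ℝ, (s : ℂ) * ker (s : ℂ) = 0 := by
      have h := integral_neg_eq_self (fun s : ℝ => (s : ℂ) * ker (s : ℂ)) volume
      have h2 : (fun s : ℝ => ((-s : ℝ) : ℂ) * ker ((-s : ℝ) : ℂ))
          = fun s : ℝ => -((s : ℂ) * ker (s : ℂ)) := by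
        funext s
        rw [mom2_ker, mom2_ker]
        have : π * -s / 2 = -(π * s / 2) := by ring
        rw [this, Real.cosh_neg]
        push_cast
        ring
      rw [h2, integral_neg] at h
      have : (2 : ℂ) * ∫ s : ℝ, (s : ℂ) * ker (s : ℂ) = 0 := by
        linear_combination -h
      simpa using this
    rw [m2, m1, m0]
    ring

end Pool.Dav
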