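import Pool.Agent.Helper458.Dav.Defs
import Pool.Agent.Helper458.Dav.P_ker_re_pos
import Pool.Agent.Helper458.Dav.P_ker_weight_int
import Pool.Agent.Helper458.Dav.P_moment0
import Pool.Agent.Helper458.Dav.P_moment1
import Pool.Agent.Helper458.Dav.P_moment2

set_option autoImplicit false

open MeasureTheory Filter Topology Set Metric
open scoped Real ENNReal

namespace Pool.Dav



theorem re_moment (ψ : ℝ → ℝ) (hψ : Continuous ψ) (hb : ∀ s, |ψ s| ≤ 1 * (1 + s ^ 2))
    (z : ℂ) (hz : |z.im| < 1) :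
    Integrable (fun s : ℝ => ψ s * (ker ((s : ℂ) - z)).re) ∧
      ∫ s : ℝ, ψ s * (ker ((s : ℂ) - z)).re = (∫ s : ℝ, (ψ s : ℂ) * ker ((s : ℂ) - z)).re := by
  have h1 := ker_weight_int (fun s => (ψ s : ℂ)) (Complex.continuous_ofReal.comp hψ) 1
    (fun s => by rw [Complex.norm_real, Real.norm_eq_abs]; exact hb s) z hz
  have h2 : ∀ s : ℝ, Complex.reCLM ((ψ s : ℂ) * ker ((s : ℂ) - z)) =
      ψ s * (ker ((s : ℂ) - z)).re := by
    intro s
    rw [Complex.reCLM_apply, Complex.re_ofReal_mul]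
  refine ⟨?_, ?_⟩
  · have := Complex.reCLM.integrable_comp h1
    simpa only [h2] using this
  · have := Complex.reCLM.integral_comp_comm h1
    simp only [h2] at this
    exact this

theorem G_bounds (z : ℂ) (hz : |z.im| < 1) :
    |z.re| ≤ (G z).re ∧ (G z).re ≤ √(1 + z.re ^ 2 - z.im ^ 2) := by
  have hpos : ∀ s : ℝ, 0 < (ker ((s : ℂ) - z)).re := by
    intro s
    apply ker_re_pos
    simpa using hz
  obtain ⟨i0, e0⟩ := re_moment (fun _ => 1) continuous_const
    (fun s => by rw [abs_one]; nlinarith [sq_nonneg s]) z hz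
  obtain ⟨i1, e1⟩ := re_moment (fun s => s) continuous_id
    (fun s => by rw [abs_le]; constructor <;> nlinarith [sq_nonneg (s - 1), sq_nonneg (s + 1)]) z hz
  obtain ⟨i2, e2⟩ := re_moment (fun s => s ^ 2) (continuous_pow 2)
    (fun s => by rw [abs_of_nonneg (sq_nonneg s)]; linarith) z hz
  obtain ⟨i3, e3⟩ := re_moment (fun s => |s|) continuous_abs
    (fun s => by
      rw [abs_abs, abs_le]
      constructor <;> nlinarith [sq_nonneg (s - 1), sq_nonneg (s + 1)]) z hz
  have f0 : ∫ s : ℝ, (ker ((s : ℂ) - z)).re = 1 := by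
    simp only [Complex.ofReal_one, one_mul] at e0
    rw [e0, moment0 z hz, Complex.one_re]
  have f1 : ∫ s : ℝ, s * (ker ((s : ℂ) - z)).re = z.re := by
    rw [e1, moment1 z hz]
  have f2 : ∫ s : ℝ, s ^ 2 * (ker ((s : ℂ) - z)).re = 1 + z.re ^ 2 - z.im ^ 2 := by
    rw [e2]
    push_cast
    rw [moment2 z hz]
    simp [pow_two]
    ring
  have f3 : ∫ s : ℝ, |s| * (ker ((s : ℂ) - z)).re = (G z).re := e3
  constructor
  · rw [← f1, ← f3]
    refine (abs_integral_le_integral_abs).trans (le_of_eq ?_)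
    refine integral_congr_ae (Eventually.of_forall fun s => ?_)
    show |s * (ker ((s : ℂ) - z)).re| = _
    rw [abs_mul, abs_of_pos (hpos s)]
  · refine (le_abs_self _).trans (Real.abs_le_sqrt ?_)
    set m : ℝ := (G z).re with hm
    have h1 : 0 ≤ ∫ s : ℝ, (|s| - m) ^ 2 * (ker ((s : ℂ) - z)).re :=
      integral_nonneg fun s => mul_nonneg (sq_nonneg _) (hpos s).le
    have h2 : ∫ s : ℝ, (|s| - m) ^ 2 * (ker ((s : ℂ) - z)).re =
        (∫ s : ℝ, s ^ 2 * (ker ((s : ℂ) - z)).re) -
          2 * m * (∫ s : ℝ, |s| * (ker ((s : ℂ) - z)).re) +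
          m ^ 2 * (∫ s : ℝ, (ker ((s : ℂ) - z)).re) := by
      have i0' : Integrable (fun s : ℝ => (ker ((s : ℂ) - z)).re) := by
        simpa only [one_mul] using i0
      have j1 : Integrable (fun s : ℝ => 2 * m * (|s| * (ker ((s : ℂ) - z)).re)) :=
        i3.const_mul _
      have j2 : Integrable (fun s : ℝ => s ^ 2 * (ker ((s : ℂ) - z)).re -
          2 * m * (|s| * (ker ((s : ℂ) - z)).re)) := i2.sub j1
      have j3 : Integrable (fun s : ℝ => m ^ 2 * (ker ((s : ℂ) - z)).re) := i0'.const_mul _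
      rw [← integral_const_mul, ← integral_const_mul, ← integral_sub i2 j1, ← integral_add j2 j3]
      refine integral_congr_ae (Eventually.of_forall fun s => ?_)
      have : |s| ^ 2 = s ^ 2 := sq_abs s
      simp only [← this]
      ring
    rw [h2, f2, f3, f0] at h1
    nlinarith

end Pool.Dav
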