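import Pool.Agent.Helper458.Dav.Defs
import Pool.Agent.Helper458.Dav.P_ker_weight_int

set_option autoImplicit false

open MeasureTheory Filter Topology Set Metric
open scoped Real ENNReal

namespace Pool.Dav



theorem G_re_eq (x y : ℝ) (hy : |y| < 1) :
    Integrable (fun u : ℝ => |u + x| * (ker ((u : ℂ) - y * Complex.I)).re) ∧
    (G (x + y * Complex.I)).re = ∫ u : ℝ, |u + x| * (ker ((u : ℂ) - y * Complex.I)).re := by
  have h : Integrable (fun u : ℝ => ((|u + x| : ℝ) : ℂ) * ker ((u : ℂ) - y * Complex.I)) := by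
    refine ker_weight_int (fun u : ℝ => ((|u + x| : ℝ) : ℂ)) (by fun_prop) (1 + |x|) ?_ _ (by simpa using hy)
    intro u
    rw [Complex.norm_real, Real.norm_eq_abs, abs_abs]
    have h1 := abs_add_le u x
    have h2 : |u| ≤ 1 + u ^ 2 := by
      rw [← sq_abs u]
      nlinarith [sq_nonneg (|u| - 1), abs_nonneg u]
    have h3 : |x| ≤ |x| * (1 + u ^ 2) := by
      nlinarith [mul_nonneg (abs_nonneg x) (sq_nonneg u)]
    linarith
  have hre : ∀ u : ℝ, (((|u + x| : ℝ) : ℂ) * ker ((u : ℂ) - y * Complex.I)).re =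
      |u + x| * (ker ((u : ℂ) - y * Complex.I)).re := fun u => Complex.re_ofReal_mul _ _
  refine ⟨?_, ?_⟩
  · have := h.re
    refine this.congr (Filter.Eventually.of_forall fun u => ?_)
    exact hre u
  · have h1 : G (x + y * Complex.I) =
        ∫ u : ℝ, ((|u + x| : ℝ) : ℂ) * ker ((u : ℂ) - y * Complex.I) := by
      unfold G
      rw [← integral_add_right_eq_self (fun s : ℝ => ((|s| : ℝ) : ℂ) *
        ker ((s : ℂ) - (x + y * Complex.I))) x]
      refine integral_congr_ae (Filter.Eventually.of_forall fun u => ?_)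
      show ((|u + x| : ℝ) : ℂ) * ker (((u + x : ℝ) : ℂ) - (x + y * Complex.I)) = _
      have : (((u + x : ℝ) : ℂ) - (x + y * Complex.I)) = (u : ℂ) - y * Complex.I := by
        push_cast
        ring
      rw [this]
    rw [h1]
    have h2 := integral_re h
    have h3 : (∫ u : ℝ, ((|u + x| : ℝ) : ℂ) * ker ((u : ℂ) - y * Complex.I)).re =
      ∫ u : ℝ, (((|u + x| : ℝ) : ℂ) * ker ((u : ℂ) - y * Complex.I)).re := h2.symm
    rw [h3]
    exact integral_congr_ae (Filter.Eventually.of_forall hre)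

end Pool.Dav
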