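import Pool.Agent.Helper458.Dav.Defs
import Pool.Agent.Helper458.Dav.P_ker_re_pos
import Pool.Agent.Helper458.Dav.P_ker_weight_int
import Pool.Agent.Helper458.Dav.P_moment0

set_option autoImplicit false

open MeasureTheory Filter Topology Set Metric
open scoped Real ENNReal

namespace Pool.Dav



theorem ker_density (y : ℝ) (hy : |y| < 1) :
    Integrable (fun u : ℝ => (ker ((u : ℂ) - y * Complex.I)).re) ∧
    (∫ u : ℝ, (ker ((u : ℂ) - y * Complex.I)).re) = 1 ∧
    (∀ u : ℝ, 0 < (ker ((u : ℂ) - y * Complex.I)).re) ∧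
    (∀ u : ℝ, (ker (((-u : ℝ) : ℂ) - y * Complex.I)).re = (ker ((u : ℂ) - y * Complex.I)).re) := by
  have him : ((y : ℂ) * Complex.I).im = y := by simp
  have hz : |((y : ℂ) * Complex.I).im| < 1 := by rw [him]; exact hy
  have hI : Integrable (fun s : ℝ => ker ((s : ℂ) - y * Complex.I)) := by
    have h := ker_weight_int (fun _ => 1) continuous_const 1
      (fun s => by rw [norm_one]; nlinarith [sq_nonneg s]) (y * Complex.I) hz
    simpa using h
  refine ⟨hI.re, ?_, ?_, ?_⟩
  · have h1 := moment0 (y * Complex.I) hz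
    have h2 : (∫ u : ℝ, (ker ((u : ℂ) - y * Complex.I)).re) =
        (∫ u : ℝ, ker ((u : ℂ) - y * Complex.I)).re := integral_re hI
    rw [h2, h1, Complex.one_re]
  · intro u
    apply ker_re_pos
    have : ((u : ℂ) - y * Complex.I).im = -y := by simp
    rw [this, abs_neg]
    exact hy
  · intro u
    have h1 : ker (((-u : ℝ) : ℂ) - y * Complex.I) =
        (starRingEnd ℂ) (ker ((u : ℂ) - y * Complex.I)) := by
      unfold ker
      rw [map_div₀, map_one, map_mul, ← Complex.cosh_conj, map_div₀, map_mul, map_sub, map_mul,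
        Complex.conj_I, Complex.conj_ofReal, Complex.conj_ofReal, Complex.conj_ofReal]
      have h2 : (starRingEnd ℂ) 2 = 2 := by
        exact Complex.conj_ofNat 2
      rw [h2]
      have h3 : (π : ℂ) * ((((-u : ℝ) : ℂ)) - y * Complex.I) / 2 =
          -((π : ℂ) * ((u : ℂ) - y * -Complex.I) / 2) := by
        push_cast; ring
      rw [h3, Complex.cosh_neg]
    rw [h1, Complex.conj_re]

end Pool.Dav
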