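import Pool.Agent.Helper458.Dav.Defs
import Pool.Agent.Helper458.Dav.P_ker_density
import Pool.Agent.Helper458.Dav.P_G_re_eq

set_option autoImplicit false

open MeasureTheory Filter Topology Set Metric
open scoped Real ENNReal

namespace Pool.Dav



theorem G_convex (y : ℝ) (hy : |y| < 1) :
    ConvexOn ℝ Set.univ (fun x : ℝ => (G (x + y * Complex.I)).re) := by
  refine ⟨convex_univ, ?_⟩
  intro x _ x' _ a b ha hb hab
  simp only [smul_eq_mul]
  obtain ⟨-, -, hpos, -⟩ := ker_density y hy
  obtain ⟨hi1, he1⟩ := G_re_eq x y hy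
  obtain ⟨hi2, he2⟩ := G_re_eq x' y hy
  obtain ⟨hi3, he3⟩ := G_re_eq (a * x + b * x') y hy
  show (G (((a * x + b * x' : ℝ) : ℂ) + y * Complex.I)).re ≤
    a * (G (x + y * Complex.I)).re + b * (G (x' + y * Complex.I)).re
  rw [he1, he2, he3, ← integral_const_mul, ← integral_const_mul,
    ← integral_add (hi1.const_mul a) (hi2.const_mul b)]
  apply integral_mono hi3 ((hi1.const_mul a).add (hi2.const_mul b))
  intro u
  have h1 : |u + (a * x + b * x')| ≤ a * |u + x| + b * |u + x'| := by
    have : u + (a * x + b * x') = a * (u + x) + b * (u + x') := by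
      have : u = (a + b) * u := by rw [hab, one_mul]
      linear_combination this
    rw [this]
    calc |a * (u + x) + b * (u + x')| ≤ |a * (u + x)| + |b * (u + x')| := abs_add_le _ _
      _ = a * |u + x| + b * |u + x'| := by
        rw [abs_mul, abs_mul, abs_of_nonneg ha, abs_of_nonneg hb]
  have h2 := mul_le_mul_of_nonneg_right h1 (hpos u).le
  calc _ ≤ _ := h2
    _ = _ := by simp only [Pi.add_apply]; ring

end Pool.Dav
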