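import Pool.Agent.Helper458.Dav.Defs
import Pool.Agent.Helper458.Dav.P_ker_weight_diff

set_option autoImplicit false

open MeasureTheory Filter Topology Set Metric
open scoped Real ENNReal

namespace Pool.Dav



theorem G_diff : DifferentiableOn ℂ G {z : ℂ | |z.im| < 1} := by
  have h := ker_weight_diff (fun s : ℝ => ((|s| : ℝ) : ℂ))
    (Complex.continuous_ofReal.comp continuous_abs) 1 (fun s => by
      rw [Complex.norm_real, Real.norm_eq_abs, abs_abs, one_mul]
      nlinarith [sq_nonneg (|s| - 1), sq_abs s, abs_nonneg s])
  exact h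

end Pool.Dav
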