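import Pool.Agent.Helper458.Dav.Defs
import Pool.Agent.Helper458.Dav.P_G_diff
import Pool.Agent.Helper458.Dav.P_G_convex

set_option autoImplicit false

open MeasureTheory Filter Topology Set Metric
open scoped Real ENNReal

namespace Pool.Dav



lemma re_hasDerivAt {F : ℝ → ℂ} {F' : ℂ} {x : ℝ} (h : HasDerivAt F F' x) :
    HasDerivAt (fun t => (F t).re) F'.re x :=
  (Complex.reCLM.hasFDerivAt.comp_hasDerivAt x h)

lemma strip_open : IsOpen {z : ℂ | |z.im| < 1} :=
  isOpen_lt (continuous_abs.comp Complex.continuous_im) continuous_const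

lemma G_hasDerivAt {z : ℂ} (hz : |z.im| < 1) : HasDerivAt G (deriv G z) z :=
  ((G_diff z hz).differentiableAt (strip_open.mem_nhds hz)).hasDerivAt

lemma dG_hasDerivAt {z : ℂ} (hz : |z.im| < 1) : HasDerivAt (deriv G) (deriv (deriv G) z) z :=
  (((G_diff.deriv strip_open) z hz).differentiableAt (strip_open.mem_nhds hz)).hasDerivAt

lemma comp_horiz {F : ℂ → ℂ} {F' : ℂ} {x y : ℝ} (h : HasDerivAt F F' (x + y * Complex.I)) :
    HasDerivAt (fun t : ℝ => F (t + y * Complex.I)) F' x := by
  have h1 : HasDerivAt (fun t : ℝ => (t : ℂ) + y * Complex.I) 1 x := by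
    simpa using (Complex.ofRealCLM.hasDerivAt (x := x)).add_const (y * Complex.I)
  have h2 := HasDerivAt.comp x h h1
  rw [mul_one] at h2
  exact h2

lemma comp_vert {F : ℂ → ℂ} {F' : ℂ} {y : ℝ} (h : HasDerivAt F F' (y * Complex.I)) :
    HasDerivAt (fun t : ℝ => F (t * Complex.I)) (F' * Complex.I) y := by
  have h1 : HasDerivAt (fun t : ℝ => (t : ℂ) * Complex.I) Complex.I y := by
    simpa using (Complex.ofRealCLM.hasDerivAt (x := y)).mul_const Complex.I
  exact HasDerivAt.comp y h h1

lemma G_second_nonneg (y : ℝ) (hy : |y| < 1) :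
    0 ≤ (deriv (deriv G) (y * Complex.I)).re := by
  have him : ∀ x : ℝ, |((x : ℂ) + y * Complex.I).im| < 1 := by
    intro x; simpa using hy
  have h1 : ∀ x : ℝ, HasDerivAt (fun t : ℝ => (G (t + y * Complex.I)).re)
      (deriv G (x + y * Complex.I)).re x := fun x =>
    re_hasDerivAt (comp_horiz (G_hasDerivAt (him x)))
  have hmono : Monotone (fun x : ℝ => (deriv G (x + y * Complex.I)).re) := by
    have h2 := (G_convex y hy).monotoneOn_deriv
      (fun x _ => (h1 x).differentiableAt)
    intro a b hab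
    have := h2 (mem_univ a) (mem_univ b) hab
    rwa [(h1 a).deriv, (h1 b).deriv] at this
  have h3 : HasDerivAt (fun x : ℝ => (deriv G (x + y * Complex.I)).re)
      (deriv (deriv G) ((0 : ℝ) + y * Complex.I)).re 0 :=
    re_hasDerivAt (comp_horiz (dG_hasDerivAt (him 0)))
  have h4 := hmono.deriv_nonneg (x := 0)
  rw [h3.deriv] at h4
  simpa using h4

theorem G_concave : ConcaveOn ℝ (Set.Ioo (-1) 1) (fun y : ℝ => (G (y * Complex.I)).re) := by
  have him : ∀ y ∈ Set.Ioo (-1 : ℝ) 1, |((y : ℂ) * Complex.I).im| < 1 := by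
    intro y hy
    simpa using abs_lt.2 hy
  have h1 : ∀ y ∈ Set.Ioo (-1 : ℝ) 1, HasDerivAt (fun t : ℝ => (G (t * Complex.I)).re)
      (deriv G (y * Complex.I) * Complex.I).re y := fun y hy =>
    re_hasDerivAt (comp_vert (G_hasDerivAt (him y hy)))
  have h2 : ∀ y ∈ Set.Ioo (-1 : ℝ) 1, HasDerivAt
      (fun t : ℝ => (deriv G (t * Complex.I) * Complex.I).re)
      (deriv (deriv G) (y * Complex.I) * Complex.I * Complex.I).re y := fun y hy =>
    re_hasDerivAt ((comp_vert (dG_hasDerivAt (him y hy))).mul_const Complex.I)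
  refine concaveOn_of_hasDerivWithinAt2_nonpos (convex_Ioo _ _)
    (f' := fun t : ℝ => (deriv G (t * Complex.I) * Complex.I).re)
    (f'' := fun t : ℝ => (deriv (deriv G) (t * Complex.I) * Complex.I * Complex.I).re)
    (fun y hy => (h1 y hy).continuousAt.continuousWithinAt) ?_ ?_ ?_
  · intro y hy
    rw [interior_Ioo] at hy ⊢
    exact (h1 y hy).hasDerivWithinAt
  · intro y hy
    rw [interior_Ioo] at hy ⊢
    exact (h2 y hy).hasDerivWithinAt
  · intro y hy
    rw [interior_Ioo] at hy
    have h5 := G_second_nonneg y (abs_lt.2 hy)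
    rw [mul_assoc, Complex.I_mul_I]
    simpa using h5

end Pool.Dav
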