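import Pool.Agent.Helper458.Dav.Defs

set_option autoImplicit false

open MeasureTheory Filter Topology Set Metric
open scoped Real ENNReal

namespace Pool.Dav



theorem G_conj (z : ℂ) : G ((starRingEnd ℂ) z) = (starRingEnd ℂ) (G z) := by
  have h2 : (starRingEnd ℂ) 2 = 2 := map_ofNat _ 2
  unfold G
  rw [← integral_conj]
  congr 1
  ext s
  rw [map_mul, Complex.conj_ofReal]
  congr 1
  unfold ker
  rw [map_div₀, map_one, map_mul, ← Complex.cosh_conj, map_div₀, map_mul, map_sub,
    Complex.conj_ofReal, Complex.conj_ofReal, h2]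

end Pool.Dav
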