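import Pool.Agent.Helper458.Dav.Defs

set_option autoImplicit false

open MeasureTheory Filter Topology Set Metric
open scoped Real ENNReal

namespace Pool.Dav



theorem G_even_ker (z : ℂ) : ker (-z) = ker z := by
  unfold ker
  have : (π : ℂ) * (-z) / 2 = -((π : ℂ) * z / 2) := by ring
  rw [this, Complex.cosh_neg]

theorem G_even (z : ℂ) : G (-z) = G z := by
  unfold G
  rw [← integral_neg_eq_self]
  congr 1
  funext s
  have h : (((-s : ℝ) : ℂ) - -z) = -((s : ℂ) - z) := by push_cast; ring
  rw [h, G_even_ker, abs_neg]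

end Pool.Dav
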