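import Pool.Agent.Helper458.Dav.Defs
import Pool.Agent.Helper458.Dav.P_ker_density
import Pool.Agent.Helper458.Dav.P_G_re_eq

set_option autoImplicit false

open MeasureTheory Filter Topology Set Metric
open scoped Real ENNReal

namespace Pool.Dav



theorem G_line (x y : ℝ) (hy : |y| < 1) :
    (G (y * Complex.I)).re ≤ (G (x + y * Complex.I)).re ∧
    (G (x + y * Complex.I)).re ≤ |x| + (G (y * Complex.I)).re := by
  obtain ⟨hκi, hκ1, hκp, hκe⟩ := ker_density y hy
  obtain ⟨i1, e1⟩ := G_re_eq x y hy
  obtain ⟨i2, e2⟩ := G_re_eq (-x) y hy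
  obtain ⟨i0, e0⟩ := G_re_eq 0 y hy
  have hz : ((0 : ℝ) : ℂ) + y * Complex.I = y * Complex.I := by simp
  rw [hz] at e0
  have h1 : ∫ u : ℝ, |u + x| * (ker ((u : ℂ) - y * Complex.I)).re =
      ∫ u : ℝ, |u + -x| * (ker ((u : ℂ) - y * Complex.I)).re := by
    rw [← integral_neg_eq_self (fun u : ℝ => |u + x| * (ker ((u : ℂ) - y * Complex.I)).re)]
    congr 1
    funext u
    rw [hκe u]
    congr 1
    rw [← abs_neg]
    congr 1
    ring
  rw [e1, e0]
  constructor
  · have h2 : ∫ u : ℝ, 2 * (|u + 0| * (ker ((u : ℂ) - y * Complex.I)).re) ≤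
        ∫ u : ℝ, (|u + x| * (ker ((u : ℂ) - y * Complex.I)).re +
          |u + -x| * (ker ((u : ℂ) - y * Complex.I)).re) := by
      refine integral_mono (i0.const_mul 2) (i1.add i2) fun u => ?_
      have h3 : 2 * |u + 0| ≤ |u + x| + |u + -x| := by
        have h4 := abs_add_le (u + x) (u + -x)
        have h5 : u + x + (u + -x) = 2 * (u + 0) := by ring
        rw [h5, abs_mul, abs_two] at h4
        exact h4
      have h6 := mul_le_mul_of_nonneg_right h3 (hκp u).le
      simp only [Pi.add_apply]
      linarith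
    rw [integral_const_mul, integral_add i1 i2, ← h1] at h2
    linarith
  · have h2 : ∫ u : ℝ, |u + x| * (ker ((u : ℂ) - y * Complex.I)).re ≤
        ∫ u : ℝ, (|x| * (ker ((u : ℂ) - y * Complex.I)).re +
          |u + 0| * (ker ((u : ℂ) - y * Complex.I)).re) := by
      refine integral_mono i1 ((hκi.const_mul |x|).add i0) fun u => ?_
      have h3 : |u + x| ≤ |x| + |u + 0| := by
        rw [add_zero, add_comm |x|]
        exact abs_add_le _ _
      have h6 := mul_le_mul_of_nonneg_right h3 (hκp u).le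
      simp only [Pi.add_apply]
      linarith
    rw [integral_add (hκi.const_mul |x|) i0, integral_const_mul, hκ1, mul_one] at h2
    exact h2

end Pool.Dav
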