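import Pool.Agent.Helper458.Dav.Defs

set_option autoImplicit false

open MeasureTheory Filter Topology Set Metric
open scoped Real ENNReal

namespace Pool.Dav



theorem G_zero : G 0 = (U0 : ℂ) := by
  unfold G U0
  rw [← integral_complex_ofReal]
  congr 1
  funext s
  unfold ker
  push_cast
  rw [sub_zero]
  ring

end Pool.Dav
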