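import Pool.Agent.Helper458.Dav.Defs
import Pool.Agent.Helper458.Dav.P_G_bounds
import Pool.Agent.Helper458.Dav.P_G_even
import Pool.Agent.Helper458.Dav.P_G_zero
import Pool.Agent.Helper458.Dav.P_G_concave

set_option autoImplicit false

open MeasureTheory Filter Topology Set Metric
open scoped Real ENNReal

namespace Pool.Dav



theorem G_vert (y : ℝ) (hy : |y| < 1) :
    U0 * (1 - |y|) ≤ (G (y * Complex.I)).re ∧ (G (y * Complex.I)).re ≤ U0 := by
  have h0 : (G (((0 : ℝ) : ℂ) * Complex.I)).re = U0 := by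
    have : ((0 : ℝ) : ℂ) * Complex.I = 0 := by simp
    rw [this, G_zero, Complex.ofReal_re]
  have hev : ∀ t : ℝ, (G (((-t : ℝ) : ℂ) * Complex.I)).re = (G ((t : ℂ) * Complex.I)).re := by
    intro t
    have : (((-t : ℝ) : ℂ)) * Complex.I = -((t : ℂ) * Complex.I) := by
      push_cast; ring
    rw [this, G_even]
  have hnn : ∀ t : ℝ, |t| < 1 → 0 ≤ (G ((t : ℂ) * Complex.I)).re := by
    intro t ht
    have h1 := (G_bounds ((t : ℂ) * Complex.I) (by simpa using ht)).1
    exact (abs_nonneg _).trans h1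
  have hU : 0 ≤ U0 := by
    rw [← h0]; exact hnn 0 (by simp)
  have hmem : ∀ t : ℝ, |t| < 1 → t ∈ Set.Ioo (-1 : ℝ) 1 := fun t ht => abs_lt.mp ht
  have hconc := G_concave.2
  have habs : (G ((|y| : ℝ) * Complex.I)).re = (G ((y : ℂ) * Complex.I)).re := by
    rcases abs_choice y with h | h
    · rw [h]
    · rw [h]; exact hev y
  constructor
  · rw [← habs]
    have hlim : Tendsto (fun t : ℝ => (1 - |y| / t) * U0) (𝓝[<] (1 : ℝ)) (𝓝 ((1 - |y| / 1) * U0)) := by
      have hc : ContinuousAt (fun t : ℝ => (1 - |y| / t) * U0) 1 := by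
        refine ContinuousAt.mul (ContinuousAt.sub continuousAt_const
          (ContinuousAt.div continuousAt_const continuousAt_id (by norm_num))) continuousAt_const
      exact hc.tendsto.mono_left nhdsWithin_le_nhds
    have hle : (1 - |y| / 1) * U0 ≤ (G ((|y| : ℝ) * Complex.I)).re := by
      refine le_of_tendsto hlim ?_
      have h1 : ∀ᶠ t : ℝ in 𝓝[<] (1 : ℝ), |y| < t := by
        exact (eventually_nhdsWithin_of_eventually_nhds (eventually_gt_nhds hy))
      have h2 : ∀ᶠ t : ℝ in 𝓝[<] (1 : ℝ), t < 1 := eventually_mem_nhdsWithin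
      filter_upwards [h1, h2] with t ht1 ht2
      have ht0 : 0 < t := lt_of_le_of_lt (abs_nonneg y) ht1
      have hta : |t| < 1 := by rw [abs_of_pos ht0]; exact ht2
      have ha : 0 ≤ 1 - |y| / t := by
        rw [sub_nonneg, div_le_one ht0]; exact ht1.le
      have hb : 0 ≤ |y| / t := by positivity
      have h3 := hconc (hmem 0 (by simp)) (hmem t hta) ha hb (by ring)
      have h4 : (1 - |y| / t) • (0 : ℝ) + (|y| / t) • t = |y| := by
        simp only [smul_eq_mul, mul_zero, zero_add]
        field_simp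
      simp only [smul_eq_mul] at h3 h4
      rw [h4, h0] at h3
      have h5 : 0 ≤ |y| / t * (G ((t : ℂ) * Complex.I)).re := mul_nonneg hb (hnn t hta)
      linarith
    rw [div_one] at hle
    linarith
  · have hyn : |-y| < 1 := by rwa [abs_neg]
    have h3 := hconc (hmem y hy) (hmem (-y) hyn) (a := 1 / 2) (b := 1 / 2) (by norm_num)
      (by norm_num) (by norm_num)
    have h4 : (1 / 2 : ℝ) • y + (1 / 2 : ℝ) • (-y) = 0 := by
      simp only [smul_eq_mul]; ring
    simp only [smul_eq_mul] at h3 h4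
    rw [h4, h0, hev] at h3
    linarith

end Pool.Dav
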