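import Pool.Agent.Helper458.Dav.Defs

set_option autoImplicit false

open MeasureTheory Filter Topology Set Metric
open scoped Real ENNReal

namespace Pool.Dav



theorem J_diff : DifferentiableOn ℂ J {z : ℂ | 0 < z.im} := by
  intro z hz
  have hz' : 0 < z.im := hz
  have h1 : z - 1 ∈ Complex.slitPlane := by
    rw [Complex.mem_slitPlane_iff]; right
    simp only [Complex.sub_im, Complex.one_im, sub_zero]
    exact hz'.ne'
  have h2 : z + 1 ∈ Complex.slitPlane := by
    rw [Complex.mem_slitPlane_iff]; right
    simp only [Complex.add_im, Complex.one_im, add_zero]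
    exact hz'.ne'
  have e1 : DifferentiableAt ℂ (fun w : ℂ => (w - 1) ^ (1 / 2 : ℂ)) z :=
    (differentiableAt_id.sub_const 1).cpow_const h1
  have e2 : DifferentiableAt ℂ (fun w : ℂ => (w + 1) ^ (1 / 2 : ℂ)) z :=
    (differentiableAt_id.add_const 1).cpow_const h2
  have e3 : DifferentiableAt ℂ J z := by
    unfold J
    exact differentiableAt_id.sub (e1.mul e2)
  exact e3.differentiableWithinAt

end Pool.Dav
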