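import Pool.Agent.Helper458.Dav.Defs

set_option autoImplicit false

open MeasureTheory Filter Topology Set Metric
open scoped Real ENNReal

namespace Pool.Dav



theorem sqrt_aux (w : ℂ) (hw : 0 < w.im) : (w ^ (1 / 2 : ℂ)) ^ 2 = w ∧ 0 < (w ^ (1 / 2 : ℂ)).re ∧
    0 < (w ^ (1 / 2 : ℂ)).im := by
  have hw0 : w ≠ 0 := by
    intro h
    rw [h] at hw
    simp at hw
  have harg0 : 0 < w.arg := by
    have h1 : 0 ≤ w.arg := Complex.arg_nonneg_iff.2 hw.le
    rcases h1.lt_or_eq with h | h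
    · exact h
    · exfalso
      have := (Complex.arg_eq_zero_iff (z := w)).1 h.symm
      linarith [this.2]
  have hargpi : w.arg < π := by
    rw [Complex.arg_lt_pi_iff]
    right
    exact hw.ne'
  have h2 : (w ^ (1 / 2 : ℂ)) = Complex.exp (Complex.log w * (1 / 2)) := Complex.cpow_def_of_ne_zero hw0 _
  have him : (Complex.log w * (1 / 2)).im = w.arg / 2 := by
    have : (Complex.log w * (1 / 2)) = Complex.log w / 2 := by ring
    rw [this, show (2 : ℂ) = ((2 : ℝ) : ℂ) by norm_num, Complex.div_ofReal_im, Complex.log_im]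
  refine ⟨?_, ?_, ?_⟩
  · rw [h2, ← Complex.exp_nat_mul]
    have : ((2 : ℕ) : ℂ) * (Complex.log w * (1 / 2)) = Complex.log w := by
      push_cast
      ring
    rw [this, Complex.exp_log hw0]
  · rw [h2, Complex.exp_re, him]
    apply mul_pos (Real.exp_pos _)
    apply Real.cos_pos_of_mem_Ioo
    constructor <;> linarith [Real.pi_pos]
  · rw [h2, Complex.exp_im, him]
    apply mul_pos (Real.exp_pos _)
    apply Real.sin_pos_of_pos_of_lt_pi <;> linarith [Real.pi_pos]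

theorem J_norm (z : ℂ) (hz : 0 < z.im) : 0 < ‖J z‖ ∧ ‖J z‖ < 1 ∧
    ‖J z‖ + ‖J z‖⁻¹ = ‖z - 1‖ + ‖z + 1‖ ∧ ‖J z‖ * ‖z‖ ≤ 1 := by
  obtain ⟨a1, a2, a3⟩ := sqrt_aux (z - 1) (by simpa using hz)
  obtain ⟨b1, b2, b3⟩ := sqrt_aux (z + 1) (by simpa using hz)
  have hJ : J z = z - (z - 1) ^ (1 / 2 : ℂ) * (z + 1) ^ (1 / 2 : ℂ) := rfl
  generalize (z - 1) ^ (1 / 2 : ℂ) = a at *
  generalize (z + 1) ^ (1 / 2 : ℂ) = b at *
  have hz2 : z = (a ^ 2 + b ^ 2) / 2 := by rw [a1, b1]; ring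
  have hJ1 : J z = (a - b) ^ 2 / 2 := by rw [hJ, hz2]; ring
  set K : ℂ := (a + b) ^ 2 / 2 with hK
  have hJK : J z * K = 1 := by
    have h1 : J z * K = ((a ^ 2 - b ^ 2) / 2) ^ 2 := by rw [hJ1, hK]; ring
    rw [h1, a1, b1]
    ring
  have nJ : ‖J z‖ = ((a.re - b.re) ^ 2 + (a.im - b.im) ^ 2) / 2 := by
    rw [hJ1, norm_div, norm_pow, Complex.sq_norm, Complex.normSq_apply]
    simp
    ring
  have nK : ‖K‖ = ((a.re + b.re) ^ 2 + (a.im + b.im) ^ 2) / 2 := by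
    rw [hK, norm_div, norm_pow, Complex.sq_norm, Complex.normSq_apply]
    simp
    ring
  have nJK : ‖J z‖ * ‖K‖ = 1 := by rw [← norm_mul, hJK, norm_one]
  have hJpos : 0 < ‖J z‖ := by
    rcases (norm_nonneg (J z)).lt_or_eq with h | h
    · exact h
    · exfalso
      rw [← h] at nJK
      simp at nJK
  have hlt : ‖J z‖ < ‖K‖ := by
    rw [nJ, nK]
    nlinarith [mul_pos a2 b2, mul_pos a3 b3]
  have hinv : ‖J z‖⁻¹ = ‖K‖ := by
    rw [inv_eq_iff_eq_inv]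
    exact eq_inv_of_mul_eq_one_left nJK
  have hJlt : ‖J z‖ < 1 := by
    by_contra hcon
    push Not at hcon
    nlinarith
  refine ⟨hJpos, hJlt, ?_, ?_⟩
  · rw [hinv, nJ, nK]
    have n1 : ‖z - 1‖ = a.re ^ 2 + a.im ^ 2 := by
      rw [← a1, norm_pow, Complex.sq_norm, Complex.normSq_apply]
      ring
    have n2 : ‖z + 1‖ = b.re ^ 2 + b.im ^ 2 := by
      rw [← b1, norm_pow, Complex.sq_norm, Complex.normSq_apply]
      ring
    rw [n1, n2]
    ring
  · have h2z : 2 * z = J z + K := by rw [hJ1, hK, hz2]; ring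
    have h2 : 2 * ‖z‖ ≤ ‖J z‖ + ‖K‖ := by
      have : ‖2 * z‖ ≤ ‖J z‖ + ‖K‖ := by rw [h2z]; exact norm_add_le _ _
      simpa using this
    nlinarith

end Pool.Dav
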