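import Pool.Agent.Helper458.Dav.Defs
import Pool.Agent.Helper458.Dav.P_J_norm

set_option autoImplicit false

open MeasureTheory Filter Topology Set Metric
open scoped Real ENNReal

namespace Pool.Dav



theorem sum_norm_lower (w : ℂ) : 4 + 4 * w.im ^ 2 ≤ (‖w - 1‖ + ‖w + 1‖) ^ 2 := by
  have h1 : ‖(w + 1) + (starRingEnd ℂ) (1 - w)‖ ≤ ‖w + 1‖ + ‖(starRingEnd ℂ) (1 - w)‖ :=
    norm_add_le _ _
  have h2 : ‖(starRingEnd ℂ) (1 - w)‖ = ‖w - 1‖ := by
    rw [RCLike.norm_conj, norm_sub_rev]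
  rw [h2] at h1
  have h3 : ‖(w + 1) + (starRingEnd ℂ) (1 - w)‖ ^ 2 = 4 + 4 * w.im ^ 2 := by
    rw [← Complex.normSq_eq_norm_sq, Complex.normSq_apply]
    simp
    ring
  rw [← h3]
  have h4 : ‖(w + 1) + (starRingEnd ℂ) (1 - w)‖ ≤ ‖w - 1‖ + ‖w + 1‖ := by linarith
  exact pow_le_pow_left₀ (norm_nonneg _) h4 2

theorem J_unif (δ : ℝ) (hδ : 0 < δ) :
    ∃ q : ℝ, q < 1 ∧ ∀ z : ℂ, 0 ≤ z.im → ‖J (z + δ * Complex.I)‖ ≤ q := by
  have hs2 : √(1 + δ ^ 2) ^ 2 = 1 + δ ^ 2 := Real.sq_sqrt (by positivity)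
  have hs0 : 0 ≤ √(1 + δ ^ 2) := Real.sqrt_nonneg _
  have hs1 : 1 ≤ √(1 + δ ^ 2) := by
    rw [Real.one_le_sqrt]
    nlinarith [sq_nonneg δ]
  refine ⟨√(1 + δ ^ 2) - δ, ?_, ?_⟩
  · have : √(1 + δ ^ 2) < 1 + δ := by
      rw [Real.sqrt_lt' (by linarith)]
      nlinarith
    linarith
  · intro z hz
    have him : (z + δ * Complex.I).im = z.im + δ := by simp
    have hpos : 0 < (z + δ * Complex.I).im := by rw [him]; linarith
    obtain ⟨h1, h2, h3, -⟩ := J_norm (z + δ * Complex.I) hpos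
    have h4 := sum_norm_lower (z + δ * Complex.I)
    rw [← h3, him] at h4
    set t := ‖J (z + δ * Complex.I)‖ with ht
    set s := √(1 + δ ^ 2) with hs
    have h5 : 2 * s ≤ t + t⁻¹ := by
      have h6 : (2 * s) ^ 2 ≤ (t + t⁻¹) ^ 2 := by
        refine le_trans ?_ h4
        nlinarith
      have h7 : 0 ≤ t + t⁻¹ := by positivity
      exact (pow_le_pow_iff_left₀ (by positivity) h7 two_ne_zero).mp h6
    have h8 : 2 * s * t ≤ t ^ 2 + 1 := by
      have h9 := mul_le_mul_of_nonneg_right h5 h1.le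
      have h10 : (t + t⁻¹) * t = t ^ 2 + 1 := by
        field_simp
      rw [h10] at h9
      exact h9
    have h11 : δ ^ 2 ≤ (s - t) ^ 2 := by nlinarith
    have h12 : 0 ≤ s - t := by linarith
    have h13 : δ ≤ s - t := (pow_le_pow_iff_left₀ hδ.le h12 two_ne_zero).mp h11
    linarith

end Pool.Dav
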