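import Pool.Agent.Helper458.Dav.Defs

set_option autoImplicit false

open MeasureTheory Filter Topology Set Metric
open scoped Real ENNReal

namespace Pool.Dav



theorem Phi_basic (b : ℂ) (hb : ‖b‖ < 1) : |(Phi b).im| < 1 ∧
    ‖Phi b‖ ≤ (4 / π) * (‖b‖ / (1 - ‖b‖)) ∧ DifferentiableAt ℂ Phi b := by
  have hre : |b.re| ≤ ‖b‖ := Complex.abs_re_le_norm b
  have hre1 := (abs_le.1 hre).1
  have hre2 := (abs_le.1 hre).2
  have hp : 0 < (1 + b).re := by
    rw [Complex.add_re, Complex.one_re]; linarith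
  have hq : 0 < (1 - b).re := by
    rw [Complex.sub_re, Complex.one_re]; linarith
  have hp0 : 1 + b ≠ 0 := by
    intro h; rw [h] at hp; simp at hp
  have hq0 : 1 - b ≠ 0 := by
    intro h; rw [h] at hq; simp at hq
  have hπ := Real.pi_pos
  have hb0 := norm_nonneg b
  refine ⟨?_, ?_, ?_⟩
  · obtain ⟨θ, hθ⟩ : ∃ θ, θ = Complex.arg (1 + b) - Complex.arg (1 - b) := ⟨_, rfl⟩
    have e1 : (Phi b).im = (2 / π) * θ := by
      unfold Phi
      have e2 : ((2 : ℂ) / π) = ((2 / π : ℝ) : ℂ) := by push_cast; rfl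
      rw [e2, Complex.im_ofReal_mul, Complex.sub_im, Complex.log_im, Complex.log_im, hθ]
    have h1 : |Complex.arg (1 + b)| < π / 2 := Complex.abs_arg_lt_pi_div_two_iff.2 (Or.inl hp)
    have h2 : |Complex.arg (1 - b)| < π / 2 := Complex.abs_arg_lt_pi_div_two_iff.2 (Or.inl hq)
    have h3 : |θ| < π := by
      rw [hθ, abs_lt]
      rw [abs_lt] at h1 h2
      constructor <;> linarith
    have hcos : 0 < Real.cos θ := by
      rw [hθ, Real.cos_sub, Complex.cos_arg hp0, Complex.cos_arg hq0, Complex.sin_arg,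
        Complex.sin_arg]
      have hnp : 0 < ‖1 + b‖ := norm_pos_iff.2 hp0
      have hnq : 0 < ‖1 - b‖ := norm_pos_iff.2 hq0
      have e3 : (1 + b).re / ‖1 + b‖ * ((1 - b).re / ‖1 - b‖) +
          (1 + b).im / ‖1 + b‖ * ((1 - b).im / ‖1 - b‖) =
          ((1 + b).re * (1 - b).re + (1 + b).im * (1 - b).im) / (‖1 + b‖ * ‖1 - b‖) := by
        field_simp
      rw [e3]
      apply div_pos _ (mul_pos hnp hnq)
      have e4 : (1 + b).re * (1 - b).re + (1 + b).im * (1 - b).im = 1 - ‖b‖ ^ 2 := by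
        rw [← Complex.normSq_eq_norm_sq, Complex.normSq_apply]
        simp only [Complex.add_re, Complex.sub_re, Complex.add_im, Complex.sub_im, Complex.one_re,
          Complex.one_im]
        ring
      rw [e4]
      nlinarith
    have h4 : |θ| < π / 2 := by
      by_contra hc
      push Not at hc
      have h5 : Real.cos |θ| ≤ 0 := Real.cos_nonpos_of_pi_div_two_le_of_le hc (by linarith)
      rw [Real.cos_abs] at h5
      linarith
    rw [e1, abs_mul, abs_of_pos (by positivity)]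
    calc 2 / π * |θ| < 2 / π * (π / 2) := mul_lt_mul_of_pos_left h4 (by positivity)
      _ = 1 := by field_simp
  · have key : ∀ z : ℂ, ‖z‖ = ‖b‖ → ‖Complex.log (1 + z)‖ ≤ ‖b‖ / (1 - ‖b‖) := by
      intro z hz
      have h1 := Complex.norm_log_one_add_le (z := z) (by rw [hz]; exact hb)
      rw [hz] at h1
      refine h1.trans ?_
      have h2 : 0 < 1 - ‖b‖ := by linarith
      rw [le_div_iff₀ h2]
      have e : (‖b‖ ^ 2 * (1 - ‖b‖)⁻¹ / 2 + ‖b‖) * (1 - ‖b‖) = ‖b‖ ^ 2 / 2 + ‖b‖ * (1 - ‖b‖) := by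
        field_simp
      rw [e]
      nlinarith [sq_nonneg ‖b‖]
    have h1 := key b rfl
    have h2 := key (-b) (norm_neg b)
    rw [← sub_eq_add_neg] at h2
    unfold Phi
    have e2 : ((2 : ℂ) / π) = ((2 / π : ℝ) : ℂ) := by push_cast; rfl
    rw [norm_mul, e2, Complex.norm_real, Real.norm_of_nonneg (by positivity)]
    have h3 := (norm_sub_le (Complex.log (1 + b)) (Complex.log (1 - b))).trans (add_le_add h1 h2)
    calc 2 / π * ‖Complex.log (1 + b) - Complex.log (1 - b)‖
        ≤ 2 / π * (‖b‖ / (1 - ‖b‖) + ‖b‖ / (1 - ‖b‖)) :=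
          mul_le_mul_of_nonneg_left h3 (by positivity)
      _ = _ := by ring
  · unfold Phi
    have d1 : DifferentiableAt ℂ (fun b : ℂ => 1 + b) b := by fun_prop
    have d2 : DifferentiableAt ℂ (fun b : ℂ => 1 - b) b := by fun_prop
    exact ((d1.clog (Or.inl hp)).sub (d2.clog (Or.inl hq))).const_mul _

end Pool.Dav
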