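import Pool.Agent.Helper458.Dav.Defs
import Pool.Agent.Helper458.Dav.P_J_norm
import Pool.Agent.Helper458.Dav.P_J_diff
import Pool.Agent.Helper458.Dav.P_J_unif
import Pool.Agent.Helper458.Dav.P_Phi_basic

set_option autoImplicit false

open MeasureTheory Filter Topology Set Metric
open scoped Real ENNReal

namespace Pool.Dav



theorem Gm_props_im (δ : ℝ) (z : ℂ) : (z + δ * Complex.I).im = z.im + δ := by
  simp

theorem Gm_props_norm (δ : ℝ) (hδ : 0 < δ) (z : ℂ) (hz : 0 ≤ z.im) : ‖z‖ ^ 2 ≤ ‖z + δ * Complex.I‖ ^ 2 := by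
  rw [Complex.sq_norm, Complex.sq_norm, Complex.normSq_apply, Complex.normSq_apply, Gm_props_im]
  have : (z + δ * Complex.I).re = z.re := by simp
  rw [this]
  nlinarith [mul_nonneg hz hδ.le]

theorem Gm_props (m : ℕ) (hm : 2 ≤ m) (δ : ℝ) (hδ : 0 < δ) :
    DifferentiableOn ℂ (Gm m δ) {z : ℂ | -δ < z.im} ∧
    (∀ z : ℂ, -δ < z.im → |(Gm m δ z).im| < 1) ∧
    ∃ C : ℝ, ∀ z : ℂ, 0 ≤ z.im → ‖Gm m δ z‖ ≤ C / (1 + ‖z‖ ^ 2) := by
  have hm0 : m ≠ 0 := by omega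
  have hlt : ∀ z : ℂ, -δ < z.im → ‖J (z + δ * Complex.I) ^ m‖ < 1 := by
    intro z hz
    rw [norm_pow]
    have h := J_norm (z + δ * Complex.I) (by rw [Gm_props_im]; linarith)
    exact pow_lt_one₀ (norm_nonneg _) h.2.1 hm0
  refine ⟨?_, ?_, ?_⟩
  · intro z hz
    apply DifferentiableAt.differentiableWithinAt
    have hz' : -δ < z.im := hz
    have h1 : DifferentiableAt ℂ Phi (J (z + δ * Complex.I) ^ m) := (Phi_basic _ (hlt z hz')).2.2
    have hopen : IsOpen {z : ℂ | 0 < z.im} := isOpen_lt continuous_const Complex.continuous_im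
    have h2 : DifferentiableAt ℂ J (z + δ * Complex.I) := by
      apply (J_diff _ _).differentiableAt (hopen.mem_nhds _)
      · show 0 < (z + δ * Complex.I).im
        rw [Gm_props_im]; linarith
      · show 0 < (z + δ * Complex.I).im
        rw [Gm_props_im]; linarith
    have h3 : DifferentiableAt ℂ (fun z : ℂ => z + δ * Complex.I) z := by fun_prop
    have h4 : DifferentiableAt ℂ (fun z : ℂ => J (z + δ * Complex.I)) z :=
      DifferentiableAt.comp (f := fun z : ℂ => z + δ * Complex.I) z h2 h3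
    have h5 : DifferentiableAt ℂ (fun z : ℂ => J (z + δ * Complex.I) ^ m) z := h4.pow m
    exact DifferentiableAt.comp (f := fun z : ℂ => J (z + δ * Complex.I) ^ m) z h1 h5
  · intro z hz
    exact (Phi_basic _ (hlt z hz)).1
  · obtain ⟨q, hq1, hq⟩ := J_unif δ hδ
    refine ⟨(4 / π) * (2 / (1 - q)), fun z hz => ?_⟩
    obtain ⟨hρ0, hρ1, -, hρw⟩ := J_norm (z + δ * Complex.I) (by rw [Gm_props_im]; linarith)
    have hρq := hq z hz
    have hb := (Phi_basic _ (hlt z (by linarith))).2.1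
    rw [norm_pow] at hb
    have hn := Gm_props_norm δ hδ z hz
    unfold Gm
    obtain ⟨ρ, hρ⟩ : ∃ ρ, ρ = ‖J (z + δ * Complex.I)‖ := ⟨_, rfl⟩
    rw [← hρ] at hρ0 hρ1 hρw hρq hb
    have hpow : ρ ^ m ≤ ρ ^ 2 := pow_le_pow_of_le_one hρ0.le hρ1.le hm
    have hpow1 : ρ ^ m ≤ ρ := by
      calc ρ ^ m ≤ ρ ^ 1 := pow_le_pow_of_le_one hρ0.le hρ1.le (by omega)
        _ = ρ := pow_one ρ
    have hpos : 0 ≤ ρ ^ m := by positivity
    have h1q : 0 < 1 - q := by linarith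
    have hpi := Real.pi_pos
    have e1 : ρ ^ m / (1 - ρ ^ m) ≤ ρ ^ 2 / (1 - q) := by
      apply div_le_div₀ (by positivity) hpow h1q (by linarith)
    have e2 : ρ ^ 2 ≤ 2 / (1 + ‖z‖ ^ 2) := by
      rw [le_div_iff₀ (by positivity)]
      have e3 : ρ ^ 2 * ‖z‖ ^ 2 ≤ ρ ^ 2 * ‖z + δ * Complex.I‖ ^ 2 :=
        mul_le_mul_of_nonneg_left hn (by positivity)
      have e4 : ρ ^ 2 * ‖z + δ * Complex.I‖ ^ 2 ≤ 1 := by
        rw [← mul_pow]
        exact pow_le_one₀ (by positivity) hρw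
      have e5 : ρ ^ 2 ≤ 1 := pow_le_one₀ hρ0.le hρ1.le
      nlinarith
    calc ‖Phi (J (z + δ * Complex.I) ^ m)‖ ≤ 4 / π * (ρ ^ m / (1 - ρ ^ m)) := hb
      _ ≤ 4 / π * (ρ ^ 2 / (1 - q)) := mul_le_mul_of_nonneg_left e1 (by positivity)
      _ ≤ 4 / π * ((2 / (1 + ‖z‖ ^ 2)) / (1 - q)) := by
          apply mul_le_mul_of_nonneg_left _ (by positivity)
          exact div_le_div_of_nonneg_right e2 h1q.le
      _ = 4 / π * (2 / (1 - q)) / (1 + ‖z‖ ^ 2) := by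
          field_simp

end Pool.Dav
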