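import Pool.Agent.Helper458.Dav.Defs
import Pool.Agent.Helper458.Dav.P_J_norm

set_option autoImplicit false

open MeasureTheory Filter Topology Set Metric
open scoped Real ENNReal

namespace Pool.Dav



theorem J_real_le (x δ : ℝ) (hx : 1 < |x|) (hδ : 0 < δ) :
    ‖J ((x : ℂ) + δ * Complex.I)‖ ≤ rr x := by
  have hz : 0 < ((x : ℂ) + δ * Complex.I).im := by simp [hδ]
  obtain ⟨h0, h1, h2, -⟩ := J_norm _ hz
  set t := ‖J ((x : ℂ) + δ * Complex.I)‖ with ht
  have ha : |x - 1| ≤ ‖(x : ℂ) + δ * Complex.I - 1‖ := by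
    have := Complex.abs_re_le_norm ((x : ℂ) + δ * Complex.I - 1)
    simpa using this
  have hb : |x + 1| ≤ ‖(x : ℂ) + δ * Complex.I + 1‖ := by
    have := Complex.abs_re_le_norm ((x : ℂ) + δ * Complex.I + 1)
    simpa using this
  have hc : 2 * |x| ≤ |x - 1| + |x + 1| := by
    have : |2 * x| ≤ |x - 1| + |x + 1| := by
      have := abs_add_le (x - 1) (x + 1)
      have h : x - 1 + (x + 1) = 2 * x := by ring
      rwa [h] at this
    rwa [abs_mul, abs_two] at this
  have hd : 2 * |x| * t ≤ t ^ 2 + 1 := by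
    have : (t + t⁻¹) * t = t ^ 2 + 1 := by field_simp
    rw [← this]
    exact mul_le_mul_of_nonneg_right (by linarith) h0.le
  have he : √(x ^ 2 - 1) ≤ |x| - t := by
    apply Real.sqrt_le_iff.mpr
    refine ⟨by linarith, ?_⟩
    nlinarith [sq_abs x]
  unfold rr
  linarith

end Pool.Dav
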