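import Pool.Agent.Helper458.Dav.Defs
import Pool.Agent.Helper458.Dav.P_J_norm
import Pool.Agent.Helper458.Dav.P_J_real_le
import Pool.Agent.Helper458.Dav.P_Phi_basic

set_option autoImplicit false

open MeasureTheory Filter Topology Set Metric
open scoped Real ENNReal

namespace Pool.Dav



theorem rr_lt_one (x : ℝ) (hx : 1 < |x|) : rr x < 1 := by
  unfold rr
  have h1 : |x| - 1 < √(x ^ 2 - 1) := by
    apply Real.lt_sqrt_of_sq_lt
    rw [← sq_abs x]
    nlinarith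
  linarith

theorem Gm_tail (m : ℕ) (hm : 2 ≤ m) (δ : ℝ) (hδ : 0 < δ) (x : ℝ) (hx : 1 < |x|) :
    ‖Gm m δ x‖ ≤ (4 / π) * (rr x ^ m / (1 - rr x)) := by
  have him : 0 < ((x : ℂ) + δ * Complex.I).im := by
    simpa using hδ
  obtain ⟨h1, h2, _, _⟩ := J_norm _ him
  have h3 := J_real_le x δ hx hδ
  have h4 := rr_lt_one x hx
  unfold Gm
  obtain ⟨t, ht⟩ : ∃ t, t = ‖J ((x : ℂ) + δ * Complex.I)‖ := ⟨_, rfl⟩
  rw [← ht] at h1 h2 h3
  have hb : ‖J ((x : ℂ) + δ * Complex.I) ^ m‖ = t ^ m := by rw [norm_pow, ← ht]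
  have h5 : t ^ m < 1 := pow_lt_one₀ h1.le h2 (by omega)
  have h6 := (Phi_basic (J ((x : ℂ) + δ * Complex.I) ^ m) (by rw [hb]; exact h5)).2.1
  rw [hb] at h6
  refine h6.trans ?_
  apply mul_le_mul_of_nonneg_left _ (by positivity)
  apply div_le_div₀
  · exact pow_nonneg (h1.le.trans h3) m
  · exact pow_le_pow_left₀ h1.le h3 m
  · linarith
  · have h7 : t ^ m ≤ t := pow_le_of_le_one h1.le h2.le (by omega)
    linarith

end Pool.Dav
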