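import Pool.Agent.Helper458.Dav.Defs
import Pool.Agent.Helper458.Dav.P_GS

set_option autoImplicit false

open MeasureTheory Filter Topology Set Metric
open scoped Real ENNReal

namespace Pool.Dav



/-- the parametrized circle `iR - iR e^{is/R}` -/
noncomputable def HPz (R s : ℝ) : ℂ := circleMap ((R : ℂ) * Complex.I) R (s / R - π / 2)

theorem HPz_re (R s : ℝ) : (HPz R s).re = R * Real.sin (s / R) := by
  unfold HPz circleMap
  rw [Complex.exp_mul_I, ← Complex.ofReal_cos, ← Complex.ofReal_sin, Real.cos_sub_pi_div_two,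
    Real.sin_sub_pi_div_two]
  simp only [Complex.add_re, Complex.mul_re, Complex.add_im, Complex.mul_im, Complex.ofReal_re,
    Complex.ofReal_im, Complex.I_re, Complex.I_im]
  ring

theorem HPz_im (R s : ℝ) : (HPz R s).im = R * (1 - Real.cos (s / R)) := by
  unfold HPz circleMap
  rw [Complex.exp_mul_I, ← Complex.ofReal_cos, ← Complex.ofReal_sin, Real.cos_sub_pi_div_two,
    Real.sin_sub_pi_div_two]
  simp only [Complex.add_re, Complex.mul_re, Complex.add_im, Complex.mul_im, Complex.ofReal_re,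
    Complex.ofReal_im, Complex.I_re, Complex.I_im]
  ring

theorem HPz_cos (u : ℝ) (hu : |u| ≤ π) : (2 / π) ^ 2 * u ^ 2 ≤ 2 * (1 - Real.cos u) := by
  have hpi := Real.pi_pos
  have h1 : 1 - Real.cos u = 2 * Real.sin (u / 2) ^ 2 := by
    have h2 := Real.cos_sq_add_sin_sq (u / 2)
    have h3 := Real.cos_two_mul (u / 2)
    have h4 : 2 * (u / 2) = u := by ring
    rw [h4] at h3
    rw [h3]
    linarith
  have h5 : 2 / π * (|u| / 2) ≤ Real.sin (|u| / 2) :=
    Real.mul_le_sin (by positivity) (by linarith)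
  have h6 : Real.sin (|u| / 2) ^ 2 = Real.sin (u / 2) ^ 2 := by
    rcases abs_cases u with ⟨h, _⟩ | ⟨h, _⟩
    · rw [h]
    · rw [h, neg_div, Real.sin_neg, neg_sq]
  have h7 : (2 / π * (|u| / 2)) ^ 2 ≤ Real.sin (|u| / 2) ^ 2 :=
    pow_le_pow_left₀ (by positivity) h5 2
  rw [h1, ← h6]
  have h8 : (2 / π) ^ 2 * u ^ 2 = 4 * (2 / π * (|u| / 2)) ^ 2 := by
    rw [mul_pow, div_pow |u|, sq_abs]
    ring
  rw [h8]
  linarith

theorem HPz_norm (R s : ℝ) (hR : 0 < R) (hs : |s| ≤ π * R) :
    (2 / π * s) ^ 2 ≤ ‖HPz R s‖ ^ 2 := by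
  have h1 : ‖HPz R s‖ ^ 2 = R ^ 2 * (2 * (1 - Real.cos (s / R))) := by
    rw [← Complex.normSq_eq_norm_sq, Complex.normSq_apply, HPz_re, HPz_im]
    have := Real.cos_sq_add_sin_sq (s / R)
    nlinarith
  have h2 := HPz_cos (s / R) (by
    rw [abs_div, abs_of_pos hR, div_le_iff₀ hR]
    exact hs)
  rw [h1]
  calc (2 / π * s) ^ 2 = R ^ 2 * ((2 / π) ^ 2 * (s / R) ^ 2) := by
        field_simp
    _ ≤ _ := by gcongr

theorem HPz_cont (R : ℝ) : Continuous (HPz R) := by
  unfold HPz
  exact (continuous_circleMap _ _).comp (by fun_prop)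

theorem HPz_tendsto (s : ℝ) :
    Tendsto (fun n : ℕ => HPz ((n : ℝ) + 1) s) atTop (𝓝 (s : ℂ)) := by
  rw [tendsto_iff_norm_sub_tendsto_zero]
  have hb : ∀ᶠ n : ℕ in atTop, ‖HPz ((n : ℝ) + 1) s - s‖ ≤ s ^ 2 * (1 / ((n : ℝ) + 1)) := by
    filter_upwards [eventually_ge_atTop ⌈|s|⌉₊] with n hn
    have hn1 : |s| ≤ n := (Nat.le_ceil _).trans (by exact_mod_cast hn)
    set R : ℝ := (n : ℝ) + 1 with hR
    have hR0 : 0 < R := by positivity
    have hRC : (R : ℂ) ≠ 0 := by exact_mod_cast hR0.ne'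
    set w : ℂ := ((s / R : ℝ) : ℂ) * Complex.I with hw
    have hwn : ‖w‖ = |s| / R := by
      rw [hw, norm_mul, Complex.norm_I, mul_one, Complex.norm_real, Real.norm_eq_abs, abs_div,
        abs_of_pos hR0]
    have hw1 : ‖w‖ ≤ 1 := by
      rw [hwn, div_le_one hR0]
      linarith
    have h1 := Complex.norm_exp_sub_one_sub_id_le hw1
    have h2 : HPz R s - s = -(R : ℂ) * Complex.I * (Complex.exp w - 1 - w) := by
      unfold HPz circleMap
      have h3 : ((s / R - π / 2 : ℝ) : ℂ) * Complex.I = w - (π / 2 : ℂ) * Complex.I := by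
        rw [hw]
        push_cast
        ring
      rw [h3, Complex.exp_sub]
      have h4 : Complex.exp ((π / 2 : ℂ) * Complex.I) = Complex.I := by
        rw [Complex.exp_mul_I]
        simp
      have h5 : (R : ℂ) * Complex.I * w = -(s : ℂ) := by
        rw [hw]
        push_cast
        have : (R : ℂ) * Complex.I * ((s : ℂ) / (R : ℂ) * Complex.I)
            = (s : ℂ) * (Complex.I * Complex.I) := by
          field_simp
        rw [this, Complex.I_mul_I]
        ring
      rw [h4, div_eq_mul_inv, Complex.inv_I]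
      calc (R : ℂ) * Complex.I + (R : ℂ) * (Complex.exp w * -Complex.I) - (s : ℂ)
          = -(R : ℂ) * Complex.I * (Complex.exp w - 1 - w) + (-(s : ℂ) - (R : ℂ) * Complex.I * w) := by
            ring
        _ = _ := by rw [h5]; ring
    rw [h2, norm_mul, norm_mul, norm_neg, Complex.norm_I, mul_one, Complex.norm_real,
      Real.norm_of_nonneg hR0.le]
    calc R * ‖Complex.exp w - 1 - w‖ ≤ R * ‖w‖ ^ 2 := by gcongr
      _ = s ^ 2 * (1 / R) := by
          rw [hwn, div_pow, sq_abs]
          field_simp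
  have ht : Tendsto (fun n : ℕ => s ^ 2 * (1 / ((n : ℝ) + 1))) atTop (𝓝 0) := by
    have := (tendsto_one_div_add_atTop_nhds_zero_nat (𝕜 := ℝ)).const_mul (s ^ 2)
    simpa using this
  exact squeeze_zero' (Eventually.of_forall fun n => norm_nonneg _) hb ht

theorem HP_int (h : ℂ → ℝ) (R : ℝ) (hR : 0 < R) :
    ∫ s in (-(π * R))..(π * R), h (HPz R s) =
      2 * π * R * Real.circleAverage h ((R : ℂ) * Complex.I) R := by
  have hpi := Real.pi_pos
  have h1 : ∫ s in (-(π * R))..(π * R), h (HPz R s) =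
      R * ∫ θ in (-(π * R) / R - π / 2)..(π * R / R - π / 2),
        h (circleMap ((R : ℂ) * Complex.I) R θ) := by
    have := intervalIntegral.integral_comp_div_sub (a := -(π * R)) (b := π * R)
      (fun θ => h (circleMap ((R : ℂ) * Complex.I) R θ)) hR.ne' (π / 2)
    rw [smul_eq_mul] at this
    exact this
  have h2 : Function.Periodic (fun θ => h (circleMap ((R : ℂ) * Complex.I) R θ)) (2 * π) := by
    intro θ
    simp only
    rw [periodic_circleMap]
  have h3 := h2.intervalIntegral_add_eq (-(π * R) / R - π / 2) 0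
  have h4 : -(π * R) / R - π / 2 + 2 * π = π * R / R - π / 2 := by
    field_simp
    ring
  rw [h4, zero_add] at h3
  rw [h1, h3, Real.circleAverage_def, smul_eq_mul]
  field_simp

theorem HP (h : ℂ → ℝ) (C : ℝ) (hc : ContinuousOn h {z : ℂ | 0 ≤ z.im})
    (hb : ∀ z : ℂ, 0 ≤ z.im → |h z| ≤ C / (1 + ‖z‖ ^ 2)) (hs : ∀ z : ℂ, 0 < z.im → SubAt h z) :
    0 ≤ ∫ x : ℝ, h x := by
  have hpi := Real.pi_pos
  have hC : 0 ≤ C := by
    have h1 := hb 0 (by simp)
    simp only [norm_zero] at h1
    have h2 := abs_nonneg (h 0)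
    have h3 : C / (1 + 0 ^ 2) = C := by norm_num
    rw [h3] at h1
    linarith
  have him : ∀ (n : ℕ) (s : ℝ), 0 ≤ (HPz ((n : ℝ) + 1) s).im := by
    intro n s
    rw [HPz_im]
    have := Real.cos_le_one (s / ((n : ℝ) + 1))
    apply mul_nonneg (by positivity)
    linarith
  set F : ℕ → ℝ → ℝ := fun n => (Ioc (-(π * ((n : ℝ) + 1))) (π * ((n : ℝ) + 1))).indicator
    (fun s => h (HPz ((n : ℝ) + 1) s)) with hF
  have hlim : Tendsto (fun n => ∫ s, F n s) atTop (𝓝 (∫ s : ℝ, h s)) := by
    refine tendsto_integral_of_dominated_convergence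
      (fun s => C * (1 + (2 / π * s) ^ 2)⁻¹) ?_ ?_ ?_ ?_
    · intro n
      have h1 : Continuous (fun s => h (HPz ((n : ℝ) + 1) s)) :=
        hc.comp_continuous (HPz_cont _) (him n)
      exact (h1.measurable.indicator measurableSet_Ioc).aestronglyMeasurable
    · exact (integrable_inv_one_add_sq.comp_mul_left'
        (g := fun x : ℝ => (1 + x ^ 2)⁻¹) (R := 2 / π) (by positivity)).const_mul C
    · intro n
      refine Eventually.of_forall fun s => ?_
      simp only [hF]
      by_cases hsn : s ∈ Ioc (-(π * ((n : ℝ) + 1))) (π * ((n : ℝ) + 1))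
      · rw [indicator_of_mem hsn, Real.norm_eq_abs]
        refine (hb _ (him n s)).trans ?_
        rw [div_eq_mul_inv]
        apply mul_le_mul_of_nonneg_left _ hC
        have h2 := HPz_norm ((n : ℝ) + 1) s (by positivity)
          (abs_le.2 ⟨hsn.1.le, hsn.2⟩)
        apply inv_anti₀ (by positivity)
        linarith
      · rw [indicator_of_notMem hsn, norm_zero]
        positivity
    · refine Eventually.of_forall fun s => ?_
      have h1 : ∀ᶠ n : ℕ in atTop, h (HPz ((n : ℝ) + 1) s) = F n s := by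
        filter_upwards [eventually_ge_atTop ⌈|s|⌉₊] with n hn
        have hn1 : |s| ≤ n := (Nat.le_ceil _).trans (by exact_mod_cast hn)
        have hn2 : |s| < π * ((n : ℝ) + 1) := by
          have := Real.pi_gt_three
          nlinarith [Nat.cast_nonneg (α := ℝ) n]
        rw [abs_lt] at hn2
        simp only [hF]
        rw [indicator_of_mem (show s ∈ Ioc (-(π * ((n : ℝ) + 1))) (π * ((n : ℝ) + 1)) from
          ⟨hn2.1, hn2.2.le⟩)]
      refine Tendsto.congr' h1 ?_
      have h2 : ContinuousWithinAt h {z : ℂ | 0 ≤ z.im} (s : ℂ) := hc _ (by simp)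
      have h3 : Tendsto (fun n : ℕ => HPz ((n : ℝ) + 1) s) atTop
          (𝓝[{z : ℂ | 0 ≤ z.im}] (s : ℂ)) :=
        tendsto_nhdsWithin_iff.2 ⟨HPz_tendsto s, Eventually.of_forall fun n => him n s⟩
      exact Tendsto.comp h2 h3
  have hlow : ∀ n : ℕ, -(2 * π * C) * (1 / ((n : ℝ) + 1)) ≤ ∫ s, F n s := by
    intro n
    set R : ℝ := (n : ℝ) + 1 with hR
    have hR0 : 0 < R := by positivity
    have h1 : ∫ s, F n s = ∫ s in (-(π * R))..(π * R), h (HPz R s) := by
      rw [intervalIntegral.integral_of_le (by nlinarith), ← integral_indicator measurableSet_Ioc]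
    rw [h1, HP_int h R hR0]
    have hcR : ((R : ℂ) * Complex.I).im = R := by simp
    have h2 := GS h ((R : ℂ) * Complex.I) R hR0
      (hc.mono (by
        intro z hz
        rw [mem_closedBall, dist_eq_norm] at hz
        have h3 := (Complex.abs_im_le_norm (z - (R : ℂ) * Complex.I)).trans hz
        rw [Complex.sub_im, hcR, abs_le] at h3
        show 0 ≤ z.im
        linarith [h3.1]))
      (by
        intro z hz
        apply hs
        rw [mem_ball, dist_eq_norm] at hz
        have h3 := (Complex.abs_im_le_norm (z - (R : ℂ) * Complex.I)).trans_lt hz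
        rw [Complex.sub_im, hcR, abs_lt] at h3
        linarith [h3.1])
    have h3 := hb ((R : ℂ) * Complex.I) (by rw [hcR]; exact hR0.le)
    have h4 : ‖(R : ℂ) * Complex.I‖ = R := by
      rw [norm_mul, Complex.norm_I, mul_one, Complex.norm_real, Real.norm_of_nonneg hR0.le]
    rw [h4] at h3
    have h5 : -(C / (1 + R ^ 2)) ≤ h ((R : ℂ) * Complex.I) := (abs_le.1 h3).1
    have h6 : C / (1 + R ^ 2) ≤ C / R ^ 2 := by
      apply div_le_div_of_nonneg_left hC (by positivity)
      linarith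
    have h7 : -(C / R ^ 2) ≤ Real.circleAverage h ((R : ℂ) * Complex.I) R := by linarith
    calc -(2 * π * C) * (1 / R) = 2 * π * R * (-(C / R ^ 2)) := by
          field_simp
      _ ≤ _ := by gcongr
  have hz : Tendsto (fun n : ℕ => -(2 * π * C) * (1 / ((n : ℝ) + 1))) atTop (𝓝 0) := by
    have := (tendsto_one_div_add_atTop_nhds_zero_nat (𝕜 := ℝ)).const_mul (-(2 * π * C))
    simpa using this
  exact le_of_tendsto_of_tendsto' hz hlim hlow

end Pool.Dav
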