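import Pool.Agent.Helper458.Dav.Defs
import Pool.Agent.Helper458.Dav.P_G_even

set_option autoImplicit false

open MeasureTheory Filter Topology Set Metric
open scoped Real ENNReal

namespace Pool.Dav



theorem V_sq (z : ℂ) : V (z ^ 2) = if |z.im| < 1 then (G z).re else |z.re| := by
  have h1 : ((z ^ 2) ^ (1 / 2 : ℂ)) ^ 2 = z ^ 2 := by
    have := Complex.cpow_nat_inv_pow (z ^ 2) (n := 2) (by norm_num)
    have e : ((2 : ℕ) : ℂ)⁻¹ = (1 / 2 : ℂ) := by norm_num
    rw [e] at this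
    exact this
  have h2 : (z ^ 2) ^ (1 / 2 : ℂ) = z ∨ (z ^ 2) ^ (1 / 2 : ℂ) = -z := sq_eq_sq_iff_eq_or_eq_neg.mp h1
  unfold V
  rcases h2 with h | h
  · rw [h]
  · rw [h, Complex.neg_im, Complex.neg_re, abs_neg, abs_neg, G_even]

end Pool.Dav
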