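import Pool.Agent.Helper458.Dav.Defs
import Pool.Agent.Helper458.Dav.P_G_conj
import Pool.Agent.Helper458.Dav.P_V_sq

set_option autoImplicit false

open MeasureTheory Filter Topology Set Metric
open scoped Real ENNReal

namespace Pool.Dav



theorem V_rho (w : ℂ) : V w = if √((‖w‖ - w.re) / 2) < 1
    then (G (((√((‖w‖ + w.re) / 2) : ℝ) : ℂ) + ((√((‖w‖ - w.re) / 2) : ℝ) : ℂ) * Complex.I)).re
    else √((‖w‖ + w.re) / 2) := by
  have hre := abs_le.1 (Complex.abs_re_le_norm w)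
  set a : ℝ := √((‖w‖ + w.re) / 2) with ha
  set b : ℝ := √((‖w‖ - w.re) / 2) with hb
  have ha0 : 0 ≤ a := Real.sqrt_nonneg _
  have hb0 : 0 ≤ b := Real.sqrt_nonneg _
  have ha2 : a ^ 2 = (‖w‖ + w.re) / 2 := Real.sq_sqrt (by linarith)
  have hb2 : b ^ 2 = (‖w‖ - w.re) / 2 := Real.sq_sqrt (by linarith)
  have hw2 : ‖w‖ ^ 2 = w.re ^ 2 + w.im ^ 2 := by
    rw [← Complex.normSq_eq_norm_sq, Complex.normSq_apply]; ring
  have hab : (2 * (a * b)) ^ 2 = w.im ^ 2 := by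
    have e1 : (2 * (a * b)) ^ 2 = 4 * (a ^ 2 * b ^ 2) := by ring
    rw [e1, ha2, hb2]
    nlinarith
  have hab' : 2 * (a * b) = |w.im| := by
    have h1 : |2 * (a * b)| = |w.im| := (sq_eq_sq_iff_abs_eq_abs _ _).1 hab
    rwa [abs_of_nonneg (by positivity)] at h1
  have hz : (((a : ℝ) : ℂ) + ((b : ℝ) : ℂ) * Complex.I).re = a := by simp
  have hz' : (((a : ℝ) : ℂ) + ((b : ℝ) : ℂ) * Complex.I).im = b := by simp
  rcases le_total 0 w.im with him | him
  · have e1 : w = (((a : ℝ) : ℂ) + ((b : ℝ) : ℂ) * Complex.I) ^ 2 := by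
      rw [abs_of_nonneg him] at hab'
      apply Complex.ext
      · simp [sq]; nlinarith
      · simp [sq]; nlinarith
    conv_lhs => rw [e1]
    rw [V_sq, hz, hz', abs_of_nonneg ha0, abs_of_nonneg hb0]
  · have e1 : w = ((starRingEnd ℂ) (((a : ℝ) : ℂ) + ((b : ℝ) : ℂ) * Complex.I)) ^ 2 := by
      rw [abs_of_nonpos him] at hab'
      apply Complex.ext
      · simp [sq]; nlinarith
      · simp [sq]; nlinarith
    conv_lhs => rw [e1]
    rw [V_sq, G_conj, Complex.conj_im, Complex.conj_re, Complex.conj_re, hz, hz',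
      abs_neg, abs_of_nonneg ha0, abs_of_nonneg hb0]

end Pool.Dav
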