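import Pool.Agent.Helper458.Dav.Defs
import Pool.Agent.Helper458.Dav.P_G_bounds
import Pool.Agent.Helper458.Dav.P_G_diff
import Pool.Agent.Helper458.Dav.P_V_rho

set_option autoImplicit false

open MeasureTheory Filter Topology Set Metric
open scoped Real ENNReal

namespace Pool.Dav



theorem V_cont_sqrt (a c : ℝ) (ha : 0 ≤ a) (hc : 0 ≤ c) : √(a ^ 2 + c) ≤ a + √c := by
  rw [Real.sqrt_le_left (by positivity)]
  have h1 := Real.sq_sqrt hc
  have h2 := Real.sqrt_nonneg c
  nlinarith [mul_nonneg ha h2]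

theorem V_cont_est (w : ℂ) : |V w - √((‖w‖ + w.re) / 2)| ≤
    √(max 0 (1 - √((‖w‖ - w.re) / 2) ^ 2)) := by
  rw [V_rho]
  set a := √((‖w‖ + w.re) / 2) with ha
  set b := √((‖w‖ - w.re) / 2) with hb
  have ha0 : 0 ≤ a := Real.sqrt_nonneg _
  have hb0 : 0 ≤ b := Real.sqrt_nonneg _
  by_cases h : b < 1
  · rw [if_pos h]
    set z : ℂ := ((a : ℝ) : ℂ) + ((b : ℝ) : ℂ) * Complex.I with hz
    have hre : z.re = a := by simp [hz]
    have him : z.im = b := by simp [hz]
    have h1 := G_bounds z (by rw [him, abs_of_nonneg hb0]; exact h)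
    rw [hre, him, abs_of_nonneg ha0] at h1
    have hc : 0 ≤ 1 - b ^ 2 := by nlinarith
    have h2 := V_cont_sqrt a (1 - b ^ 2) ha0 hc
    have h3 : 1 + a ^ 2 - b ^ 2 = a ^ 2 + (1 - b ^ 2) := by ring
    rw [h3] at h1
    rw [max_eq_right hc, abs_of_nonneg (by linarith [h1.1])]
    linarith [h1.2]
  · rw [if_neg h, sub_self, abs_zero]
    exact Real.sqrt_nonneg _

theorem V_cont : Continuous V := by
  have hac : Continuous (fun w : ℂ => √((‖w‖ + w.re) / 2)) := by fun_prop
  have hbc : Continuous (fun w : ℂ => √((‖w‖ - w.re) / 2)) := by fun_prop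
  rw [continuous_iff_continuousAt]
  intro w0
  rcases lt_trichotomy (√((‖w0‖ - w0.re) / 2)) 1 with h | h | h
  · have hev : ∀ᶠ w in 𝓝 w0, (G (((√((‖w‖ + w.re) / 2) : ℝ) : ℂ) +
        ((√((‖w‖ - w.re) / 2) : ℝ) : ℂ) * Complex.I)).re = V w := by
      filter_upwards [(hbc.continuousAt (x := w0)).eventually_lt continuousAt_const h] with w hw
      rw [V_rho, if_pos hw]
    refine ContinuousAt.congr ?_ hev
    apply Complex.continuous_re.continuousAt.comp
    have hopen : IsOpen {z : ℂ | |z.im| < 1} :=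
      isOpen_lt (by fun_prop) continuous_const
    have hG : ContinuousAt G (((√((‖w0‖ + w0.re) / 2) : ℝ) : ℂ) +
        ((√((‖w0‖ - w0.re) / 2) : ℝ) : ℂ) * Complex.I) := by
      refine G_diff.continuousOn.continuousAt (hopen.mem_nhds ?_)
      have him : ((((√((‖w0‖ + w0.re) / 2) : ℝ) : ℂ) +
        ((√((‖w0‖ - w0.re) / 2) : ℝ) : ℂ) * Complex.I)).im = √((‖w0‖ - w0.re) / 2) := by simp
      rw [Set.mem_setOf_eq, him, abs_of_nonneg (Real.sqrt_nonneg _)]
      exact h
    refine ContinuousAt.comp (f := fun w : ℂ => ((√((‖w‖ + w.re) / 2) : ℝ) : ℂ) +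
        ((√((‖w‖ - w.re) / 2) : ℝ) : ℂ) * Complex.I) hG ?_
    fun_prop
  · have h1 : Tendsto (fun w => V w - √((‖w‖ + w.re) / 2)) (𝓝 w0) (𝓝 0) := by
      refine squeeze_zero_norm (fun w => ?_) (a := fun w : ℂ => √(max 0 (1 - √((‖w‖ - w.re) / 2) ^ 2))) ?_
      · rw [Real.norm_eq_abs]
        exact V_cont_est w
      · have hc : Continuous (fun w : ℂ => √(max 0 (1 - √((‖w‖ - w.re) / 2) ^ 2))) := by fun_prop
        have h2 := hc.tendsto w0
        rw [h] at h2
        simpa using h2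
    have h3 := h1.add (hac.tendsto w0)
    have h4 : V w0 = √((‖w0‖ + w0.re) / 2) := by
      rw [V_rho, if_neg (by rw [h]; exact lt_irrefl _)]
    unfold ContinuousAt
    rw [h4]
    simpa using h3
  · have hev : ∀ᶠ w in 𝓝 w0, √((‖w‖ + w.re) / 2) = V w := by
      filter_upwards [continuousAt_const.eventually_lt (hbc.continuousAt (x := w0)) h] with w hw
      rw [V_rho, if_neg (not_lt.2 hw.le)]
    exact ContinuousAt.congr hac.continuousAt hev

end Pool.Dav
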