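import Pool.Agent.Helper458.Dav.Defs
import Pool.Agent.Helper458.Dav.P_G_diff
import Pool.Agent.Helper458.Dav.P_G_even
import Pool.Agent.Helper458.Dav.P_V_sq

set_option autoImplicit false

open MeasureTheory Filter Topology Set Metric
open scoped Real ENNReal

namespace Pool.Dav



theorem Kx_sq (w : ℂ) : (w ^ (1 / 2 : ℂ)) ^ 2 = w := by
  have h := Complex.cpow_nat_inv_pow w (n := 2) (by norm_num)
  have e : ((2 : ℕ) : ℂ)⁻¹ = (1 / 2 : ℂ) := by norm_num
  rw [e] at h
  exact h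

theorem Kx_im (z : ℂ) : ‖z ^ 2‖ - (z ^ 2).re = 2 * z.im ^ 2 := by
  have h1 : ‖z ^ 2‖ = z.re ^ 2 + z.im ^ 2 := by
    rw [norm_pow, ← Complex.normSq_eq_norm_sq, Complex.normSq_apply]
    ring
  rw [h1, sq z, Complex.mul_re]
  ring

theorem Kx_strip (z : ℂ) (h : ‖z ^ 2‖ - (z ^ 2).re < 2) : |z.im| < 1 := by
  rw [Kx_im] at h
  rw [← sq_lt_one_iff_abs_lt_one]
  linarith

theorem Kx_open : IsOpen {z : ℂ | |z.im| < 1} :=
  isOpen_lt (Complex.continuous_im.abs) continuous_const

theorem Kx_Gd (z : ℂ) (h : |z.im| < 1) : DifferentiableAt ℂ G z :=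
  G_diff.differentiableAt (Kx_open.mem_nhds h)

theorem Kx_neg : (fun w : ℂ => G (w ^ (1 / 2 : ℂ))) =
    fun w : ℂ => G (Complex.I * (-w) ^ (1 / 2 : ℂ)) := by
  funext w
  have h1 := Kx_sq w
  have h2 := Kx_sq (-w)
  have h3 : (w ^ (1 / 2 : ℂ)) ^ 2 = (Complex.I * (-w) ^ (1 / 2 : ℂ)) ^ 2 := by
    rw [mul_pow, h1, h2, Complex.I_sq]; ring
  rcases sq_eq_sq_iff_eq_or_eq_neg.1 h3 with h | h
  · rw [h]
  · rw [h, G_even]

theorem K_exists : ∃ K : ℂ → ℂ, DifferentiableOn ℂ K {w : ℂ | ‖w‖ - w.re < 2} ∧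
    ∀ w : ℂ, ‖w‖ - w.re < 2 → V w = (K w).re := by
  refine ⟨fun w => G (w ^ (1 / 2 : ℂ)), ?_, ?_⟩
  · have hopen : IsOpen {w : ℂ | ‖w‖ - w.re < 2} :=
      isOpen_lt (continuous_norm.sub Complex.continuous_re) continuous_const
    have h0 : (0 : ℂ) ∈ {w : ℂ | ‖w‖ - w.re < 2} := by
      show ‖(0 : ℂ)‖ - (0 : ℂ).re < 2
      simp
    rw [← Complex.differentiableOn_compl_singleton_and_continuousAt_iff (hopen.mem_nhds h0)]
    constructor
    · intro w hw
      apply DifferentiableAt.differentiableWithinAt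
      have hw1 : ‖w‖ - w.re < 2 := hw.1
      have hw2 : w ≠ 0 := hw.2
      by_cases hs : w ∈ Complex.slitPlane
      · have hst : |(w ^ (1 / 2 : ℂ)).im| < 1 := by
          apply Kx_strip
          rw [Kx_sq]; exact hw1
        have h1 : DifferentiableAt ℂ (fun w : ℂ => w ^ (1 / 2 : ℂ)) w :=
          differentiableAt_id.cpow (differentiableAt_const _) hs
        exact DifferentiableAt.comp (g := G) (f := fun w : ℂ => w ^ (1 / 2 : ℂ)) w
          (Kx_Gd _ hst) h1
      · have hs' : -w ∈ Complex.slitPlane := by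
          rw [Complex.mem_slitPlane_iff] at hs ⊢
          push Not at hs
          left
          rw [Complex.neg_re]
          rcases lt_or_eq_of_le hs.1 with h | h
          · linarith
          · exact absurd (Complex.ext h hs.2) hw2
        rw [Kx_neg]
        have hst : |(Complex.I * (-w) ^ (1 / 2 : ℂ)).im| < 1 := by
          apply Kx_strip
          rw [mul_pow, Kx_sq, Complex.I_sq, neg_one_mul, neg_neg]
          exact hw1
        have h1 : DifferentiableAt ℂ (fun w : ℂ => Complex.I * (-w) ^ (1 / 2 : ℂ)) w :=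
          (differentiableAt_id.neg.cpow (differentiableAt_const _) hs').const_mul _
        exact DifferentiableAt.comp (g := G)
          (f := fun w : ℂ => Complex.I * (-w) ^ (1 / 2 : ℂ)) w (Kx_Gd _ hst) h1
    · have h1 : ContinuousAt (fun w : ℂ => w ^ (1 / 2 : ℂ)) 0 :=
        Complex.continuousAt_cpow_const_of_re_pos (Or.inl (by simp)) (by norm_num)
      have hst : |((0 : ℂ) ^ (1 / 2 : ℂ)).im| < 1 := by
        apply Kx_strip
        rw [Kx_sq]; simp
      exact ContinuousAt.comp (f := fun w : ℂ => w ^ (1 / 2 : ℂ)) (g := G)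
        (Kx_Gd _ hst).continuousAt h1
  · intro w hw
    have hst : |(w ^ (1 / 2 : ℂ)).im| < 1 := by
      apply Kx_strip
      rw [Kx_sq]; exact hw
    show V w = (G (w ^ (1 / 2 : ℂ))).re
    unfold V
    rw [if_pos hst]

end Pool.Dav
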