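import Pool.Agent.Helper458.Dav.Defs
import Pool.Agent.Helper458.Dav.P_K_exists

set_option autoImplicit false

open MeasureTheory Filter Topology Set Metric
open scoped Real ENNReal

namespace Pool.Dav



theorem V_harm (w : ℂ → ℂ) (z : ℂ) (hw : ∀ᶠ x in 𝓝 z, DifferentiableAt ℂ w x)
    (h1 : ‖w z‖ - (w z).re < 2) :
    SubAt (fun x => V (w x)) z ∧ SubAt (fun x => - V (w x)) z := by
  obtain ⟨K, hK, hV⟩ := K_exists
  have hO : IsOpen {w : ℂ | ‖w‖ - w.re < 2} :=
    isOpen_lt (continuous_norm.sub Complex.continuous_re) continuous_const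
  have hwz : ContinuousAt w z := (hw.self_of_nhds).continuousAt
  have h2 : ∀ᶠ x in 𝓝 z, w x ∈ {w : ℂ | ‖w‖ - w.re < 2} :=
    hwz.eventually (hO.mem_nhds h1)
  obtain ⟨r0, hr0, hball⟩ := Metric.eventually_nhds_iff_ball.1 (hw.and h2)
  have key : ∀ r : ℝ, 0 < r → r < r0 →
      Real.circleAverage (fun x => V (w x)) z r = V (w z) := by
    intro r hr hrr
    have hsub : closedBall z |r| ⊆ ball z r0 := by
      apply closedBall_subset_ball
      rwa [abs_of_pos hr]
    have hF : ∀ x ∈ ball z r0, DifferentiableAt ℂ (fun x => K (w x)) x := by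
      intro x hx
      have hb := hball x hx
      exact (hK.differentiableAt (hO.mem_nhds hb.2)).comp x hb.1
    have hd : DifferentiableOn ℂ (fun x => K (w x)) (closedBall z |r|) := fun x hx =>
      (hF x (hsub hx)).differentiableWithinAt
    have hDC : DiffContOnCl ℂ (fun x => K (w x)) (ball z |r|) := by
      apply DifferentiableOn.diffContOnCl
      exact hd.mono closure_ball_subset_closedBall
    have hm := hDC.circleAverage
    have hci : CircleIntegrable (fun x => K (w x)) z r := by
      apply ContinuousOn.circleIntegrable'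
      exact hd.continuousOn.mono sphere_subset_closedBall
    have hre := Complex.reCLM.circleAverage_comp_comm hci
    have e1 : Real.circleAverage (fun x => V (w x)) z r
        = Real.circleAverage (Complex.reCLM ∘ fun x => K (w x)) z r := by
      apply Real.circleAverage_congr_sphere
      intro x hx
      have hb := hball x (hsub (sphere_subset_closedBall hx))
      simp only [Function.comp, Complex.reCLM_apply]
      exact hV _ hb.2
    rw [e1, hre, hm, hV _ h1]
    rfl
  refine ⟨⟨r0, hr0, fun r hr hrr => (key r hr hrr).ge⟩, ⟨r0, hr0, fun r hr hrr => ?_⟩⟩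
  have : Real.circleAverage (fun x => -V (w x)) z r = -V (w z) := by
    rw [← key r hr hrr]
    simp only [Real.circleAverage, intervalIntegral.integral_neg, smul_neg]
  exact this.ge

end Pool.Dav
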