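import Pool.Agent.Helper458.Dav.Defs
import Pool.Agent.Helper458.Dav.P_G_bounds
import Pool.Agent.Helper458.Dav.P_V_rho

set_option autoImplicit false

open MeasureTheory Filter Topology Set Metric
open scoped Real ENNReal

namespace Pool.Dav



theorem V_ge_rho (w : ℂ) : √((‖w‖ + w.re) / 2) ≤ V w ∧
    (2 ≤ ‖w‖ - w.re → V w = √((‖w‖ + w.re) / 2)) := by
  rw [V_rho]
  obtain ⟨a, ha⟩ : ∃ a, a = √((‖w‖ + w.re) / 2) := ⟨_, rfl⟩
  obtain ⟨b, hb⟩ : ∃ b, b = √((‖w‖ - w.re) / 2) := ⟨_, rfl⟩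
  have hb0 : 0 ≤ b := by rw [hb]; exact Real.sqrt_nonneg _
  have hb1 : 2 ≤ ‖w‖ - w.re → 1 ≤ b := by
    intro h
    rw [hb, ← Real.sqrt_one]
    exact Real.sqrt_le_sqrt (by linarith)
  rw [← ha, ← hb]
  split_ifs with h
  · constructor
    · have h1 := (G_bounds ((a : ℂ) + (b : ℂ) * Complex.I) (by
        simp only [Complex.add_im, Complex.ofReal_im, Complex.mul_im, Complex.ofReal_re,
          Complex.I_im, Complex.I_re, mul_one, mul_zero, add_zero, zero_add]
        rw [abs_of_nonneg hb0]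
        exact h)).1
      have h2 : ((a : ℂ) + (b : ℂ) * Complex.I).re = a := by simp
      rw [h2] at h1
      exact (le_abs_self a).trans h1
    · intro h1
      exact absurd (hb1 h1) (not_le.2 h)
  · exact ⟨le_rfl, fun _ => rfl⟩

end Pool.Dav
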