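import Pool.Agent.Helper458.Dav.Defs
import Pool.Agent.Helper458.Dav.P_G_bounds
import Pool.Agent.Helper458.Dav.P_G_line
import Pool.Agent.Helper458.Dav.P_G_vert
import Pool.Agent.Helper458.Dav.P_V_rho

set_option autoImplicit false

open MeasureTheory Filter Topology Set Metric
open scoped Real ENNReal

namespace Pool.Dav



theorem V_upper (a b : ℂ) : V (a ^ 2 + b ^ 2) ≤ √(a.re ^ 2 + b.re ^ 2) + U0 ∧
    (1 ≤ √(a.im ^ 2 + b.im ^ 2) → V (a ^ 2 + b ^ 2) ≤ √(a.re ^ 2 + b.re ^ 2)) := by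
  have hU0 : 0 ≤ U0 := by
    have h1 := G_vert (1 / 2) (by rw [abs_of_pos] <;> norm_num)
    have h2 := h1.1.trans h1.2
    rw [abs_of_pos (by norm_num : (0 : ℝ) < 1 / 2)] at h2
    linarith
  set w : ℂ := a ^ 2 + b ^ 2 with hw
  have hre : w.re = (a.re ^ 2 + b.re ^ 2) - (a.im ^ 2 + b.im ^ 2) := by
    rw [hw]
    simp only [Complex.add_re, pow_two, Complex.mul_re]
    ring
  have hnorm : ‖w‖ ≤ (a.re ^ 2 + b.re ^ 2) + (a.im ^ 2 + b.im ^ 2) := by
    have h1 : ‖w‖ ≤ ‖a‖ ^ 2 + ‖b‖ ^ 2 := by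
      rw [hw]
      refine (norm_add_le _ _).trans ?_
      rw [norm_pow, norm_pow]
    have ha : ‖a‖ ^ 2 = a.re ^ 2 + a.im ^ 2 := by
      rw [← Complex.normSq_eq_norm_sq, Complex.normSq_apply]; ring
    have hb : ‖b‖ ^ 2 = b.re ^ 2 + b.im ^ 2 := by
      rw [← Complex.normSq_eq_norm_sq, Complex.normSq_apply]; ring
    rw [ha, hb] at h1
    linarith
  have habs : |w.re| ≤ ‖w‖ := Complex.abs_re_le_norm w
  have h3 := abs_le.1 habs
  have hp0 : 0 ≤ (‖w‖ + w.re) / 2 := by linarith [h3.1]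
  have hq0 : 0 ≤ (‖w‖ - w.re) / 2 := by linarith [h3.2]
  have hpX : √((‖w‖ + w.re) / 2) ≤ √(a.re ^ 2 + b.re ^ 2) := by
    apply Real.sqrt_le_sqrt
    rw [hre]
    linarith
  rw [V_rho w]
  set p := √((‖w‖ + w.re) / 2) with hp
  set q := √((‖w‖ - w.re) / 2) with hq
  have hp2 : p ^ 2 = (‖w‖ + w.re) / 2 := Real.sq_sqrt hp0
  have hq2 : q ^ 2 = (‖w‖ - w.re) / 2 := Real.sq_sqrt hq0
  have hpn : 0 ≤ p := Real.sqrt_nonneg _
  have hqn : 0 ≤ q := Real.sqrt_nonneg _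
  split_ifs with hq1
  · have hqa : |q| < 1 := by rwa [abs_of_nonneg hqn]
    have g1 := (G_line p q hqa).2
    have g2 := (G_vert q hqa).2
    rw [abs_of_nonneg hpn] at g1
    refine ⟨by linarith, fun hY => ?_⟩
    have him : ((p : ℂ) + (q : ℂ) * Complex.I).im = q := by simp
    have hree : ((p : ℂ) + (q : ℂ) * Complex.I).re = p := by simp
    have g3 := (G_bounds ((p : ℂ) + (q : ℂ) * Complex.I) (by rw [him]; exact hqa)).2
    rw [him, hree] at g3
    refine g3.trans ?_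
    apply Real.sqrt_le_sqrt
    have hY2 : 1 ≤ a.im ^ 2 + b.im ^ 2 := by
      by_contra hcon
      rw [not_le] at hcon
      have : √(a.im ^ 2 + b.im ^ 2) < 1 := by
        rw [Real.sqrt_lt' one_pos]
        linarith
      linarith
    rw [hp2, hq2, hre] at *
    linarith
  · exact ⟨by linarith, fun _ => hpX⟩

end Pool.Dav
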