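import Pool.Agent.Helper458.Dav.Defs
import Pool.Agent.Helper458.Dav.P_G_zero
import Pool.Agent.Helper458.Dav.P_V_sq

set_option autoImplicit false

open MeasureTheory Filter Topology Set Metric
open scoped Real ENNReal

namespace Pool.Dav



theorem V_zero : V 0 = U0 := by
  have h := V_sq 0
  rw [zero_pow two_ne_zero] at h
  rw [h, Complex.zero_im, abs_zero, if_pos one_pos, G_zero, Complex.ofReal_re]

end Pool.Dav
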