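import Pool.Agent.Helper458.Dav.Defs
import Pool.Agent.Helper458.Dav.P_V_zero
import Pool.Agent.Helper458.Dav.P_V_ge_rho
import Pool.Agent.Helper458.Dav.P_V_upper
import Pool.Agent.Helper458.Dav.P_K_exists

set_option autoImplicit false

open MeasureTheory Filter Topology Set Metric
open scoped Real ENNReal

namespace Pool.Dav



theorem V_lip : ∃ c : ℝ, ∀ w : ℂ, |V w - U0| ≤ c * ‖w‖ := by
  obtain ⟨K, hK, hKV⟩ := K_exists
  have hV0 : ∀ w, 0 ≤ V w := fun w => (Real.sqrt_nonneg _).trans (V_ge_rho w).1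
  have hU0 : 0 ≤ U0 := by rw [← V_zero]; exact hV0 0
  have hmem : ∀ w : ℂ, ‖w‖ < 1 → ‖w‖ - w.re < 2 := by
    intro w hw
    have h1 := Complex.abs_re_le_norm w
    have h2 := abs_le.1 h1
    linarith [h2.1]
  have hnhds : {w : ℂ | ‖w‖ - w.re < 2} ∈ 𝓝 (0 : ℂ) := by
    filter_upwards [Metric.ball_mem_nhds (0 : ℂ) one_pos] with w hw
    exact hmem w (mem_ball_zero_iff.1 hw)
  have hd : DifferentiableAt ℂ K 0 := hK.differentiableAt hnhds
  obtain ⟨c, hc⟩ := hd.isBigO_sub.bound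
  obtain ⟨δ, hδ, hcδ⟩ := Metric.eventually_nhds_iff.1 hc
  obtain ⟨ε, hε⟩ : ∃ ε, ε = min δ 1 := ⟨_, rfl⟩
  have hε0 : 0 < ε := by rw [hε]; exact lt_min hδ one_pos
  refine ⟨max c (1 + (1 + U0) / ε), fun w => ?_⟩
  have hw0 := norm_nonneg w
  by_cases h : ‖w‖ < ε
  · have h1 : ‖w‖ < δ := h.trans_le (by rw [hε]; exact min_le_left _ _)
    have h2 : ‖w‖ < 1 := h.trans_le (by rw [hε]; exact min_le_right _ _)
    have h3 := hcδ (y := w) (by rw [dist_zero_right]; exact h1)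
    rw [sub_zero] at h3
    have h4 : U0 = (K 0).re := by
      rw [← V_zero, hKV 0 (by norm_num)]
    rw [hKV w (hmem w h2), h4, ← Complex.sub_re]
    calc |(K w - K 0).re| ≤ ‖K w - K 0‖ := Complex.abs_re_le_norm _
      _ ≤ c * ‖w‖ := h3
      _ ≤ _ := mul_le_mul_of_nonneg_right (le_max_left _ _) hw0
  · push Not at h
    have h1 : V w ≤ ‖w‖ + 1 + U0 := by
      obtain ⟨a, ha⟩ := IsAlgClosed.exists_pow_nat_eq w (show 0 < 2 by norm_num)
      have h2 := (V_upper a 0).1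
      rw [ha, Complex.zero_re] at h2
      simp only [ne_eq, OfNat.ofNat_ne_zero, not_false_eq_true, zero_pow, add_zero] at h2
      have h3 : √(a.re ^ 2) ≤ ‖w‖ + 1 := by
        rw [Real.sqrt_sq_eq_abs]
        have h4 := Complex.abs_re_le_norm a
        have h5 : ‖w‖ = ‖a‖ ^ 2 := by rw [← ha, norm_pow]
        nlinarith [norm_nonneg a]
      linarith
    have h2 := hV0 w
    have h3 : |V w - U0| ≤ ‖w‖ + 1 + U0 := by
      rw [abs_le]
      constructor <;> linarith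
    have h4 : 1 + U0 ≤ (1 + U0) / ε * ‖w‖ := by
      rw [div_mul_eq_mul_div, le_div_iff₀ hε0]
      exact mul_le_mul_of_nonneg_left h (by linarith)
    calc |V w - U0| ≤ ‖w‖ + 1 + U0 := h3
      _ ≤ (1 + (1 + U0) / ε) * ‖w‖ := by linarith
      _ ≤ _ := mul_le_mul_of_nonneg_right (le_max_right _ _) hw0

end Pool.Dav
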