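import Pool.Agent.Helper458.Dav.Defs
import Pool.Agent.Helper458.Dav.P_V_cont
import Pool.Agent.Helper458.Dav.P_V_lip
import Pool.Agent.Helper458.Dav.P_V_harm
import Pool.Agent.Helper458.Dav.P_HP
import Pool.Agent.Helper458.Dav.P_Gm_props

set_option autoImplicit false

open MeasureTheory Filter Topology Set Metric
open scoped Real ENNReal

namespace Pool.Dav



theorem subAt_add_const (u : ℂ → ℝ) (z : ℂ) (a : ℝ) (hz : 0 < z.im)
    (hc : ContinuousOn u {z : ℂ | 0 ≤ z.im}) (h : SubAt u z) : SubAt (fun x => u x + a) z := by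
  obtain ⟨r₀, hr₀, h⟩ := h
  refine ⟨min r₀ z.im, lt_min hr₀ hz, fun r hr hr1 => ?_⟩
  have h1 := h r hr (lt_of_lt_of_le hr1 (min_le_left _ _))
  have h2 : r < z.im := lt_of_lt_of_le hr1 (min_le_right _ _)
  have hci : CircleIntegrable u z r := by
    refine ContinuousOn.circleIntegrable hr.le (hc.mono ?_)
    intro w hw
    rw [mem_sphere, dist_eq_norm] at hw
    have h3 := Complex.abs_im_le_norm (w - z)
    rw [hw, Complex.sub_im, abs_le] at h3
    show 0 ≤ w.im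
    linarith
  have hci2 : CircleIntegrable (fun _ : ℂ => a) z r := circleIntegrable_const a z r
  rw [Real.circleAverage_fun_add hci hci2, Real.circleAverage_const]
  linarith

theorem V_identity (m : ℕ) (hm : 2 ≤ m) (δ : ℝ) (hδ : 0 < δ) :
    Integrable (fun x : ℝ => V (Gm m δ x ^ 2) - U0) ∧
    ∫ x : ℝ, (V (Gm m δ x ^ 2) - U0) = 0 := by
  obtain ⟨hd, him, C, hC⟩ := Gm_props m hm δ hδ
  obtain ⟨c, hc⟩ := V_lip
  have hpos : ∀ z : ℂ, 0 < 1 + ‖z‖ ^ 2 := fun z => by positivity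
  have hC0 : 0 ≤ C := by
    have h1 := (norm_nonneg _).trans (hC 0 (by simp))
    simpa using h1
  have hopen : IsOpen {z : ℂ | -δ < z.im} := isOpen_lt continuous_const Complex.continuous_im
  have hsub : {z : ℂ | 0 ≤ z.im} ⊆ {z : ℂ | -δ < z.im} := by
    intro z hz
    have : 0 ≤ z.im := hz
    show -δ < z.im
    linarith
  have hGc : ContinuousOn (Gm m δ) {z : ℂ | 0 ≤ z.im} := hd.continuousOn.mono hsub
  have hVc : ContinuousOn (fun z : ℂ => V (Gm m δ z ^ 2)) {z : ℂ | 0 ≤ z.im} :=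
    V_cont.comp_continuousOn (hGc.pow 2)
  have hb : ∀ z : ℂ, 0 ≤ z.im → |V (Gm m δ z ^ 2) - U0| ≤ (|c| * C ^ 2) / (1 + ‖z‖ ^ 2) := by
    intro z hz
    have h1 := hc (Gm m δ z ^ 2)
    have h2 := hC z hz
    have h3 : c * ‖Gm m δ z ^ 2‖ ≤ |c| * ‖Gm m δ z ^ 2‖ := by
      gcongr; exact le_abs_self c
    have h4 : ‖Gm m δ z ^ 2‖ ≤ (C / (1 + ‖z‖ ^ 2)) ^ 2 := by
      rw [norm_pow]; gcongr
    have h5 : (C / (1 + ‖z‖ ^ 2)) ^ 2 ≤ C ^ 2 / (1 + ‖z‖ ^ 2) := by
      rw [div_pow]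
      have h6 : 1 + ‖z‖ ^ 2 ≤ (1 + ‖z‖ ^ 2) ^ 2 := by nlinarith [sq_nonneg ‖z‖]
      have := hpos z
      gcongr
    calc |V (Gm m δ z ^ 2) - U0| ≤ |c| * (C ^ 2 / (1 + ‖z‖ ^ 2)) :=
          h1.trans (h3.trans (by gcongr; exact h4.trans h5))
      _ = _ := by ring
  have hs : ∀ z : ℂ, 0 < z.im → SubAt (fun x => V (Gm m δ x ^ 2)) z ∧
      SubAt (fun x => - V (Gm m δ x ^ 2)) z := by
    intro z hz
    refine V_harm (fun x => Gm m δ x ^ 2) z ?_ ?_
    · have h1 : ∀ᶠ x in 𝓝 z, x ∈ {z : ℂ | -δ < z.im} :=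
        hopen.mem_nhds (by show -δ < z.im; linarith)
      filter_upwards [h1] with x hx
      exact ((hd x hx).differentiableAt (hopen.mem_nhds hx)).pow 2
    · have h1 := him z (by linarith)
      have h2 : (Gm m δ z).im ^ 2 < 1 := by
        rw [← sq_abs]
        have := abs_nonneg (Gm m δ z).im
        nlinarith
      show ‖Gm m δ z ^ 2‖ - (Gm m δ z ^ 2).re < 2
      rw [norm_pow, ← Complex.normSq_eq_norm_sq, Complex.normSq_apply, pow_two (Gm m δ z),
        Complex.mul_re]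
      nlinarith
  have hp1 : 0 ≤ ∫ x : ℝ, (V (Gm m δ x ^ 2) - U0) := by
    refine HP (fun z => V (Gm m δ z ^ 2) - U0) (|c| * C ^ 2) (hVc.sub continuousOn_const) hb ?_
    intro z hz
    have := subAt_add_const _ z (-U0) hz hVc (hs z hz).1
    simpa [sub_eq_add_neg] using this
  have hp2 : 0 ≤ ∫ x : ℝ, (-(V (Gm m δ x ^ 2)) + U0) := by
    refine HP (fun z => -(V (Gm m δ z ^ 2)) + U0) (|c| * C ^ 2) (hVc.neg.add continuousOn_const) ?_ ?_
    · intro z hz
      have h1 := hb z hz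
      have h2 : -(V (Gm m δ z ^ 2)) + U0 = -(V (Gm m δ z ^ 2) - U0) := by ring
      rw [h2, abs_neg]
      exact h1
    · intro z hz
      exact subAt_add_const _ z U0 hz hVc.neg (hs z hz).2
  have hint : Integrable (fun x : ℝ => V (Gm m δ x ^ 2) - U0) := by
    have hcont : Continuous (fun x : ℝ => V (Gm m δ x ^ 2) - U0) := by
      have h1 : Continuous (fun x : ℝ => V (Gm m δ (x : ℂ) ^ 2)) :=
        hVc.comp_continuous Complex.continuous_ofReal (fun x => by simp)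
      exact h1.sub continuous_const
    refine Integrable.mono' (integrable_inv_one_add_sq.const_mul (|c| * C ^ 2))
      hcont.aestronglyMeasurable (Filter.Eventually.of_forall fun x => ?_)
    have h1 := hb (x : ℂ) (by simp)
    rw [Real.norm_eq_abs]
    refine h1.trans (le_of_eq ?_)
    rw [Complex.norm_real, Real.norm_eq_abs, sq_abs, div_eq_mul_inv]
  refine ⟨hint, le_antisymm ?_ hp1⟩
  have h3 : ∫ x : ℝ, (-(V (Gm m δ x ^ 2)) + U0) = - ∫ x : ℝ, (V (Gm m δ x ^ 2) - U0) := by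
    rw [← integral_neg]
    congr 1
    funext x
    ring
  rw [h3] at hp2
  linarith

end Pool.Dav
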