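import Pool.Agent.Helper458.Dav.Defs
import Pool.Agent.Helper458.Dav.P_G_bounds
import Pool.Agent.Helper458.Dav.P_G_line
import Pool.Agent.Helper458.Dav.P_G_vert
import Pool.Agent.Helper458.Dav.P_V_sq

set_option autoImplicit false

open MeasureTheory Filter Topology Set Metric
open scoped Real ENNReal

namespace Pool.Dav



theorem V_lower (z : ℂ) (hz : |z.im| < 1) :
    |z.re| ≤ V (z ^ 2) ∧ U0 - V (z ^ 2) ≤ U0 * |z.im| := by
  rw [V_sq, if_pos hz]
  refine ⟨(G_bounds z hz).1, ?_⟩
  have h1 := (G_line z.re z.im hz).1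
  have h2 := (G_vert z.im hz).1
  rw [Complex.re_add_im] at h1
  linarith

end Pool.Dav
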