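import Pool.Agent.Helper458.Dav.Defs

set_option autoImplicit false

open MeasureTheory Filter Topology Set Metric
open scoped Real ENNReal

namespace Pool.Dav



theorem rr_facts {x : ℝ} (hx : 1 < |x|) : 0 < √(x ^ 2 - 1) ∧ 0 < rr x ∧ rr x < 1 ∧
    rr x ^ 2 / (1 - rr x) ≤ 1 / (|x| * √(x ^ 2 - 1)) := by
  have ha : 0 < |x| := by linarith
  have h1 : 0 < x ^ 2 - 1 := by
    rw [← sq_abs]
    nlinarith
  set s : ℝ := √(x ^ 2 - 1) with hs
  have hs0 : 0 < s := Real.sqrt_pos.2 h1
  have hs2 : s * s = |x| ^ 2 - 1 := by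
    rw [hs, Real.mul_self_sqrt h1.le, sq_abs]
  have hsa : s < |x| := by nlinarith
  have hr : rr x = 1 / (|x| + s) := by
    unfold rr
    rw [← hs, eq_div_iff (by positivity)]
    linear_combination -hs2
  have hr0 : 0 < rr x := by rw [hr]; positivity
  have hr1 : rr x < 1 := by
    rw [hr, div_lt_one (by positivity)]
    linarith
  refine ⟨hs0, hr0, hr1, ?_⟩
  have h3 : s / (|x| + s) ≤ 1 - rr x := by
    rw [hr, div_le_iff₀ (by positivity)]
    have : (1 - 1 / (|x| + s)) * (|x| + s) = |x| + s - 1 := by field_simp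
    rw [this]
    linarith
  have h4 : 0 < s / (|x| + s) := by positivity
  calc rr x ^ 2 / (1 - rr x) ≤ rr x ^ 2 / (s / (|x| + s)) := by
        apply div_le_div_of_nonneg_left (by positivity) h4 h3
    _ = 1 / ((|x| + s) * s) := by
        rw [hr]
        field_simp
    _ ≤ 1 / (|x| * s) := by
        apply one_div_le_one_div_of_le (by positivity)
        nlinarith

theorem rr_dom : IntegrableOn (fun x : ℝ => 1 / (|x| * √(x ^ 2 - 1))) {x : ℝ | 1 < |x|} := by
  have h1 : IntegrableOn (fun x : ℝ => 1 / (|x| * √(x ^ 2 - 1))) (Ioi 1) := by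
    apply integrableOn_Ioi_deriv_of_nonneg (g := fun x : ℝ => Real.arctan (√(x ^ 2 - 1)))
      (l := π / 2)
    · apply Continuous.continuousWithinAt
      fun_prop
    · intro x hx
      have hx1 : (1 : ℝ) < x := hx
      have h2 : 0 < x ^ 2 - 1 := by nlinarith
      have d1 : HasDerivAt (fun x : ℝ => x ^ 2 - 1) (2 * x) x := by
        have := ((hasDerivAt_id x).pow 2).sub_const 1
        simpa using this
      have d2 := (d1.sqrt h2.ne').arctan
      convert d2 using 1
      rw [Real.sq_sqrt h2.le, abs_of_pos (by linarith)]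
      have : 0 < √(x ^ 2 - 1) := Real.sqrt_pos.2 h2
      field_simp
      ring
    · intro x _
      positivity
    · have t1 : Tendsto (fun x : ℝ => x ^ 2 - 1) atTop atTop := by
        have := tendsto_atTop_add_const_right atTop (-1 : ℝ)
          (tendsto_pow_atTop (α := ℝ) (n := 2) (by norm_num))
        simpa [sub_eq_add_neg] using this
      have t2 : Tendsto (fun x : ℝ => √(x ^ 2 - 1)) atTop atTop :=
        Real.tendsto_sqrt_atTop.comp t1
      have t3 : Tendsto Real.arctan atTop (𝓝 (π / 2)) :=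
        Real.tendsto_arctan_atTop.mono_right nhdsWithin_le_nhds
      exact t3.comp t2
  have h2 : IntegrableOn (fun x : ℝ => 1 / (|x| * √(x ^ 2 - 1))) (Iio (-1)) := by
    have h3 := ((Measure.measurePreserving_neg (volume : Measure ℝ)).integrableOn_comp_preimage
      (Homeomorph.neg ℝ).measurableEmbedding (f := fun x : ℝ => 1 / (|x| * √(x ^ 2 - 1)))
      (s := Ioi 1)).2 h1
    have e1 : (Neg.neg ⁻¹' (Ioi (1 : ℝ)) : Set ℝ) = Iio (-1) := by
      ext x
      simp only [mem_preimage, mem_Ioi, mem_Iio]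
      constructor <;> intro h <;> linarith
    have e2 : ((fun x : ℝ => 1 / (|x| * √(x ^ 2 - 1))) ∘ Neg.neg) =
        fun x : ℝ => 1 / (|x| * √(x ^ 2 - 1)) := by
      funext x
      simp only [Function.comp, abs_neg, neg_sq]
    rw [e2] at h3
    rw [← e1]
    exact h3
  have e : {x : ℝ | 1 < |x|} = Iio (-1) ∪ Ioi 1 := by
    ext x
    simp only [mem_ofPred_eq, mem_union, mem_Iio, mem_Ioi, lt_abs]
    constructor
    · rintro (h | h)
      · exact Or.inr h
      · exact Or.inl (by linarith)
    · rintro (h | h)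
      · exact Or.inr (by linarith)
      · exact Or.inl h
  rw [e]
  exact h2.union h1

theorem rr_meas : Measurable rr := by
  have : Continuous rr := by
    unfold rr
    fun_prop
  exact this.measurable

theorem rr_set : MeasurableSet {x : ℝ | 1 < |x|} :=
  (isOpen_lt continuous_const continuous_abs).measurableSet

theorem rr_bd {x : ℝ} (hx : 1 < |x|) {m : ℕ} (hm : 2 ≤ m) :
    ‖rr x ^ m / (1 - rr x)‖ ≤ 1 / (|x| * √(x ^ 2 - 1)) := by
  obtain ⟨h1, h2, h3, h4⟩ := rr_facts hx
  have h5 : 0 < 1 - rr x := by linarith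
  rw [Real.norm_of_nonneg (by positivity)]
  refine le_trans ?_ h4
  exact div_le_div_of_nonneg_right (pow_le_pow_of_le_one h2.le h3.le hm) h5.le

theorem rr_int :
    (∀ m : ℕ, 2 ≤ m → IntegrableOn (fun x => rr x ^ m / (1 - rr x)) {x : ℝ | 1 < |x|}) ∧
    Tendsto (fun m : ℕ => ∫ x in {x : ℝ | 1 < |x|}, rr x ^ m / (1 - rr x)) atTop (𝓝 0) := by
  have hme : ∀ m : ℕ, Measurable (fun x => rr x ^ m / (1 - rr x)) := fun m =>
    (rr_meas.pow_const m).div (measurable_const.sub rr_meas)
  constructor
  · intro m hm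
    refine Integrable.mono' rr_dom (hme m).aestronglyMeasurable ?_
    refine (ae_restrict_iff' rr_set).2 (Eventually.of_forall fun x hx => ?_)
    exact rr_bd hx hm
  · have h1 : Tendsto (fun m : ℕ => ∫ x in {x : ℝ | 1 < |x|}, rr x ^ m / (1 - rr x)) atTop
        (𝓝 (∫ x in {x : ℝ | 1 < |x|}, (0 : ℝ))) := by
      apply tendsto_integral_filter_of_dominated_convergence
        (fun x : ℝ => 1 / (|x| * √(x ^ 2 - 1)))
      · exact Eventually.of_forall fun m => (hme m).aestronglyMeasurable
      · filter_upwards [eventually_ge_atTop 2] with m hm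
        refine (ae_restrict_iff' rr_set).2 (Eventually.of_forall fun x hx => ?_)
        exact rr_bd hx hm
      · exact rr_dom
      · refine (ae_restrict_iff' rr_set).2 (Eventually.of_forall fun x hx => ?_)
        obtain ⟨h1, h2, h3, h4⟩ := rr_facts hx
        have t := (tendsto_pow_atTop_nhds_zero_of_lt_one h2.le h3).div_const (1 - rr x)
        simpa using t
    simpa using h1

end Pool.Dav
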