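import Pool.Agent.Helper458.Dav.Defs
import Pool.Agent.Helper458.Dav.P_V_lower
import Pool.Agent.Helper458.Dav.P_Gm_props
import Pool.Agent.Helper458.Dav.P_Gm_tail
import Pool.Agent.Helper458.Dav.P_rr_int
import Pool.Agent.Helper458.Dav.P_V_identity

set_option autoImplicit false

open MeasureTheory Filter Topology Set Metric
open scoped Real ENNReal

namespace Pool.Dav



theorem U0_nn : 0 ≤ U0 := by
  unfold U0
  refine integral_nonneg fun s => ?_
  have h := Real.cosh_pos (π * s / 2)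
  positivity

theorem Gm_integrable (m : ℕ) (hm : 2 ≤ m) (δ : ℝ) (hδ : 0 < δ) :
    Integrable (fun x : ℝ => Gm m δ x) := by
  obtain ⟨h1, h2, C, h3⟩ := Gm_props m hm δ hδ
  have hc : Continuous (fun x : ℝ => Gm m δ x) := by
    have h4 : ContinuousOn (Gm m δ) {z : ℂ | -δ < z.im} := h1.continuousOn
    refine h4.comp_continuous Complex.continuous_ofReal fun x => ?_
    show -δ < (x : ℂ).im
    rw [Complex.ofReal_im]
    linarith
  refine Integrable.mono' (g := fun x : ℝ => C * (1 + x ^ 2)⁻¹)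
    (integrable_inv_one_add_sq.const_mul C) hc.aestronglyMeasurable
    (Filter.Eventually.of_forall fun x => ?_)
  have h5 := h3 x (by rw [Complex.ofReal_im])
  rw [Complex.norm_real, Real.norm_eq_abs, sq_abs, div_eq_mul_inv] at h5
  exact h5

theorem Gm_L1 (m : ℕ) (hm : 2 ≤ m) (δ : ℝ) (hδ : 0 < δ) :
    Integrable (fun x : ℝ => (Gm m δ x).re) ∧
    ∫ x : ℝ, |(Gm m δ x).re| ≤ 2 * U0
      + (U0 + 1) * ((4 / π) * ∫ x in {x : ℝ | 1 < |x|}, rr x ^ m / (1 - rr x)) := by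
  have hG := Gm_integrable m hm δ hδ
  have hre : Integrable (fun x : ℝ => (Gm m δ x).re) := hG.re
  refine ⟨hre, ?_⟩
  have hU := U0_nn
  obtain ⟨_, him, _⟩ := Gm_props m hm δ hδ
  obtain ⟨hV1, hV2⟩ := V_identity m hm δ hδ
  have him' : ∀ x : ℝ, |(Gm m δ x).im| < 1 := fun x => him x (by rw [Complex.ofReal_im]; linarith)
  have hVl : ∀ x : ℝ, |(Gm m δ x).re| ≤ V (Gm m δ x ^ 2) ∧
      U0 - V (Gm m δ x ^ 2) ≤ U0 * |(Gm m δ x).im| := fun x => V_lower _ (him' x)
  obtain ⟨E, hE⟩ : ∃ E : Set ℝ, E = {x : ℝ | 1 < |x|} := ⟨_, rfl⟩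
  have hEm : MeasurableSet E := by
    rw [hE]
    exact (isOpen_lt continuous_const continuous_abs).measurableSet
  have hEc : Eᶜ = Icc (-1) 1 := by
    rw [hE]
    ext x
    rw [Set.mem_compl_iff, Set.mem_setOf_eq, not_lt, abs_le, Set.mem_Icc]
  have hvol : volume (Eᶜ) = ENNReal.ofReal 2 := by
    rw [hEc, Real.volume_Icc]
    norm_num
  have hfin : volume (Eᶜ) ≠ ⊤ := by
    rw [hvol]
    exact ENNReal.ofReal_ne_top
  have hvolr : volume.real (Eᶜ) = 2 := by
    rw [Measure.real, hvol]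
    exact ENNReal.toReal_ofReal (by norm_num)
  -- the tail
  have hT : ∫ x in E, ‖Gm m δ x‖ ≤ (4 / π) * ∫ x in E, rr x ^ m / (1 - rr x) := by
    rw [← integral_const_mul]
    refine setIntegral_mono_on hG.norm.integrableOn ?_ hEm fun x hx => ?_
    · have := rr_int.1 m hm
      rw [← hE] at this
      exact this.const_mul _
    · rw [hE] at hx
      exact Gm_tail m hm δ hδ x hx
  rw [← hE]
  obtain ⟨T, hTT⟩ : ∃ T : ℝ, T = (4 / π) * ∫ x in E, rr x ^ m / (1 - rr x) := ⟨_, rfl⟩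
  rw [← hTT] at hT ⊢
  have hsplit := integral_add_compl hEm hre.abs
  have h1 : ∫ x in E, |(Gm m δ x).re| ≤ T := by
    refine le_trans ?_ hT
    exact setIntegral_mono hre.abs.integrableOn hG.norm.integrableOn
      fun x => Complex.abs_re_le_norm _
  have hcI : IntegrableOn (fun _ : ℝ => U0) Eᶜ := integrableOn_const hfin
  have hVI : IntegrableOn (fun x : ℝ => V (Gm m δ x ^ 2)) Eᶜ := by
    have := hV1.integrableOn.add hcI
    refine this.congr_fun (fun x _ => ?_) hEm.compl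
    show V (Gm m δ x ^ 2) - U0 + U0 = V (Gm m δ x ^ 2)
    ring
  have h2 : ∫ x in Eᶜ, |(Gm m δ x).re| ≤ ∫ x in Eᶜ, V (Gm m δ x ^ 2) :=
    setIntegral_mono hre.abs.integrableOn hVI fun x => (hVl x).1
  have h3 : ∫ x in Eᶜ, V (Gm m δ x ^ 2) = (∫ x in Eᶜ, (V (Gm m δ x ^ 2) - U0)) + 2 * U0 := by
    rw [integral_sub hVI hcI, setIntegral_const, hvolr, smul_eq_mul]
    ring
  have hsplit2 := integral_add_compl hEm hV1
  rw [hV2] at hsplit2
  have h4 : ∫ x in E, (U0 - V (Gm m δ x ^ 2)) = - ∫ x in E, (V (Gm m δ x ^ 2) - U0) := by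
    rw [← integral_neg]
    congr 1
    funext x
    ring
  have h5 : ∫ x in E, (U0 - V (Gm m δ x ^ 2)) ≤ U0 * T := by
    have hI : IntegrableOn (fun x : ℝ => U0 - V (Gm m δ x ^ 2)) E := by
      refine (hV1.neg.integrableOn).congr_fun (fun x _ => ?_) hEm
      show -(V (Gm m δ x ^ 2) - U0) = U0 - V (Gm m δ x ^ 2)
      ring
    have h6 : ∫ x in E, (U0 - V (Gm m δ x ^ 2)) ≤ ∫ x in E, U0 * ‖Gm m δ x‖ := by
      refine setIntegral_mono hI (hG.norm.const_mul U0).integrableOn fun x => ?_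
      exact ((hVl x).2).trans (mul_le_mul_of_nonneg_left (Complex.abs_im_le_norm _) hU)
    rw [integral_const_mul] at h6
    exact h6.trans (mul_le_mul_of_nonneg_left hT hU)
  linarith

end Pool.Dav
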