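import Pool.Agent.Helper458.Dav.Defs

set_option autoImplicit false

open MeasureTheory Filter Topology Set Metric
open scoped Real ENNReal

namespace Pool.Dav



theorem log_neg_aux (a : ℝ) (ha : 0 < a) :
    Complex.log (-(a : ℂ)) = ((Real.log a : ℝ) : ℂ) + π * Complex.I := by
  have hn : ‖-(a : ℂ)‖ = a := by
    rw [norm_neg, Complex.norm_real, Real.norm_of_nonneg ha.le]
  have harg : Complex.arg (-(a : ℂ)) = π := by
    have := Complex.arg_ofReal_of_neg (x := -a) (by linarith)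
    push_cast at this
    exact this
  rw [Complex.log, hn, harg]

theorem cpow_half_lim_pos (a : ℝ) (ha : 0 < a) :
    Tendsto (fun δ : ℝ => ((a : ℂ) + δ * Complex.I) ^ (1 / 2 : ℂ)) (𝓝[>] (0 : ℝ))
      (𝓝 ((√a : ℝ) : ℂ)) := by
  have h1 : ContinuousAt (fun δ : ℝ => ((a : ℂ) + δ * Complex.I) ^ (1 / 2 : ℂ)) 0 := by
    apply ContinuousAt.cpow
    · fun_prop
    · fun_prop
    · simp [Complex.mem_slitPlane_iff, ha]
  have h2 := h1.tendsto
  have h3 : ((a : ℂ) + ((0 : ℝ) : ℂ) * Complex.I) ^ (1 / 2 : ℂ) = ((√a : ℝ) : ℂ) := by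
    rw [Real.sqrt_eq_rpow, Complex.ofReal_cpow ha.le]
    simp
  rw [h3] at h2
  exact h2.mono_left nhdsWithin_le_nhds

theorem cpow_half_lim_neg (a : ℝ) (ha : 0 < a) :
    Tendsto (fun δ : ℝ => ((-a : ℂ) + δ * Complex.I) ^ (1 / 2 : ℂ)) (𝓝[>] (0 : ℝ))
      (𝓝 (Complex.I * ((√a : ℝ) : ℂ))) := by
  have h1 := Complex.continuousWithinAt_log_of_re_neg_of_im_zero (z := ((-a : ℝ) : ℂ))
    (by simpa using ha) (by simp)
  have h2 : Tendsto (fun δ : ℝ => ((-a : ℂ) + δ * Complex.I)) (𝓝[>] (0 : ℝ))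
      (𝓝[{z : ℂ | 0 ≤ z.im}] ((-a : ℝ) : ℂ)) := by
    apply tendsto_nhdsWithin_of_tendsto_nhds_of_eventually_within
    · have : Continuous (fun δ : ℝ => ((-a : ℂ) + δ * Complex.I)) := by fun_prop
      have h := this.tendsto 0
      have h0 : ((-a : ℂ) + ((0 : ℝ) : ℂ) * Complex.I) = ((-a : ℝ) : ℂ) := by
        push_cast; ring
      rw [h0] at h
      exact h.mono_left nhdsWithin_le_nhds
    · filter_upwards [self_mem_nhdsWithin] with δ hδ
      have : (0 : ℝ) < δ := hδ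
      simp [this.le]
  have h3 := h1.tendsto.comp h2
  have h4 : Tendsto (fun δ : ℝ => Complex.exp (Complex.log ((-a : ℂ) + δ * Complex.I) * (1 / 2 : ℂ)))
      (𝓝[>] (0 : ℝ)) (𝓝 (Complex.exp (Complex.log (((-a : ℝ) : ℂ)) * (1 / 2 : ℂ)))) := by
    exact (Complex.continuous_exp.tendsto _).comp (h3.mul_const _)
  have h5 : Complex.exp (Complex.log (((-a : ℝ) : ℂ)) * (1 / 2 : ℂ)) = Complex.I * ((√a : ℝ) : ℂ) := by
    have e1 : Complex.log (((-a : ℝ) : ℂ)) = ((Real.log a : ℝ) : ℂ) + π * Complex.I := by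
      have : (((-a : ℝ) : ℂ)) = -(a : ℂ) := by push_cast; ring
      rw [this, log_neg_aux a ha]
    rw [e1, add_mul, Complex.exp_add]
    have e2 : Complex.exp (((Real.log a : ℝ) : ℂ) * (1 / 2 : ℂ)) = ((√a : ℝ) : ℂ) := by
      rw [Real.sqrt_eq_rpow, Real.rpow_def_of_pos ha]
      push_cast
      rfl
    have e3 : Complex.exp ((π : ℂ) * Complex.I * (1 / 2 : ℂ)) = Complex.I := by
      have : (π : ℂ) * Complex.I * (1 / 2 : ℂ) = (π / 2 : ℂ) * Complex.I := by ring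
      rw [this]
      exact Complex.exp_pi_div_two_mul_I
    rw [e2, e3]; ring
  rw [h5] at h4
  refine h4.congr' ?_
  filter_upwards [self_mem_nhdsWithin] with δ hδ
  have hne : ((-a : ℂ) + δ * Complex.I) ≠ 0 := by
    intro h
    have := congrArg Complex.re h
    simp at this
    linarith
  rw [Complex.cpow_def_of_ne_zero hne]

theorem J_lim (x : ℝ) (hx : |x| < 1) :
    Tendsto (fun δ : ℝ => J ((x : ℂ) + δ * Complex.I)) (𝓝[>] (0 : ℝ))
      (𝓝 ((x : ℂ) - Complex.I * ((√(1 - x ^ 2) : ℝ) : ℂ))) := by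
  have hx1 : 0 < x + 1 := by have := (abs_lt.mp hx).1; linarith
  have hx2 : 0 < 1 - x := by have := (abs_lt.mp hx).2; linarith
  have h1 := cpow_half_lim_pos (x + 1) hx1
  have h2 := cpow_half_lim_neg (1 - x) hx2
  have h3 : Tendsto (fun δ : ℝ => ((x : ℂ) + δ * Complex.I)) (𝓝[>] (0 : ℝ)) (𝓝 (x : ℂ)) := by
    have : Continuous (fun δ : ℝ => ((x : ℂ) + δ * Complex.I)) := by fun_prop
    have h := this.tendsto 0
    have h0 : ((x : ℂ) + ((0 : ℝ) : ℂ) * Complex.I) = (x : ℂ) := by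
      push_cast; ring
    rw [h0] at h
    exact h.mono_left nhdsWithin_le_nhds
  have h4 := h3.sub (h2.mul h1)
  have h5 : (x : ℂ) - Complex.I * ((√(1 - x) : ℝ) : ℂ) * ((√(x + 1) : ℝ) : ℂ)
      = (x : ℂ) - Complex.I * ((√(1 - x ^ 2) : ℝ) : ℂ) := by
    have : √(1 - x ^ 2) = √(1 - x) * √(x + 1) := by
      rw [← Real.sqrt_mul hx2.le]; congr 1; ring
    rw [this]; push_cast; ring
  rw [h5] at h4
  refine h4.congr ?_
  intro δ
  unfold J
  have e1 : (-((1 - x : ℝ) : ℂ) + (δ : ℂ) * Complex.I) = (x : ℂ) + δ * Complex.I - 1 := by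
    push_cast; ring
  have e2 : (((x + 1 : ℝ) : ℂ) + (δ : ℂ) * Complex.I) = (x : ℂ) + δ * Complex.I + 1 := by
    push_cast; ring
  rw [e1, e2]

end Pool.Dav
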