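import Pool.Agent.Helper458.Dav.Defs

set_option autoImplicit false

open MeasureTheory Filter Topology Set Metric
open scoped Real ENNReal

namespace Pool.Dav



theorem Phi_lim (b : ℂ) (hb : ‖b‖ = 1) (h1 : b ≠ 1) (h2 : b ≠ -1) :
    Tendsto (fun x => |(Phi x).im|) (𝓝 b) (𝓝 1) := by
  have hn : b.re ^ 2 + b.im ^ 2 = 1 := by
    have h3 : ‖b‖ ^ 2 = b.re ^ 2 + b.im ^ 2 := by
      rw [← Complex.normSq_eq_norm_sq, Complex.normSq_apply]; ring
    rw [← h3, hb, one_pow]
  have him : b.im ≠ 0 := by
    intro h0
    rw [h0] at hn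
    have h4 : (b.re - 1) * (b.re + 1) = 0 := by nlinarith
    rcases mul_eq_zero.1 h4 with h5 | h5
    · exact h1 (Complex.ext (by simp; linarith) (by simp [h0]))
    · exact h2 (Complex.ext (by simp; linarith) (by simp [h0]))
  have him2 : 0 < b.im ^ 2 := by positivity
  have hr1 : b.re < 1 := by nlinarith
  have hr2 : -1 < b.re := by nlinarith
  have hp : 0 < (1 + b).re := by simp; linarith
  have hm : 0 < (1 - b).re := by simp; linarith
  have hcont : ContinuousAt Phi b := by
    unfold Phi
    refine ContinuousAt.mul continuousAt_const (ContinuousAt.sub ?_ ?_)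
    · exact ContinuousAt.clog (continuousAt_const.add continuousAt_id) (Or.inl hp)
    · exact ContinuousAt.clog (continuousAt_const.sub continuousAt_id) (Or.inl hm)
  have hval : |(Phi b).im| = 1 := by
    have hp0 : (1 + b) ≠ 0 := fun h => by rw [h] at hp; simp at hp
    have hm0 : (1 - b) ≠ 0 := fun h => by rw [h] at hm; simp at hm
    have ha1 : |Complex.arg (1 + b)| < π / 2 := Complex.abs_arg_lt_pi_div_two_iff.2 (Or.inl hp)
    have ha2 : |Complex.arg (1 - b)| < π / 2 := Complex.abs_arg_lt_pi_div_two_iff.2 (Or.inl hm)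
    have hb1 := abs_lt.1 ha1
    have hb2 := abs_lt.1 ha2
    have hconj : Complex.arg ((starRingEnd ℂ) (1 - b)) = - Complex.arg (1 - b) := by
      rw [Complex.arg_conj, if_neg]
      intro h
      rw [h] at hb2
      linarith [Real.pi_pos, hb2.2]
    have hc0 : (starRingEnd ℂ) (1 - b) ≠ 0 := by
      rw [Ne, map_eq_zero]; exact hm0
    have hmul : Complex.arg ((1 + b) * (starRingEnd ℂ) (1 - b)) =
        Complex.arg (1 + b) + Complex.arg ((starRingEnd ℂ) (1 - b)) := by
      apply Complex.arg_mul hp0 hc0
      rw [hconj]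
      constructor
      · linarith [hb1.1, hb2.2]
      · linarith [hb1.2, hb2.1]
    have hprod_re : ((1 + b) * (starRingEnd ℂ) (1 - b)).re = 0 := by
      simp only [Complex.mul_re, Complex.add_re, Complex.one_re, Complex.add_im, Complex.one_im,
        Complex.conj_re, Complex.conj_im, Complex.sub_re, Complex.sub_im]
      nlinarith
    have hprod_im : ((1 + b) * (starRingEnd ℂ) (1 - b)).im = 2 * b.im := by
      simp only [Complex.mul_im, Complex.add_re, Complex.one_re, Complex.add_im, Complex.one_im,
        Complex.conj_re, Complex.conj_im, Complex.sub_re, Complex.sub_im]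
      ring
    have hdiff : |Complex.arg (1 + b) - Complex.arg (1 - b)| = π / 2 := by
      have h6 : Complex.arg (1 + b) - Complex.arg (1 - b) =
          Complex.arg ((1 + b) * (starRingEnd ℂ) (1 - b)) := by
        rw [hmul, hconj]; ring
      rw [h6]
      rcases lt_or_gt_of_ne him with h7 | h7
      · have h8 : Complex.arg ((1 + b) * (starRingEnd ℂ) (1 - b)) = -(π / 2) := by
          rw [Complex.arg_eq_neg_pi_div_two_iff]
          exact ⟨hprod_re, by rw [hprod_im]; linarith⟩
        rw [h8, abs_neg, abs_of_pos (by positivity)]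
      · have h8 : Complex.arg ((1 + b) * (starRingEnd ℂ) (1 - b)) = π / 2 := by
          rw [Complex.arg_eq_pi_div_two_iff]
          exact ⟨hprod_re, by rw [hprod_im]; linarith⟩
        rw [h8, abs_of_pos (by positivity)]
    have hPhi : (Phi b).im = 2 / π * (Complex.arg (1 + b) - Complex.arg (1 - b)) := by
      unfold Phi
      have h9 : ((2 : ℂ) / (π : ℂ)) = (((2 / π : ℝ)) : ℂ) := by push_cast; rfl
      rw [h9, Complex.im_ofReal_mul, Complex.sub_im, Complex.log_im, Complex.log_im]
    rw [hPhi, abs_mul, hdiff, abs_of_pos (by positivity : (0 : ℝ) < 2 / π)]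
    field_simp
  have h10 : Tendsto (fun x => |(Phi x).im|) (𝓝 b) (𝓝 |(Phi b).im|) :=
    ((Complex.continuous_im.continuousAt.comp hcont).abs)
  rwa [hval] at h10

end Pool.Dav
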