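import Pool.Agent.Helper458.Dav.Defs
import Pool.Agent.Helper458.Dav.P_J_lim
import Pool.Agent.Helper458.Dav.P_Phi_lim

set_option autoImplicit false

open MeasureTheory Filter Topology Set Metric
open scoped Real ENNReal

namespace Pool.Dav



lemma Gm_level_b_re (x : ℝ) : ((x : ℂ) - Complex.I * ((√(1 - x ^ 2) : ℝ) : ℂ)).re = x := by
  simp

lemma Gm_level_b_norm (x : ℝ) (hx : |x| < 1) :
    ‖((x : ℂ) - Complex.I * ((√(1 - x ^ 2) : ℝ) : ℂ))‖ = 1 := by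
  have h1 : (0:ℝ) ≤ 1 - x ^ 2 := by
    have := abs_lt.mp hx
    nlinarith
  have h2 : Complex.normSq ((x : ℂ) - Complex.I * ((√(1 - x ^ 2) : ℝ) : ℂ)) = 1 := by
    rw [Complex.normSq_apply]
    simp
    have := Real.mul_self_sqrt h1
    nlinarith
  rw [Complex.normSq_eq_norm_sq] at h2
  have h3 : 0 ≤ ‖((x : ℂ) - Complex.I * ((√(1 - x ^ 2) : ℝ) : ℂ))‖ := norm_nonneg _
  nlinarith

lemma Gm_level_fin (m : ℕ) (hm : 2 ≤ m) :
    {x : ℝ | ((x : ℂ) - Complex.I * ((√(1 - x ^ 2) : ℝ) : ℂ)) ^ (2 * m) = 1}.Finite := by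
  have hf : {z : ℂ | z ^ (2 * m) = 1}.Finite := by
    have hp : (Polynomial.X ^ (2 * m) - Polynomial.C (1:ℂ)) ≠ 0 :=
      Polynomial.X_pow_sub_C_ne_zero (by omega) 1
    refine (Polynomial.finite_setOf_isRoot hp).subset ?_
    intro z hz
    simp only [mem_setOf_eq] at hz ⊢
    simp [Polynomial.IsRoot, hz]
  have hinj : Function.Injective (fun x : ℝ => ((x : ℂ) - Complex.I * ((√(1 - x ^ 2) : ℝ) : ℂ))) := by
    intro x y hxy
    have := congrArg Complex.re hxy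
    simpa using this
  exact hf.preimage hinj.injOn

lemma Gm_level_tendsto (m : ℕ) (x : ℝ) (hx : |x| < 1)
    (hb : ((x : ℂ) - Complex.I * ((√(1 - x ^ 2) : ℝ) : ℂ)) ^ (2 * m) ≠ 1) :
    Tendsto (fun δ : ℝ => |(Gm m δ x).im|) (𝓝[>] (0 : ℝ)) (𝓝 1) := by
  have h1 := J_lim x hx
  have h2 : Tendsto (fun δ : ℝ => J ((x : ℂ) + δ * Complex.I) ^ m) (𝓝[>] (0 : ℝ))
      (𝓝 (((x : ℂ) - Complex.I * ((√(1 - x ^ 2) : ℝ) : ℂ)) ^ m)) := h1.pow m
  have h3 : ‖((x : ℂ) - Complex.I * ((√(1 - x ^ 2) : ℝ) : ℂ)) ^ m‖ = 1 := by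
    rw [norm_pow, Gm_level_b_norm x hx, one_pow]
  have h4 : ((x : ℂ) - Complex.I * ((√(1 - x ^ 2) : ℝ) : ℂ)) ^ m ≠ 1 := by
    intro h
    apply hb
    rw [mul_comm 2 m, pow_mul, h, one_pow]
  have h5 : ((x : ℂ) - Complex.I * ((√(1 - x ^ 2) : ℝ) : ℂ)) ^ m ≠ -1 := by
    intro h
    apply hb
    rw [mul_comm 2 m, pow_mul, h]
    norm_num
  have h6 := (Phi_lim _ h3 h4 h5).comp h2
  exact h6

theorem Gm_level (m : ℕ) (hm : 2 ≤ m) (ε : ℝ) (hε : 0 < ε) :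
    ∃ δ : ℝ, 0 < δ ∧ ENNReal.ofReal (2 - ε) ≤ volume {x : ℝ | 1 - ε < |(Gm m δ x).im|} := by
  set B : Set ℝ := {x : ℝ | ((x : ℂ) - Complex.I * ((√(1 - x ^ 2) : ℝ) : ℂ)) ^ (2 * m) = 1} with hB
  have hBfin : B.Finite := Gm_level_fin m hm
  have hB0 : volume B = 0 := hBfin.measure_zero _
  set A : ℕ → Set ℝ := fun n => {x : ℝ | ∀ k : ℕ, n ≤ k → 1 - ε < |(Gm m (1 / ((k : ℝ) + 1)) x).im|}
    with hA
  have hmono : Monotone A := by
    intro a b hab x hx k hk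
    exact hx k (hab.trans hk)
  have hcov : Ioo (-1 : ℝ) 1 \ B ⊆ ⋃ n, A n := by
    intro x hx
    have hx1 : |x| < 1 := abs_lt.mpr ⟨hx.1.1, hx.1.2⟩
    have ht := Gm_level_tendsto m x hx1 hx.2
    have hs : Tendsto (fun k : ℕ => (1 / ((k : ℝ) + 1) : ℝ)) atTop (𝓝[>] (0 : ℝ)) := by
      rw [tendsto_nhdsWithin_iff]
      refine ⟨tendsto_one_div_add_atTop_nhds_zero_nat, Filter.Eventually.of_forall fun k => ?_⟩
      simp only [mem_Ioi]
      positivity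
    have hc := ht.comp hs
    have he : ∀ᶠ k : ℕ in atTop, 1 - ε < |(Gm m (1 / ((k : ℝ) + 1) : ℝ) x).im| :=
      hc.eventually (lt_mem_nhds (by linarith))
    obtain ⟨n, hn⟩ := eventually_atTop.mp he
    refine mem_iUnion.mpr ⟨n, fun k hk => ?_⟩
    exact hn k hk
  have hvol : volume (Ioo (-1 : ℝ) 1 \ B) = ENNReal.ofReal 2 := by
    rw [measure_diff_null hB0, Real.volume_Ioo]
    norm_num
  have h2 : ENNReal.ofReal 2 ≤ ⨆ n, volume (A n) := by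
    rw [← hvol, ← hmono.measure_iUnion]
    exact measure_mono hcov
  have h3 : ENNReal.ofReal (2 - ε) < ⨆ n, volume (A n) :=
    lt_of_lt_of_le ((ENNReal.ofReal_lt_ofReal_iff (by norm_num)).mpr (by linarith)) h2
  obtain ⟨n, hn⟩ := lt_iSup_iff.mp h3
  refine ⟨1 / ((n : ℝ) + 1), by positivity, hn.le.trans (measure_mono ?_)⟩
  intro x hx
  exact hx n le_rfl

end Pool.Dav
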