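import Pool.Agent.Helper458.Dav.Defs

set_option autoImplicit false

open MeasureTheory Filter Topology Set Metric
open scoped Real ENNReal

namespace Pool.Dav



theorem PPk_cont (δ : ℝ) (hδ : 0 < δ) : Continuous (fun u : ℝ => π⁻¹ * (δ / (u ^ 2 + δ ^ 2))) := by
  have h : ∀ u : ℝ, u ^ 2 + δ ^ 2 ≠ 0 := fun u => by positivity
  exact continuous_const.mul (continuous_const.div (by fun_prop) h)

theorem PPk_eq (δ : ℝ) (hδ : 0 < δ) (u : ℝ) :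
    π⁻¹ * (δ / (u ^ 2 + δ ^ 2)) = π⁻¹ * δ⁻¹ * (1 + (δ⁻¹ * u) ^ 2)⁻¹ := by
  have h0 : δ ≠ 0 := hδ.ne'
  have h1 : u ^ 2 + δ ^ 2 ≠ 0 := by positivity
  have h2 : 1 + (δ⁻¹ * u) ^ 2 ≠ 0 := by positivity
  have h3 : 1 + (δ⁻¹ * u) ^ 2 = (u ^ 2 + δ ^ 2) / δ ^ 2 := by
    field_simp
    ring
  rw [h3]
  field_simp

theorem PPk_int (δ : ℝ) (hδ : 0 < δ) : Integrable (fun u : ℝ => π⁻¹ * (δ / (u ^ 2 + δ ^ 2))) := by
  have h1 : (fun u : ℝ => π⁻¹ * (δ / (u ^ 2 + δ ^ 2))) =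
      fun u => π⁻¹ * δ⁻¹ * (1 + (δ⁻¹ * u) ^ 2)⁻¹ := funext fun u => PPk_eq δ hδ u
  rw [h1]
  have h2 : Integrable (fun x : ℝ => (1 + x ^ 2)⁻¹) := integrable_inv_one_add_sq
  exact (h2.comp_mul_left' (inv_ne_zero hδ.ne')).const_mul _

theorem PPk_one (δ : ℝ) (hδ : 0 < δ) : ∫ u : ℝ, π⁻¹ * (δ / (u ^ 2 + δ ^ 2)) = 1 := by
  have h1 : (fun u : ℝ => π⁻¹ * (δ / (u ^ 2 + δ ^ 2))) =
      fun u => π⁻¹ * δ⁻¹ * (1 + (δ⁻¹ * u) ^ 2)⁻¹ := funext fun u => PPk_eq δ hδ u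
  rw [h1, integral_const_mul]
  have h3 := Measure.integral_comp_mul_left (fun x : ℝ => (1 + x ^ 2)⁻¹) δ⁻¹
  rw [h3, integral_univ_inv_one_add_sq, inv_inv, abs_of_pos hδ, smul_eq_mul]
  have h0 : δ ≠ 0 := hδ.ne'
  have h4 : (π : ℝ) ≠ 0 := Real.pi_ne_zero
  field_simp

theorem PP_L1 (f : ℝ → ℂ) (hf : Integrable f) (δ : ℝ) (hδ : 0 < δ) :
    Integrable (PP f δ) ∧ ∫ x, ‖PP f δ x‖ ≤ ∫ x, ‖f x‖ := by
  have hk := PPk_int δ hδ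
  have hkC : Integrable (fun u : ℝ => ((π⁻¹ * (δ / (u ^ 2 + δ ^ 2)) : ℝ) : ℂ)) := hk.ofReal
  have h1 : Integrable (PP f δ) := by
    have h2 := hf.integrable_convolution (ContinuousLinearMap.mul ℝ ℂ) hkC
    refine h2.congr (Filter.Eventually.of_forall fun x => ?_)
    show ∫ t, f t * ((π⁻¹ * (δ / ((x - t) ^ 2 + δ ^ 2)) : ℝ) : ℂ) = PP f δ x
    unfold PP
    congr 1
    funext t
    ring
  refine ⟨h1, ?_⟩
  have h3 := hf.norm.integrable_convolution (ContinuousLinearMap.mul ℝ ℝ) hk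
  have h4 := integral_convolution (ContinuousLinearMap.mul ℝ ℝ) (μ := volume) (ν := volume) hf.norm hk
  have h5 : ∫ x, ‖f x‖ = ∫ x, (convolution (fun t => ‖f t‖)
      (fun u : ℝ => π⁻¹ * (δ / (u ^ 2 + δ ^ 2))) (ContinuousLinearMap.mul ℝ ℝ) volume) x := by
    rw [h4, PPk_one δ hδ]
    simp
  rw [h5]
  refine integral_mono h1.norm h3 fun x => ?_
  show ‖PP f δ x‖ ≤ ∫ t, ‖f t‖ * (π⁻¹ * (δ / ((x - t) ^ 2 + δ ^ 2)))
  unfold PP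
  refine (norm_integral_le_integral_norm _).trans (le_of_eq ?_)
  congr 1
  funext t
  rw [norm_mul, Complex.norm_real, Real.norm_of_nonneg (by positivity), mul_comm]

end Pool.Dav
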