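import Pool.Agent.Helper458.Dav.Defs
import Pool.Agent.Helper458.Dav.P_V_cont
import Pool.Agent.Helper458.Dav.P_V_ge_rho
import Pool.Agent.Helper458.Dav.P_V_harm

set_option autoImplicit false

open MeasureTheory Filter Topology Set Metric
open scoped Real ENNReal

namespace Pool.Dav



theorem V_nonneg13920 (w : ℂ) : 0 ≤ V w := le_trans (Real.sqrt_nonneg _) (V_ge_rho w).1

theorem V_sub (w : ℂ → ℂ) (z : ℂ) (hw : ∀ᶠ x in 𝓝 z, DifferentiableAt ℂ w x) :
    SubAt (fun x => V (w x)) z := by
  by_cases h1 : ‖w z‖ - (w z).re < 2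
  · exact (V_harm w z hw h1).1
  push Not at h1
  have hV := (V_ge_rho (w z)).2 h1
  by_cases hpos : 0 < (‖w z‖ + (w z).re) / 2
  swap
  · -- value zero
    refine ⟨1, one_pos, fun r _ _ => ?_⟩
    have h0 : V (w z) = 0 := by
      rw [hV]; exact Real.sqrt_eq_zero_of_nonpos (not_lt.1 hpos)
    show V (w z) ≤ _
    rw [h0]
    exact Real.circleAverage_nonneg_of_nonneg (fun x _ => V_nonneg13920 (w x))
  · -- the holomorphic square root
    have hslit : w z ∈ Complex.slitPlane := by
      rw [Complex.mem_slitPlane_iff]
      by_contra hcon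
      push Not at hcon
      obtain ⟨hr, him⟩ := hcon
      have hn : ‖w z‖ = -(w z).re := by
        have : w z = ((w z).re : ℂ) := Complex.ext (by simp) (by simp [him])
        rw [this, Complex.norm_real, Complex.ofReal_re, Real.norm_eq_abs, abs_of_nonpos hr]
      rw [hn] at hpos
      linarith
    have hwc : ContinuousAt w z := (hw.self_of_nhds).continuousAt
    have hev : ∀ᶠ x in 𝓝 z, DifferentiableAt ℂ w x ∧ w x ∈ Complex.slitPlane :=
      hw.and (hwc.eventually (Complex.isOpen_slitPlane.mem_nhds hslit))
    obtain ⟨ε, hε, hball⟩ := Metric.eventually_nhds_iff_ball.1 hev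
    refine ⟨ε, hε, fun r hr hrε => ?_⟩
    have hcl : ∀ x ∈ closedBall z |r|, DifferentiableAt ℂ w x ∧ w x ∈ Complex.slitPlane := by
      intro x hx
      apply hball
      rw [abs_of_pos hr, mem_closedBall] at hx
      exact mem_ball.2 (lt_of_le_of_lt hx hrε)
    have hd : ∀ x ∈ closedBall z |r|, DifferentiableAt ℂ (fun x => (w x) ^ (2⁻¹ : ℂ)) x :=
      fun x hx => (hcl x hx).1.cpow_const (hcl x hx).2
    have hav : Real.circleAverage (fun x => (w x) ^ (2⁻¹ : ℂ)) z r = (w z) ^ (2⁻¹ : ℂ) :=
      circleAverage_of_differentiable_on_off_countable (s := ∅) countable_empty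
        (fun x hx => (hd x hx).continuousAt.continuousWithinAt)
        (fun x hx => hd x (ball_subset_closedBall hx.1))
    have hci : CircleIntegrable (fun x => (w x) ^ (2⁻¹ : ℂ)) z r := by
      apply ContinuousOn.circleIntegrable'
      intro x hx
      exact (hd x (sphere_subset_closedBall hx)).continuousAt.continuousWithinAt
    have hre := Complex.reCLM.circleAverage_comp_comm hci
    rw [hav] at hre
    have hval : V (w z) = ((w z) ^ (2⁻¹ : ℂ)).re := by
      rw [hV, Complex.cpow_inv_two_re]
    show V (w z) ≤ _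
    rw [hval, ← Complex.reCLM_apply, ← hre]
    apply Real.circleAverage_mono
    · apply ContinuousOn.circleIntegrable'
      intro x hx
      exact (Complex.reCLM.continuous.continuousAt.comp
        (hd x (sphere_subset_closedBall hx)).continuousAt).continuousWithinAt
    · apply ContinuousOn.circleIntegrable'
      intro x hx
      exact (ContinuousAt.comp (f := w) (g := V) V_cont.continuousAt
        (hcl x (sphere_subset_closedBall hx)).1.continuousAt).continuousWithinAt
    · intro x _
      show ((w x) ^ (2⁻¹ : ℂ)).re ≤ V (w x)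
      rw [Complex.cpow_inv_two_re]
      exact (V_ge_rho (w x)).1

end Pool.Dav
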