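import Pool.Agent.Helper458.Dav.Defs

set_option autoImplicit false

open MeasureTheory Filter Topology Set Metric
open scoped Real ENNReal

namespace Pool.Dav



theorem cau_eq_int (f : ℝ → ℝ) (hf : Integrable f) (C : ℝ) (p : ℝ → ℝ) (hp : Measurable p)
    (hb : ∀ t, |p t| ≤ C) : Integrable (fun t => p t * f t) := by
  refine (hf.norm.const_mul C).mono' (hp.aestronglyMeasurable.mul hf.aestronglyMeasurable) ?_
  refine Filter.Eventually.of_forall fun t => ?_
  rw [norm_mul]
  exact mul_le_mul_of_nonneg_right (hb t) (norm_nonneg _)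

theorem cau_eq (f : ℝ → ℝ) (hf : Integrable f) (δ x : ℝ) (hδ : 0 < δ) :
    PP (fun t => (f t : ℂ)) δ x = (((cau f (x + δ * Complex.I)).re : ℝ) : ℂ) ∧
    QQ (fun t => (f t : ℂ)) δ x = (((cau f (x + δ * Complex.I)).im : ℝ) : ℂ) := by
  set p : ℝ → ℝ := fun t => π⁻¹ * (δ / ((x - t) ^ 2 + δ ^ 2)) with hp
  set q : ℝ → ℝ := fun t => π⁻¹ * ((x - t) / ((x - t) ^ 2 + δ ^ 2)) with hq
  have hden : ∀ t : ℝ, 0 < (x - t) ^ 2 + δ ^ 2 := fun t => by positivity
  have hπ : 0 < π⁻¹ := inv_pos.2 Real.pi_pos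
  have hpm : Measurable p := by fun_prop
  have hqm : Measurable q := by fun_prop
  have hpb : ∀ t, |p t| ≤ π⁻¹ * δ⁻¹ := by
    intro t
    simp only [hp]
    rw [abs_mul, abs_of_pos hπ, abs_of_pos (div_pos hδ (hden t))]
    refine mul_le_mul_of_nonneg_left ?_ hπ.le
    rw [div_le_iff₀ (hden t), ← div_eq_inv_mul, le_div_iff₀ hδ]
    nlinarith [sq_nonneg (x - t)]
  have hqb : ∀ t, |q t| ≤ π⁻¹ * δ⁻¹ := by
    intro t
    simp only [hq]
    rw [abs_mul, abs_of_pos hπ, abs_div, abs_of_pos (hden t)]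
    refine mul_le_mul_of_nonneg_left ?_ hπ.le
    rw [div_le_iff₀ (hden t), ← div_eq_inv_mul, le_div_iff₀ hδ]
    nlinarith [sq_abs (x - t), sq_nonneg (|x - t| - δ), abs_nonneg (x - t)]
  have hpf := cau_eq_int f hf _ p hpm hpb
  have hqf := cau_eq_int f hf _ q hqm hqb
  have hpt : ∀ t : ℝ, (Complex.I / π) * ((f t : ℂ) / ((x : ℂ) + δ * Complex.I - t)) =
      ((p t * f t : ℝ) : ℂ) + Complex.I * ((q t * f t : ℝ) : ℂ) := by
    intro t
    have hne : ((x : ℂ) + δ * Complex.I - t) ≠ 0 := by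
      intro h
      have := congrArg Complex.im h
      simp at this
      exact hδ.ne' this
    have hne2 : (((x - t) ^ 2 + δ ^ 2 : ℝ) : ℂ) ≠ 0 := by exact_mod_cast (hden t).ne'
    have hπ0 : (π : ℂ) ≠ 0 := by exact_mod_cast Real.pi_ne_zero
    have hprod : (((x - t) ^ 2 + δ ^ 2 : ℝ) : ℂ) =
        ((x : ℂ) + δ * Complex.I - t) * ((x : ℂ) - δ * Complex.I - t) := by
      push_cast
      linear_combination ((δ : ℂ) ^ 2) * Complex.I_sq
    have e1 : Complex.I / ((x : ℂ) + δ * Complex.I - t) =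
        ((δ : ℂ) + Complex.I * ((x : ℂ) - t)) / (((x - t) ^ 2 + δ ^ 2 : ℝ) : ℂ) := by
      rw [div_eq_div_iff hne hne2, hprod]
      linear_combination (-((x : ℂ) + δ * Complex.I - t) * δ) * Complex.I_sq
    calc (Complex.I / π) * ((f t : ℂ) / ((x : ℂ) + δ * Complex.I - t))
        = (Complex.I / ((x : ℂ) + δ * Complex.I - t)) * ((f t : ℂ) / π) := by
          field_simp
      _ = (((δ : ℂ) + Complex.I * ((x : ℂ) - t)) / (((x - t) ^ 2 + δ ^ 2 : ℝ) : ℂ)) *
          ((f t : ℂ) / π) := by rw [e1]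
      _ = _ := by
          simp only [hp, hq]
          push_cast
          push_cast at hne2
          field_simp
  have hcau : cau f (x + δ * Complex.I) =
      ((∫ t, p t * f t : ℝ) : ℂ) + Complex.I * ((∫ t, q t * f t : ℝ) : ℂ) := by
    unfold cau
    rw [← integral_const_mul]
    simp only [hpt]
    have i1 : Integrable (fun t => ((p t * f t : ℝ) : ℂ)) := hpf.ofReal
    have i2 : Integrable (fun t => Complex.I * ((q t * f t : ℝ) : ℂ)) := hqf.ofReal.const_mul _
    rw [integral_add i1 i2, integral_const_mul, integral_complex_ofReal, integral_complex_ofReal]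
  constructor
  · rw [hcau]
    unfold PP
    have e2 : (fun t => ((π⁻¹ * (δ / ((x - t) ^ 2 + δ ^ 2)) : ℝ) : ℂ) * (f t : ℂ)) =
        fun t => ((p t * f t : ℝ) : ℂ) := by
      funext t
      simp only [hp]
      push_cast
      ring
    rw [e2, integral_complex_ofReal]
    simp
  · rw [hcau]
    unfold QQ
    have e2 : (fun t => ((π⁻¹ * ((x - t) / ((x - t) ^ 2 + δ ^ 2)) : ℝ) : ℂ) * (f t : ℂ)) =
        fun t => ((q t * f t : ℝ) : ℂ) := by
      funext t
      simp only [hq]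
      push_cast
      ring
    rw [e2, integral_complex_ofReal]
    simp

end Pool.Dav
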