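import Pool.Agent.Helper458.Dav.Defs
import Pool.Agent.Helper458.Dav.P_cau_eq

set_option autoImplicit false

open MeasureTheory Filter Topology Set Metric
open scoped Real ENNReal

namespace Pool.Dav



theorem cau_PQ_aux (f : ℝ → ℂ) (hf : Integrable f) (K : ℝ → ℝ) (hK : Continuous K) (C : ℝ)
    (hC : ∀ t, |K t| ≤ C) (a b : ℝ)
    (ha : ∫ t, ((K t : ℝ) : ℂ) * (((f t).re : ℝ) : ℂ) = (a : ℂ))
    (hb : ∫ t, ((K t : ℝ) : ℂ) * (((f t).im : ℝ) : ℂ) = (b : ℂ)) :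
    ‖∫ t, ((K t : ℝ) : ℂ) * f t‖ = √(a ^ 2 + b ^ 2) := by
  have hKc : Continuous (fun t => ((K t : ℝ) : ℂ)) := Complex.continuous_ofReal.comp hK
  have hKb : ∀ t, ‖((K t : ℝ) : ℂ)‖ ≤ C := fun t => by
    rw [Complex.norm_real]; exact hC t
  have h1 : Integrable (fun t => ((K t : ℝ) : ℂ) * (((f t).re : ℝ) : ℂ)) :=
    (hf.re.ofReal).bdd_mul hKc.aestronglyMeasurable (Filter.Eventually.of_forall hKb)
  have h2 : Integrable (fun t => ((K t : ℝ) : ℂ) * (((f t).im : ℝ) : ℂ)) :=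
    (hf.im.ofReal).bdd_mul hKc.aestronglyMeasurable (Filter.Eventually.of_forall hKb)
  have e : (fun t => ((K t : ℝ) : ℂ) * f t) = fun t => ((K t : ℝ) : ℂ) * (((f t).re : ℝ) : ℂ) +
      (((K t : ℝ) : ℂ) * (((f t).im : ℝ) : ℂ)) * Complex.I := by
    funext t
    have := Complex.re_add_im (f t)
    linear_combination -((K t : ℝ) : ℂ) * this
  rw [e, integral_add h1 (h2.mul_const _), integral_mul_const, ha, hb, Complex.norm_add_mul_I]

theorem cau_PQ (f : ℝ → ℂ) (hf : Integrable f) (δ x : ℝ) (hδ : 0 < δ) :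
    ‖PP f δ x‖ = √((cau (fun t => (f t).re) (x + δ * Complex.I)).re ^ 2
      + (cau (fun t => (f t).im) (x + δ * Complex.I)).re ^ 2) ∧
    ‖QQ f δ x‖ = √((cau (fun t => (f t).re) (x + δ * Complex.I)).im ^ 2
      + (cau (fun t => (f t).im) (x + δ * Complex.I)).im ^ 2) := by
  obtain ⟨r1, r2⟩ := cau_eq (fun t => (f t).re) hf.re δ x hδ
  obtain ⟨i1, i2⟩ := cau_eq (fun t => (f t).im) hf.im δ x hδ
  have hden : ∀ t : ℝ, 0 < (x - t) ^ 2 + δ ^ 2 := fun t => by positivity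
  have hcd : Continuous (fun t : ℝ => (x - t) ^ 2 + δ ^ 2) := by fun_prop
  constructor
  · refine cau_PQ_aux f hf (fun t => π⁻¹ * (δ / ((x - t) ^ 2 + δ ^ 2))) ?_ (π⁻¹ * (1 / δ)) ?_ _ _ r1 i1
    · exact continuous_const.mul (continuous_const.div hcd fun t => (hden t).ne')
    · intro t
      rw [abs_mul, abs_of_pos (inv_pos.2 Real.pi_pos), abs_of_nonneg (div_nonneg hδ.le (hden t).le)]
      refine mul_le_mul_of_nonneg_left ?_ (inv_pos.2 Real.pi_pos).le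
      rw [div_le_div_iff₀ (hden t) hδ]
      nlinarith [sq_nonneg (x - t)]
  · refine cau_PQ_aux f hf (fun t => π⁻¹ * ((x - t) / ((x - t) ^ 2 + δ ^ 2))) ?_ (π⁻¹ * (1 / δ)) ?_ _ _ r2 i2
    · refine continuous_const.mul (Continuous.div (by fun_prop) hcd fun t => (hden t).ne')
    · intro t
      rw [abs_mul, abs_of_pos (inv_pos.2 Real.pi_pos), abs_div, abs_of_pos (hden t)]
      refine mul_le_mul_of_nonneg_left ?_ (inv_pos.2 Real.pi_pos).le
      rw [div_le_div_iff₀ (hden t) hδ]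
      have h3 : |x - t| ^ 2 = (x - t) ^ 2 := sq_abs _
      nlinarith [sq_nonneg (|x - t| - δ), abs_nonneg (x - t)]

end Pool.Dav
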