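import Pool.Agent.Helper458.Dav.Defs

set_option autoImplicit false

open MeasureTheory Filter Topology Set Metric
open scoped Real ENNReal

namespace Pool.Dav



theorem cau_bound (f : ℝ → ℝ) (hf : Integrable f) (R : ℝ) (hR : ∀ t, R < |t| → f t = 0)
    (δ : ℝ) (hδ : 0 < δ) : ∃ C : ℝ, ∀ z : ℂ, δ ≤ z.im → ‖cau f z‖ ≤ C / (1 + ‖z‖) := by
  set K : ℝ := (1 + |R|) / δ + 1 with hK
  have hK0 : 0 < K := by positivity
  refine ⟨(1 / π) * (K * ∫ t, |f t|), fun z hz => ?_⟩
  have hz0 : 0 < 1 + ‖z‖ := by positivity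
  have hpt : ∀ t : ℝ, ‖(f t : ℂ) / (z - t)‖ ≤ |f t| * (K / (1 + ‖z‖)) := by
    intro t
    by_cases ht : R < |t|
    · rw [hR t ht]; simp
    · push Not at ht
      have h1 : δ ≤ ‖z - t‖ := by
        have h2 := Complex.abs_im_le_norm (z - t)
        rw [Complex.sub_im, Complex.ofReal_im, sub_zero] at h2
        exact hz.trans ((le_abs_self _).trans h2)
      have h3 : ‖z‖ ≤ ‖z - t‖ + |R| := by
        have h4 : ‖z‖ ≤ ‖z - t‖ + ‖(t : ℂ)‖ := by
          have : z = (z - t) + t := by ring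
          calc ‖z‖ = ‖(z - t) + t‖ := by rw [← this]
            _ ≤ _ := norm_add_le _ _
        rw [Complex.norm_real, Real.norm_eq_abs] at h4
        exact h4.trans (add_le_add le_rfl (ht.trans (le_abs_self R)))
      have hpos : 0 < ‖z - t‖ := hδ.trans_le h1
      have h5 : 1 + ‖z‖ ≤ K * ‖z - t‖ := by
        have h6 : 1 + |R| ≤ (1 + |R|) / δ * ‖z - t‖ := by
          rw [div_mul_eq_mul_div, le_div_iff₀ hδ]
          exact mul_le_mul_of_nonneg_left h1 (by positivity)
        rw [hK]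
        linarith
      rw [norm_div, Complex.norm_real, Real.norm_eq_abs, div_eq_mul_inv]
      refine mul_le_mul_of_nonneg_left ?_ (abs_nonneg _)
      rw [inv_eq_one_div, div_le_div_iff₀ hpos hz0, one_mul]
      exact h5
  have hint : Integrable fun t => |f t| * (K / (1 + ‖z‖)) := hf.abs.mul_const _
  have h7 : ‖∫ t : ℝ, (f t : ℂ) / (z - t)‖ ≤ (∫ t, |f t|) * (K / (1 + ‖z‖)) := by
    rw [← integral_mul_const]
    exact norm_integral_le_of_norm_le hint (Filter.Eventually.of_forall hpt)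
  unfold cau
  rw [norm_mul, norm_div, Complex.norm_I, Complex.norm_real, Real.norm_of_nonneg Real.pi_pos.le]
  calc 1 / π * ‖∫ t : ℝ, (f t : ℂ) / (z - t)‖ ≤ 1 / π * ((∫ t, |f t|) * (K / (1 + ‖z‖))) :=
        mul_le_mul_of_nonneg_left h7 (by positivity)
    _ = 1 / π * (K * ∫ t, |f t|) / (1 + ‖z‖) := by ring

end Pool.Dav
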