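import Pool.Agent.Helper458.Dav.Defs

set_option autoImplicit false

open MeasureTheory Filter Topology Set Metric
open scoped Real ENNReal

namespace Pool.Dav



theorem cau_diff_aux_norm {z : ℂ} {y : ℝ} (t : ℝ) (hz : y ≤ z.im) : y ≤ ‖z - t‖ := by
  have h1 := Complex.abs_im_le_norm (z - t)
  have h2 : (z - (t : ℂ)).im = z.im := by simp
  rw [h2] at h1
  exact hz.trans ((le_abs_self _).trans h1)

theorem cau_diff_aux_meas (f : ℝ → ℝ) (hf : Integrable f) (z : ℂ) (n : ℕ) :
    AEStronglyMeasurable (fun t : ℝ => (f t : ℂ) * ((z - t) ^ n)⁻¹) volume := by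
  have h1 : AEStronglyMeasurable (fun t : ℝ => (f t : ℂ)) volume := hf.ofReal.aestronglyMeasurable
  have h2 : Measurable (fun t : ℝ => ((z - (t : ℂ)) ^ n)⁻¹) :=
    ((measurable_const.sub Complex.measurable_ofReal).pow_const n).inv
  exact h1.mul h2.aestronglyMeasurable

theorem cau_diff (f : ℝ → ℝ) (hf : Integrable f) : DifferentiableOn ℂ (cau f) {z : ℂ | 0 < z.im} := by
  intro z₀ hz₀
  have hy : 0 < z₀.im := hz₀
  have hy2 : 0 < z₀.im / 2 := by linarith
  have hs : {z : ℂ | z₀.im / 2 < z.im} ∈ 𝓝 z₀ := by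
    have ho : IsOpen {z : ℂ | z₀.im / 2 < z.im} := isOpen_lt continuous_const Complex.continuous_im
    apply ho.mem_nhds
    show z₀.im / 2 < z₀.im
    linarith
  have key := hasDerivAt_integral_of_dominated_loc_of_deriv_le (μ := volume)
    (F := fun (z : ℂ) (t : ℝ) => (f t : ℂ) / (z - t))
    (F' := fun (z : ℂ) (t : ℝ) => -((f t : ℂ) * ((z - t) ^ 2)⁻¹))
    (bound := fun t => |f t| * ((z₀.im / 2) ^ 2)⁻¹) (x₀ := z₀) hs
    (Filter.Eventually.of_forall fun z => by
      have := cau_diff_aux_meas f hf z 1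
      simpa [div_eq_mul_inv] using this)
    (by
      refine Integrable.mono' (hf.abs.mul_const ((z₀.im / 2)⁻¹)) ?_ ?_
      · have := cau_diff_aux_meas f hf z₀ 1
        simpa [div_eq_mul_inv] using this
      · refine Filter.Eventually.of_forall fun t => ?_
        rw [norm_div, Complex.norm_real, Real.norm_eq_abs, div_eq_mul_inv]
        apply mul_le_mul_of_nonneg_left _ (abs_nonneg _)
        apply inv_anti₀ hy2
        exact cau_diff_aux_norm t (by linarith))
    (cau_diff_aux_meas f hf z₀ 2).neg
    (Filter.Eventually.of_forall fun t z hz => by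
      have hz' : z₀.im / 2 < z.im := hz
      rw [norm_neg, norm_mul, Complex.norm_real, Real.norm_eq_abs, norm_inv, norm_pow]
      apply mul_le_mul_of_nonneg_left _ (abs_nonneg _)
      apply inv_anti₀ (by positivity)
      exact pow_le_pow_left₀ hy2.le (cau_diff_aux_norm t hz'.le) 2)
    (hf.abs.mul_const _)
    (Filter.Eventually.of_forall fun t z hz => by
      have hz' : z₀.im / 2 < z.im := hz
      have h1 : z - (t : ℂ) ≠ 0 := by
        have := cau_diff_aux_norm t hz'.le
        intro h0
        rw [h0, norm_zero] at this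
        linarith
      have h2 : HasDerivAt (fun z : ℂ => z - (t : ℂ)) 1 z := (hasDerivAt_id z).sub_const _
      have h3 := (h2.fun_inv h1).const_mul (f t : ℂ)
      simp only [div_eq_mul_inv]
      refine h3.congr_deriv ?_
      rw [div_eq_mul_inv]; ring)
  have h5 := (key.2.const_mul (Complex.I / (π : ℂ))).differentiableAt
  exact h5.differentiableWithinAt

end Pool.Dav
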