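import Pool.Agent.Helper458.Dav.Defs
import Pool.Agent.Helper458.Dav.P_V_cont
import Pool.Agent.Helper458.Dav.P_V_upper
import Pool.Agent.Helper458.Dav.P_V_lip
import Pool.Agent.Helper458.Dav.P_V_sub
import Pool.Agent.Helper458.Dav.P_HP
import Pool.Agent.Helper458.Dav.P_cau_diff
import Pool.Agent.Helper458.Dav.P_cau_bound
import Pool.Agent.Helper458.Dav.P_cau_PQ
import Pool.Agent.Helper458.Dav.P_PP_L1

set_option autoImplicit false

open MeasureTheory Filter Topology Set Metric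
open scoped Real ENNReal

namespace Pool.Dav



theorem level_bdd_bd (g : ℝ → ℝ) (C δ : ℝ) (hδ : 0 < δ)
    (hC : ∀ z : ℂ, δ ≤ z.im → ‖cau g z‖ ≤ C / (1 + ‖z‖)) :
    ∀ z : ℂ, 0 ≤ z.im → ‖cau g (z + δ * Complex.I)‖ ^ 2 ≤ C ^ 2 / (1 + ‖z‖ ^ 2) := by
  have hC0 : 0 ≤ C := by
    have h1 := hC (δ * Complex.I) (by simp)
    have h2 : 0 ≤ C / (1 + ‖(δ : ℂ) * Complex.I‖) := (norm_nonneg _).trans h1
    have h3 : 0 < 1 + ‖(δ : ℂ) * Complex.I‖ := by positivity
    have h4 := mul_nonneg h2 h3.le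
    rwa [div_mul_cancel₀ _ h3.ne'] at h4
  intro z hz
  have hn : ‖z‖ ≤ ‖z + δ * Complex.I‖ := by
    apply (sq_le_sq₀ (norm_nonneg _) (norm_nonneg _)).1
    rw [Complex.sq_norm, Complex.sq_norm, Complex.normSq_apply, Complex.normSq_apply]
    have e1 : (z + δ * Complex.I).re = z.re := by simp
    have e2 : (z + δ * Complex.I).im = z.im + δ := by simp
    rw [e1, e2]
    nlinarith
  have h1 := hC (z + δ * Complex.I) (by simp [hz])
  have h2 : ‖cau g (z + δ * Complex.I)‖ ≤ C / (1 + ‖z‖) :=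
    h1.trans (div_le_div_of_nonneg_left hC0 (by positivity) (by linarith))
  calc ‖cau g (z + δ * Complex.I)‖ ^ 2 ≤ (C / (1 + ‖z‖)) ^ 2 :=
        pow_le_pow_left₀ (norm_nonneg _) h2 2
    _ = C ^ 2 / (1 + ‖z‖) ^ 2 := by rw [div_pow]
    _ ≤ C ^ 2 / (1 + ‖z‖ ^ 2) := by
        apply div_le_div_of_nonneg_left (sq_nonneg C) (by positivity)
        nlinarith [norm_nonneg z]

theorem level_bdd_cont (g : ℝ → ℝ) (hg : Integrable g) (δ : ℝ) :
    ∀ z : ℂ, -δ < z.im → DifferentiableAt ℂ (fun z : ℂ => cau g (z + δ * Complex.I)) z := by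
  intro z hz
  have ho : IsOpen {z : ℂ | 0 < z.im} := isOpen_lt continuous_const Complex.continuous_im
  have h1 : DifferentiableAt ℂ (cau g) (z + δ * Complex.I) :=
    (cau_diff g hg).differentiableAt (ho.mem_nhds (by
      show 0 < (z + δ * Complex.I).im
      simp
      linarith))
  have h2 : DifferentiableAt ℂ (fun z : ℂ => z + δ * Complex.I) z := by fun_prop
  exact DifferentiableAt.comp (g := cau g) (f := fun z : ℂ => z + δ * Complex.I) z h1 h2

theorem level_bdd (f : ℝ → ℂ) (hf : Integrable f) (R : ℝ) (hR : ∀ t, R < |t| → f t = 0)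
    (δ : ℝ) (hδ : 0 < δ) :
    ENNReal.ofReal U0 * volume {x : ℝ | 1 ≤ ‖QQ f δ x‖} ≤ ENNReal.ofReal (∫ x, ‖PP f δ x‖) := by
  have hf1 : Integrable (fun t => (f t).re) := hf.re
  have hf2 : Integrable (fun t => (f t).im) := hf.im
  obtain ⟨C1, hC1⟩ := cau_bound _ hf1 R (fun t ht => by rw [hR t ht]; rfl) δ hδ
  obtain ⟨C2, hC2⟩ := cau_bound _ hf2 R (fun t ht => by rw [hR t ht]; rfl) δ hδ
  obtain ⟨c, hc⟩ := V_lip
  have hc0 : 0 ≤ c := by
    have := (abs_nonneg _).trans (hc 1)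
    simpa using this
  have hU0 : 0 ≤ U0 := by
    unfold U0
    apply integral_nonneg
    intro s
    have := Real.cosh_pos (π * s / 2)
    positivity
  obtain ⟨F1, hF1⟩ : ∃ F1 : ℂ → ℂ, F1 = fun z : ℂ => cau (fun t => (f t).re) (z + δ * Complex.I) :=
    ⟨_, rfl⟩
  obtain ⟨F2, hF2⟩ : ∃ F2 : ℂ → ℂ, F2 = fun z : ℂ => cau (fun t => (f t).im) (z + δ * Complex.I) :=
    ⟨_, rfl⟩
  have b1 : ∀ z : ℂ, 0 ≤ z.im → ‖F1 z‖ ^ 2 ≤ C1 ^ 2 / (1 + ‖z‖ ^ 2) := by
    rw [hF1]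
    exact level_bdd_bd _ C1 δ hδ hC1
  have b2 : ∀ z : ℂ, 0 ≤ z.im → ‖F2 z‖ ^ 2 ≤ C2 ^ 2 / (1 + ‖z‖ ^ 2) := by
    rw [hF2]
    exact level_bdd_bd _ C2 δ hδ hC2
  have d1 : ∀ z : ℂ, -δ < z.im → DifferentiableAt ℂ F1 z := by
    rw [hF1]
    exact level_bdd_cont _ hf1 δ
  have d2 : ∀ z : ℂ, -δ < z.im → DifferentiableAt ℂ F2 z := by
    rw [hF2]
    exact level_bdd_cont _ hf2 δ
  have dw : ∀ z : ℂ, -δ < z.im → DifferentiableAt ℂ (fun z => F1 z ^ 2 + F2 z ^ 2) z :=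
    fun z hz => ((d1 z hz).pow 2).add ((d2 z hz).pow 2)
  have hcw : ContinuousOn (fun z : ℂ => V (F1 z ^ 2 + F2 z ^ 2) - U0) {z : ℂ | 0 ≤ z.im} := by
    intro z hz
    have hz' : 0 ≤ z.im := hz
    exact ((V_cont.continuousAt.comp (dw z (by linarith)).continuousAt).sub
      continuousAt_const).continuousWithinAt
  have hbw : ∀ z : ℂ, 0 ≤ z.im → |V (F1 z ^ 2 + F2 z ^ 2) - U0| ≤
      (c * (C1 ^ 2 + C2 ^ 2)) / (1 + ‖z‖ ^ 2) := by
    intro z hz
    calc |V (F1 z ^ 2 + F2 z ^ 2) - U0| ≤ c * ‖F1 z ^ 2 + F2 z ^ 2‖ := hc _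
      _ ≤ c * (C1 ^ 2 / (1 + ‖z‖ ^ 2) + C2 ^ 2 / (1 + ‖z‖ ^ 2)) := by
          apply mul_le_mul_of_nonneg_left _ hc0
          refine (norm_add_le _ _).trans ?_
          rw [norm_pow, norm_pow]
          exact add_le_add (b1 z hz) (b2 z hz)
      _ = _ := by ring
  have hsw : ∀ z : ℂ, 0 < z.im → SubAt (fun z : ℂ => V (F1 z ^ 2 + F2 z ^ 2) - U0) z := by
    intro z hz
    obtain ⟨r₀, hr₀, hr⟩ := V_sub (fun z => F1 z ^ 2 + F2 z ^ 2) z (by
      have ho : IsOpen {z : ℂ | -δ < z.im} := isOpen_lt continuous_const Complex.continuous_im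
      filter_upwards [ho.mem_nhds (show -δ < z.im by linarith)] with x hx
      exact dw x hx)
    refine ⟨min r₀ z.im, lt_min hr₀ hz, fun r hr1 hr2 => ?_⟩
    have h1 := hr r hr1 (lt_of_lt_of_le hr2 (min_le_left _ _))
    have h2 : r < z.im := lt_of_lt_of_le hr2 (min_le_right _ _)
    have hci : CircleIntegrable (fun z : ℂ => V (F1 z ^ 2 + F2 z ^ 2)) z r := by
      apply ContinuousOn.circleIntegrable hr1.le
      intro x hx
      have h3 : ‖x - z‖ = r := by rwa [mem_sphere_iff_norm] at hx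
      have h4 : |(x - z).im| ≤ r := h3 ▸ Complex.abs_im_le_norm _
      rw [Complex.sub_im] at h4
      have h5 := (abs_le.1 h4).1
      exact (V_cont.continuousAt.comp (dw x (by linarith)).continuousAt).continuousWithinAt
    have h6 : Real.circleAverage (fun z : ℂ => V (F1 z ^ 2 + F2 z ^ 2) - U0) z r =
        Real.circleAverage (fun z : ℂ => V (F1 z ^ 2 + F2 z ^ 2)) z r - U0 := by
      have h7 := Real.circleAverage_sub (f₁ := fun z : ℂ => V (F1 z ^ 2 + F2 z ^ 2))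
        (f₂ := fun _ => U0) hci (circleIntegrable_const U0 z r)
      rw [Real.circleAverage_const] at h7
      exact h7
    show V (F1 z ^ 2 + F2 z ^ 2) - U0 ≤ _
    rw [h6]
    linarith
  have hHP := HP _ _ hcw hbw hsw
  have hP : ∀ x : ℝ, ‖PP f δ x‖ = √((F1 x).re ^ 2 + (F2 x).re ^ 2) := by
    intro x
    rw [hF1, hF2]
    exact (cau_PQ f hf δ x hδ).1
  have hQ : ∀ x : ℝ, ‖QQ f δ x‖ = √((F1 x).im ^ 2 + (F2 x).im ^ 2) := by
    intro x
    rw [hF1, hF2]
    exact (cau_PQ f hf δ x hδ).2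
  have c1 : Continuous (fun x : ℝ => F1 x) := by
    rw [continuous_iff_continuousAt]
    intro x
    exact ContinuousAt.comp (g := F1) (f := fun x : ℝ => (x : ℂ)) (x := x)
      (d1 x (by simp [hδ])).continuousAt Complex.continuous_ofReal.continuousAt
  have c2 : Continuous (fun x : ℝ => F2 x) := by
    rw [continuous_iff_continuousAt]
    intro x
    exact ContinuousAt.comp (g := F2) (f := fun x : ℝ => (x : ℂ)) (x := x)
      (d2 x (by simp [hδ])).continuousAt Complex.continuous_ofReal.continuousAt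
  have cQ : Continuous (fun x : ℝ => ‖QQ f δ x‖) := by
    simp only [hQ]
    exact Real.continuous_sqrt.comp (((Complex.continuous_im.comp c1).pow 2).add
      ((Complex.continuous_im.comp c2).pow 2))
  obtain ⟨S, hS⟩ : ∃ S : Set ℝ, S = {x : ℝ | 1 ≤ ‖QQ f δ x‖} := ⟨_, rfl⟩
  rw [← hS]
  have hSm : MeasurableSet S := by
    rw [hS]
    exact (isClosed_le continuous_const cQ).measurableSet
  have hSb : S ⊆ Metric.closedBall 0 (C1 ^ 2 + C2 ^ 2) := by
    intro x hx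
    rw [hS] at hx
    have h1 : 1 ≤ ‖QQ f δ x‖ := hx
    rw [mem_closedBall_zero_iff, Real.norm_eq_abs]
    have h2 := b1 x (by simp)
    have h3 := b2 x (by simp)
    have h4 : 1 ≤ (F1 x).im ^ 2 + (F2 x).im ^ 2 := by
      rw [hQ, Real.one_le_sqrt] at h1
      exact h1
    have h5 : (F1 x).im ^ 2 ≤ ‖F1 x‖ ^ 2 := by
      rw [← sq_abs]
      exact pow_le_pow_left₀ (abs_nonneg _) (Complex.abs_im_le_norm _) 2
    have h6 : (F2 x).im ^ 2 ≤ ‖F2 x‖ ^ 2 := by
      rw [← sq_abs]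
      exact pow_le_pow_left₀ (abs_nonneg _) (Complex.abs_im_le_norm _) 2
    have h7 : 1 ≤ (C1 ^ 2 + C2 ^ 2) / (1 + ‖(x : ℂ)‖ ^ 2) := by
      rw [add_div]
      linarith
    rw [Complex.norm_real, Real.norm_eq_abs, le_div_iff₀ (by positivity), one_mul] at h7
    nlinarith [abs_nonneg x, sq_nonneg (|x| - 1)]
  have hSf : volume S ≠ ⊤ := by
    apply ne_top_of_le_ne_top _ (measure_mono hSb)
    exact measure_closedBall_lt_top.ne
  have hih : Integrable (fun x : ℝ => V (F1 x ^ 2 + F2 x ^ 2) - U0) := by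
    have hi : Integrable (fun x : ℝ => (c * (C1 ^ 2 + C2 ^ 2)) * (1 + x ^ 2)⁻¹) :=
      integrable_inv_one_add_sq.const_mul _
    refine hi.mono' ?_ (Filter.Eventually.of_forall (fun x => ?_))
    · exact ((V_cont.comp ((c1.pow 2).add (c2.pow 2))).sub continuous_const).aestronglyMeasurable
    · rw [Real.norm_eq_abs]
      have := hbw x (by simp)
      rw [Complex.norm_real, Real.norm_eq_abs, sq_abs, div_eq_mul_inv] at this
      exact this
  obtain ⟨hPi, -⟩ := PP_L1 f hf δ hδ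
  have hPn : Integrable (fun x => ‖PP f δ x‖) := hPi.norm
  have hSi : Integrable (S.indicator (fun _ => U0)) :=
    (integrable_indicator_iff hSm).2 (integrableOn_const hSf)
  have hle : ∀ x : ℝ, V (F1 x ^ 2 + F2 x ^ 2) - U0 ≤ ‖PP f δ x‖ - S.indicator (fun _ => U0) x := by
    intro x
    obtain ⟨h1, h2⟩ := V_upper (F1 x) (F2 x)
    rw [← hP] at h1
    rw [← hP, ← hQ] at h2
    by_cases hx : x ∈ S
    · rw [Set.indicator_of_mem hx]
      have := h2 (by rw [hS] at hx; exact hx)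
      linarith
    · rw [Set.indicator_of_notMem hx]
      linarith
  have hint : (∫ x : ℝ, V (F1 x ^ 2 + F2 x ^ 2) - U0) ≤
      (∫ x, ‖PP f δ x‖) - volume.real S * U0 := by
    calc _ ≤ ∫ x : ℝ, ‖PP f δ x‖ - S.indicator (fun _ => U0) x :=
          integral_mono hih (hPn.sub hSi) hle
      _ = (∫ x, ‖PP f δ x‖) - ∫ x, S.indicator (fun _ => U0) x := integral_sub hPn hSi
      _ = _ := by
          rw [integral_indicator hSm, setIntegral_const, smul_eq_mul]
  have hfin : U0 * volume.real S ≤ ∫ x, ‖PP f δ x‖ := by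
    have h0 : 0 ≤ ∫ x : ℝ, V (F1 x ^ 2 + F2 x ^ 2) - U0 := hHP
    linarith
  calc ENNReal.ofReal U0 * volume S = ENNReal.ofReal U0 * ENNReal.ofReal (volume.real S) := by
        rw [Measure.real, ENNReal.ofReal_toReal hSf]
    _ = ENNReal.ofReal (U0 * volume.real S) := (ENNReal.ofReal_mul hU0).symm
    _ ≤ _ := ENNReal.ofReal_le_ofReal hfin

end Pool.Dav
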