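import Pool.Agent.Helper458.Dav.Defs
import Pool.Agent.Helper458.Dav.P_PP_L1
import Pool.Agent.Helper458.Dav.P_level_bdd

set_option autoImplicit false

open MeasureTheory Filter Topology Set Metric
open scoped Real ENNReal

namespace Pool.Dav



theorem QQ_level_ker (δ : ℝ) (hδ : 0 < δ) (u : ℝ) :
    |π⁻¹ * (u / (u ^ 2 + δ ^ 2))| ≤ π⁻¹ * (1 / (2 * δ)) := by
  rw [abs_mul, abs_of_pos (inv_pos.2 Real.pi_pos)]
  apply mul_le_mul_of_nonneg_left _ (inv_pos.2 Real.pi_pos).le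
  rw [abs_div, abs_of_pos (show 0 < u ^ 2 + δ ^ 2 by positivity),
    div_le_div_iff₀ (by positivity) (by positivity)]
  nlinarith [sq_nonneg (|u| - δ), sq_abs u]

theorem QQ_level_tendsto (f : ℝ → ℂ) (hf : Integrable f) (δ : ℝ) (hδ : 0 < δ) (x : ℝ) :
    Tendsto (fun n : ℕ => QQ (({t : ℝ | |t| ≤ n} : Set ℝ).indicator f) δ x) atTop
      (𝓝 (QQ f δ x)) := by
  have hk : Continuous (fun t : ℝ => ((π⁻¹ * ((x - t) / ((x - t) ^ 2 + δ ^ 2)) : ℝ) : ℂ)) := by
    apply Complex.continuous_ofReal.comp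
    apply continuous_const.mul
    apply Continuous.div (by fun_prop) (by fun_prop)
    intro t
    positivity
  have hms : ∀ n : ℕ, MeasurableSet ({t : ℝ | |t| ≤ n} : Set ℝ) := fun n =>
    measurableSet_le (by fun_prop) measurable_const
  unfold QQ
  refine tendsto_integral_of_dominated_convergence (fun t => π⁻¹ * (1 / (2 * δ)) * ‖f t‖) ?_ ?_ ?_ ?_
  · intro n
    exact hk.aestronglyMeasurable.mul (hf.aestronglyMeasurable.indicator (hms n))
  · exact hf.norm.const_mul _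
  · intro n
    refine Eventually.of_forall fun t => ?_
    rw [norm_mul, Complex.norm_real, Real.norm_eq_abs]
    apply mul_le_mul (QQ_level_ker δ hδ (x - t)) _ (norm_nonneg _) (by positivity)
    exact norm_indicator_le_norm_self _ _
  · refine Eventually.of_forall fun t => ?_
    apply tendsto_const_nhds.mul
    apply tendsto_const_nhds.congr'
    obtain ⟨N, hN⟩ := exists_nat_ge |t|
    filter_upwards [eventually_ge_atTop N] with n hn
    rw [Set.indicator_of_mem]
    show |t| ≤ n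
    exact hN.trans (by exact_mod_cast hn)

theorem QQ_level (f : ℝ → ℂ) (hf : Integrable f) (δ : ℝ) (hδ : 0 < δ) :
    ENNReal.ofReal U0 * volume {x : ℝ | 1 < ‖QQ f δ x‖} ≤ ENNReal.ofReal (∫ x, ‖f x‖) := by
  obtain ⟨S, hS⟩ : ∃ S : ℕ → Set ℝ, ∀ n, S n =
    {x : ℝ | 1 ≤ ‖QQ (({t : ℝ | |t| ≤ n} : Set ℝ).indicator f) δ x‖} := ⟨_, fun _ => rfl⟩
  have hms : ∀ n : ℕ, MeasurableSet ({t : ℝ | |t| ≤ n} : Set ℝ) := fun n =>
    measurableSet_le (by fun_prop) measurable_const
  have hSn : ∀ n, ENNReal.ofReal U0 * volume (S n) ≤ ENNReal.ofReal (∫ x, ‖f x‖) := by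
    intro n
    have hfn := hf.indicator (hms n)
    have h1 := level_bdd _ hfn n (fun t ht => by
      rw [Set.indicator_of_notMem]
      intro h
      exact absurd ht (not_lt.2 h)) δ hδ
    rw [← hS] at h1
    refine h1.trans (ENNReal.ofReal_le_ofReal ?_)
    refine (PP_L1 _ hfn δ hδ).2.trans ?_
    refine integral_mono hfn.norm hf.norm fun t => ?_
    exact norm_indicator_le_norm_self _ _
  have hmono : Monotone (fun n : ℕ => ⋂ k ≥ n, S k) := by
    intro m n hmn
    apply Set.iInter₂_mono'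
    intro k hk
    exact ⟨k, hmn.trans hk, le_rfl⟩
  have hsub : {x : ℝ | 1 < ‖QQ f δ x‖} ⊆ ⋃ n : ℕ, ⋂ k ≥ n, S k := by
    intro x hx
    have h1 := (QQ_level_tendsto f hf δ hδ x).norm
    have h2 := h1.eventually (lt_mem_nhds (show 1 < ‖QQ f δ x‖ from hx))
    obtain ⟨N, hN⟩ := eventually_atTop.1 h2
    refine Set.mem_iUnion.2 ⟨N, Set.mem_iInter₂.2 fun k hk => ?_⟩
    rw [hS]
    exact (hN k hk).le
  calc ENNReal.ofReal U0 * volume {x : ℝ | 1 < ‖QQ f δ x‖}
      ≤ ENNReal.ofReal U0 * volume (⋃ n : ℕ, ⋂ k ≥ n, S k) := by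
        gcongr
    _ = ⨆ n : ℕ, ENNReal.ofReal U0 * volume (⋂ k ≥ n, S k) := by
        rw [hmono.measure_iUnion, ENNReal.mul_iSup]
    _ ≤ ENNReal.ofReal (∫ x, ‖f x‖) := by
        refine iSup_le fun n => ?_
        refine le_trans ?_ (hSn n)
        gcongr
        exact Set.iInter₂_subset n le_rfl

end Pool.Dav
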