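import Pool.Agent.Helper458.Dav.Defs

set_option autoImplicit false

open MeasureTheory Filter Topology Set Metric
open scoped Real ENNReal

namespace Pool.Dav



private theorem int_s_exp (r : ℝ) (hr : 0 < r) :
    ∫ t in Ioi (0:ℝ), t * Real.exp (-(r * t)) = 1 / r ^ 2 := by
  have h := Real.integral_rpow_mul_exp_neg_mul_Ioi (a := 2) (r := r) (by norm_num) hr
  rw [Real.Gamma_two, mul_one] at h
  have e : ((1 / r) ^ (2:ℝ) : ℝ) = 1 / r ^ 2 := by
    rw [show (2:ℝ) = ((2:ℕ) : ℝ) by norm_num, Real.rpow_natCast]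
    field_simp
  rw [e] at h
  rw [← h]
  apply setIntegral_congr_fun measurableSet_Ioi
  intro t _
  simp only []
  rw [show (2:ℝ) - 1 = 1 by norm_num, Real.rpow_one]

private theorem intble_s_exp (r : ℝ) (hr : 0 < r) :
    Integrable (fun t : ℝ => t * Real.exp (-(r * t))) (volume.restrict (Ioi 0)) := by
  by_contra hcon
  have h := int_s_exp r hr
  rw [integral_undef hcon] at h
  have : 0 < 1 / r ^ 2 := by positivity
  linarith

theorem U0_series : U0 = 8 / π ^ 2 * ∑' k : ℕ, (-1 : ℝ) ^ k / (2 * k + 1) ^ 2 := by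
  have hpi := Real.pi_pos
  have ha : ∀ k : ℕ, 0 < (2 * (k : ℝ) + 1) * π / 2 := fun k => by positivity
  have h1 : U0 = 2 * ∫ s in Ioi (0:ℝ), s / (2 * Real.cosh (π * s / 2)) := by
    unfold U0
    rw [← integral_comp_abs (f := fun s => s / (2 * Real.cosh (π * s / 2)))]
    congr 1
    funext s
    have : Real.cosh (π * |s| / 2) = Real.cosh (π * s / 2) := by
      rcases abs_choice s with h | h
      · rw [h]
      · rw [h, show π * -s / 2 = -(π * s / 2) by ring, Real.cosh_neg]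
    rw [this]
  have hnorm : ∀ k : ℕ, ∫ t in Ioi (0:ℝ), ‖(-1 : ℝ) ^ k * (t * Real.exp (-((2 * (k : ℝ) + 1) * π / 2 * t)))‖
      = 1 / ((2 * (k : ℝ) + 1) * π / 2) ^ 2 := by
    intro k
    rw [← int_s_exp _ (ha k)]
    apply setIntegral_congr_fun measurableSet_Ioi
    intro t ht
    have ht0 : (0:ℝ) < t := ht
    simp only []
    rw [norm_mul, norm_pow, norm_neg, norm_one, one_pow, one_mul, Real.norm_eq_abs,
      abs_of_nonneg (by positivity)]
  have hsum : Summable (fun k : ℕ => 1 / ((2 * (k : ℝ) + 1) * π / 2) ^ 2) := by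
    have h2 : Summable (fun k : ℕ => 1 / (((k + 1 : ℕ) : ℝ)) ^ 2) :=
      (summable_nat_add_iff 1).2 (Real.summable_one_div_nat_pow.2 (by norm_num))
    refine Summable.of_nonneg_of_le (fun k => by positivity) (fun k => ?_) h2
    apply one_div_le_one_div_of_le (by positivity)
    apply pow_le_pow_left₀ (by positivity)
    push_cast
    have : (0:ℝ) ≤ k := Nat.cast_nonneg k
    have h3 := Real.pi_gt_three
    nlinarith
  have h2 := hasSum_integral_of_summable_integral_norm
    (F := fun (k : ℕ) (t : ℝ) => (-1 : ℝ) ^ k * (t * Real.exp (-((2 * (k : ℝ) + 1) * π / 2 * t))))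
    (μ := volume.restrict (Ioi (0:ℝ)))
    (fun k => (intble_s_exp _ (ha k)).const_mul _) (by simpa only [hnorm] using hsum)
  have h3 : ∫ t in Ioi (0:ℝ), ∑' k : ℕ, (-1 : ℝ) ^ k * (t * Real.exp (-((2 * (k : ℝ) + 1) * π / 2 * t)))
      = ∫ s in Ioi (0:ℝ), s / (2 * Real.cosh (π * s / 2)) := by
    apply setIntegral_congr_fun measurableSet_Ioi
    intro t ht
    have ht0 : (0:ℝ) < t := ht
    simp only []
    obtain ⟨q, hq⟩ : ∃ q, q = Real.exp (-(π * t / 2)) := ⟨_, rfl⟩
    have hq0 : 0 < q := by rw [hq]; exact Real.exp_pos _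
    have hq1 : q < 1 := by
      rw [hq]
      rw [Real.exp_lt_one_iff]
      have : 0 < π * t / 2 := by positivity
      linarith
    have e1 : ∀ k : ℕ, (-1 : ℝ) ^ k * (t * Real.exp (-((2 * (k : ℝ) + 1) * π / 2 * t)))
        = t * q * (-q ^ 2) ^ k := by
      intro k
      have : Real.exp (-((2 * (k : ℝ) + 1) * π / 2 * t)) = q ^ (2 * k + 1) := by
        rw [hq, ← Real.exp_nat_mul]
        congr 1
        push_cast
        ring
      rw [this, neg_pow (q ^ 2), ← pow_mul, pow_succ]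
      ring
    simp_rw [e1]
    rw [tsum_mul_left, tsum_geometric_of_norm_lt_one (by
      rw [norm_neg, norm_pow, Real.norm_eq_abs, abs_of_pos hq0]
      nlinarith)]
    have e2 : Real.cosh (π * t / 2) = (q⁻¹ + q) / 2 := by
      rw [Real.cosh_eq, hq, ← Real.exp_neg, neg_neg]
    rw [e2]
    have : 1 - -q ^ 2 ≠ 0 := by nlinarith
    field_simp
    ring
  rw [h1, ← h3, ← h2.tsum_eq]
  have e3 : ∀ k : ℕ, ∫ t in Ioi (0:ℝ), (-1 : ℝ) ^ k * (t * Real.exp (-((2 * (k : ℝ) + 1) * π / 2 * t)))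
      = 4 / π ^ 2 * ((-1 : ℝ) ^ k / (2 * k + 1) ^ 2) := by
    intro k
    rw [integral_const_mul, int_s_exp _ (ha k)]
    field_simp
    norm_num
  simp_rw [e3]
  rw [tsum_mul_left]
  ring

end Pool.Dav
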