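import Pool.Agent.Helper458.Dav.Defs

set_option autoImplicit false

open MeasureTheory Filter Topology Set Metric
open scoped Real ENNReal

namespace Pool.Dav



theorem approx_id_ae (f : ℝ → ℂ) (hf : Integrable f) :
    ∀ᵐ x : ℝ, Tendsto (fun s : ℝ => ⨍ t in closedBall x s, ‖f t - f x‖) (𝓝[>] (0 : ℝ)) (𝓝 0) := by
  have h := IsUnifLocDoublingMeasure.ae_tendsto_average_norm_sub (μ := (volume : Measure ℝ))
    hf.locallyIntegrable 0
  filter_upwards [h] with x hx
  apply hx (fun _ => x) (fun s => s) tendsto_id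
  exact Filter.Eventually.of_forall fun s => by simp

theorem approx_id_int (f : ℝ → ℂ) (hf : Integrable f) (x s : ℝ) :
    IntegrableOn (fun t => ‖f t - f x‖) (closedBall x s) := by
  apply Integrable.norm
  apply Integrable.sub hf.integrableOn
  exact integrableOn_const (by rw [Real.volume_closedBall]; exact ENNReal.ofReal_ne_top)

theorem approx_id_avg_eq (f : ℝ → ℂ) (x s : ℝ) (hs : 0 < s) :
    ⨍ t in closedBall x s, ‖f t - f x‖ = (2 * s)⁻¹ * ∫ t in closedBall x s, ‖f t - f x‖ := by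
  rw [setAverage_eq, Real.volume_real_closedBall hs.le, smul_eq_mul]

theorem approx_id_avg_nonneg (f : ℝ → ℂ) (x s : ℝ) (hs : 0 < s) :
    0 ≤ ⨍ t in closedBall x s, ‖f t - f x‖ := by
  rw [approx_id_avg_eq f x s hs]
  have : 0 ≤ ∫ t in closedBall x s, ‖f t - f x‖ := integral_nonneg fun t => norm_nonneg _
  positivity

theorem approx_id_avg_le (f : ℝ → ℂ) (hf : Integrable f) (x s : ℝ) (hs : 0 < s) :
    ⨍ t in closedBall x s, ‖f t - f x‖ ≤ (∫ t, ‖f t‖) / (2 * s) + ‖f x‖ := by
  rw [approx_id_avg_eq f x s hs]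
  have hc : IntegrableOn (fun _ : ℝ => ‖f x‖) (closedBall x s) :=
    integrableOn_const (by rw [Real.volume_closedBall]; exact ENNReal.ofReal_ne_top)
  have h1 : ∫ t in closedBall x s, ‖f t - f x‖ ≤ ∫ t in closedBall x s, (‖f t‖ + ‖f x‖) :=
    integral_mono (approx_id_int f hf x s) (hf.norm.integrableOn.add hc) fun t => norm_sub_le _ _
  have h2 : ∫ t in closedBall x s, (‖f t‖ + ‖f x‖) =
      (∫ t in closedBall x s, ‖f t‖) + 2 * s * ‖f x‖ := by
    rw [integral_add hf.norm.integrableOn hc, setIntegral_const, Real.volume_real_closedBall hs.le,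
      smul_eq_mul]
  have h3 : ∫ t in closedBall x s, ‖f t‖ ≤ ∫ t, ‖f t‖ :=
    setIntegral_le_integral hf.norm (Filter.Eventually.of_forall fun t => norm_nonneg _)
  have h4 : ∫ t in closedBall x s, ‖f t - f x‖ ≤ (∫ t, ‖f t‖) + 2 * s * ‖f x‖ := by linarith
  calc (2 * s)⁻¹ * ∫ t in closedBall x s, ‖f t - f x‖
      ≤ (2 * s)⁻¹ * ((∫ t, ‖f t‖) + 2 * s * ‖f x‖) := by gcongr
    _ = (∫ t, ‖f t‖) / (2 * s) + ‖f x‖ := by field_simp

/-- the kernel is dominated by a sum of indicators -/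
theorem approx_id_kernel {δ : ℝ} (hδ : 0 < δ) (x t : ℝ) :
    ∃ k : ℕ, t ∈ closedBall x (2 ^ k * δ) ∧ δ / ((x - t) ^ 2 + δ ^ 2) ≤ 4 / (4 ^ k * δ) := by
  have hex : ∃ k : ℕ, |x - t| ≤ 2 ^ k * δ := by
    obtain ⟨k, hk⟩ := pow_unbounded_of_one_lt (|x - t| / δ) (by norm_num : (1 : ℝ) < 2)
    refine ⟨k, ?_⟩
    rw [div_lt_iff₀ hδ] at hk
    exact hk.le
  classical
  refine ⟨Nat.find hex, ?_, ?_⟩
  · rw [mem_closedBall, Real.dist_eq, abs_sub_comm]
    exact Nat.find_spec hex
  · rcases Nat.eq_zero_or_pos (Nat.find hex) with h0 | h0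
    · rw [h0, pow_zero, one_mul]
      rw [div_le_div_iff₀ (by positivity) hδ]
      nlinarith [sq_nonneg (x - t), sq_nonneg δ]
    · obtain ⟨m, hm⟩ := Nat.exists_eq_succ_of_ne_zero h0.ne'
      have h1 := Nat.find_min hex (m := m) (by omega)
      push Not at h1
      have e : (4 : ℝ) ^ (Nat.find hex) = 4 ^ m * 4 := by rw [hm, pow_succ]
      rw [e]
      have h2 : (2 ^ m * δ) ^ 2 ≤ (x - t) ^ 2 := by
        rw [← sq_abs (x - t)]
        exact pow_le_pow_left₀ (by positivity) h1.le 2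
      have h3 : (2 ^ m * δ) ^ 2 = 4 ^ m * δ ^ 2 := by
        rw [mul_pow, ← pow_mul, mul_comm m 2, pow_mul]
        norm_num
      rw [h3] at h2
      rw [div_le_div_iff₀ (by positivity) (by positivity)]
      have h4 : (0:ℝ) < 4 ^ m := by positivity
      nlinarith [sq_nonneg δ]

theorem approx_id_main (f : ℝ → ℂ) (hf : Integrable f) (x : ℝ)
    {δ : ℝ} (hδ : 0 < δ) :
    ∫⁻ t : ℝ, ENNReal.ofReal ((δ / ((x - t) ^ 2 + δ ^ 2)) * ‖f t - f x‖) ≤
      ∑' k : ℕ, ENNReal.ofReal (8 * (1 / 2) ^ k * ⨍ t in closedBall x (2 ^ k * δ), ‖f t - f x‖) := by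
  have hm : AEMeasurable (fun t => ENNReal.ofReal ‖f t - f x‖) :=
    ((hf.aestronglyMeasurable.sub aestronglyMeasurable_const).norm.aemeasurable).ennreal_ofReal
  calc ∫⁻ t : ℝ, ENNReal.ofReal ((δ / ((x - t) ^ 2 + δ ^ 2)) * ‖f t - f x‖)
      ≤ ∫⁻ t : ℝ, ∑' k : ℕ, (closedBall x (2 ^ k * δ)).indicator
          (fun t => ENNReal.ofReal (4 / (4 ^ k * δ)) * ENNReal.ofReal ‖f t - f x‖) t := by
        apply lintegral_mono
        intro t
        obtain ⟨k, hk1, hk2⟩ := approx_id_kernel hδ x t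
        refine le_trans ?_ (ENNReal.le_tsum k)
        simp only
        rw [Set.indicator_of_mem hk1, ← ENNReal.ofReal_mul (by positivity)]
        apply ENNReal.ofReal_le_ofReal
        exact mul_le_mul_of_nonneg_right hk2 (norm_nonneg _)
    _ = ∑' k : ℕ, ∫⁻ t : ℝ, (closedBall x (2 ^ k * δ)).indicator
          (fun t => ENNReal.ofReal (4 / (4 ^ k * δ)) * ENNReal.ofReal ‖f t - f x‖) t := by
        rw [lintegral_tsum]
        intro k
        exact (hm.const_mul _).indicator measurableSet_closedBall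
    _ = _ := by
        apply tsum_congr
        intro k
        have hs : 0 < 2 ^ k * δ := by positivity
        rw [lintegral_indicator measurableSet_closedBall,
          lintegral_const_mul'' _ hm.restrict,
          ← ofReal_integral_eq_lintegral_ofReal (approx_id_int f hf x _)
            (Filter.Eventually.of_forall fun t => norm_nonneg _),
          ← ENNReal.ofReal_mul (by positivity), approx_id_avg_eq f x _ hs]
        congr 1
        have e4 : (4 : ℝ) ^ k = 2 ^ k * 2 ^ k := by rw [← mul_pow]; norm_num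
        rw [e4]
        have e5 : ((1 : ℝ) / 2) ^ k = 1 / 2 ^ k := by rw [div_pow, one_pow]
        rw [e5]
        field_simp
        ring

theorem approx_id (f : ℝ → ℂ) (hf : Integrable f) :
    ∀ᵐ x : ℝ, Tendsto (fun δ : ℝ => ∫ t : ℝ, (δ / ((x - t) ^ 2 + δ ^ 2)) * ‖f t - f x‖)
      (𝓝[>] (0 : ℝ)) (𝓝 0) := by
  filter_upwards [approx_id_ae f hf] with x hx
  set A : ℝ → ℝ := fun s => ⨍ t in closedBall x s, ‖f t - f x‖ with hA
  -- the averages are bounded
  obtain ⟨M, hM0, hM⟩ : ∃ M : ℝ, 0 ≤ M ∧ ∀ s, 0 < s → A s ≤ M := by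
    have h1 : ∀ᶠ s in 𝓝[>] (0 : ℝ), A s < 1 := hx.eventually_lt_const one_pos
    rw [eventually_nhdsWithin_iff, Metric.eventually_nhds_iff] at h1
    obtain ⟨r, hr, h2⟩ := h1
    refine ⟨max 1 ((∫ t, ‖f t‖) / (2 * r) + ‖f x‖), le_trans zero_le_one (le_max_left _ _), ?_⟩
    intro s hs
    rcases lt_or_ge s r with h3 | h3
    · have := h2 (y := s) (by rw [Real.dist_eq, sub_zero, abs_of_pos hs]; exact h3) hs
      exact le_trans this.le (le_max_left _ _)
    · refine le_trans (approx_id_avg_le f hf x s hs) (le_trans ?_ (le_max_right _ _))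
      have h4 : 0 ≤ ∫ t, ‖f t‖ := integral_nonneg fun t => norm_nonneg _
      gcongr
  -- the series tends to zero
  have hser : Tendsto (fun δ : ℝ => ∑' k : ℕ, 8 * (1 / 2) ^ k * A (2 ^ k * δ)) (𝓝[>] (0 : ℝ)) (𝓝 0) := by
    suffices hz : Tendsto (fun δ : ℝ => ∑' k : ℕ, 8 * (1 / 2) ^ k * A (2 ^ k * δ)) (𝓝[>] (0 : ℝ))
        (𝓝 (∑' _ : ℕ, (0 : ℝ))) by
      rwa [tsum_zero] at hz
    apply tendsto_tsum_of_dominated_convergence (bound := fun k : ℕ => 8 * (1 / 2 : ℝ) ^ k * M)
    · exact (summable_geometric_two.mul_left 8).mul_right M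
    · intro k
      have h1 : Tendsto (fun δ : ℝ => 2 ^ k * δ) (𝓝[>] (0 : ℝ)) (𝓝[>] (0 : ℝ)) := by
        apply tendsto_nhdsWithin_of_tendsto_nhds_of_eventually_within
        · have : Tendsto (fun δ : ℝ => 2 ^ k * δ) (𝓝 (0 : ℝ)) (𝓝 (2 ^ k * 0)) :=
            tendsto_id.const_mul _
          rw [mul_zero] at this
          exact this.mono_left nhdsWithin_le_nhds
        · filter_upwards [self_mem_nhdsWithin] with δ hδ
          have hδ' : (0 : ℝ) < δ := hδ
          have h3 : (0 : ℝ) < 2 ^ k * δ := by positivity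
          exact h3
      have h2 := (hx.comp h1).const_mul (8 * (1 / 2 : ℝ) ^ k)
      rw [mul_zero] at h2
      exact h2
    · filter_upwards [self_mem_nhdsWithin] with δ hδ k
      have hs : 0 < 2 ^ k * δ := mul_pos (by positivity) hδ
      rw [Real.norm_eq_abs, abs_of_nonneg (mul_nonneg (by positivity) (approx_id_avg_nonneg f x _ hs))]
      exact mul_le_mul_of_nonneg_left (hM _ hs) (by positivity)
  have hle : ∀ᶠ δ in 𝓝[>] (0 : ℝ), ∫⁻ t : ℝ, ENNReal.ofReal ((δ / ((x - t) ^ 2 + δ ^ 2)) * ‖f t - f x‖) ≤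
      ENNReal.ofReal (∑' k : ℕ, 8 * (1 / 2) ^ k * A (2 ^ k * δ)) := by
    filter_upwards [self_mem_nhdsWithin] with δ hδ
    rw [ENNReal.ofReal_tsum_of_nonneg]
    · exact approx_id_main f hf x hδ
    · intro k
      have hs : 0 < 2 ^ k * δ := mul_pos (by positivity) hδ
      exact mul_nonneg (by positivity) (approx_id_avg_nonneg f x _ hs)
    · apply Summable.of_nonneg_of_le (f := fun k : ℕ => 8 * (1 / 2 : ℝ) ^ k * M)
      · intro k
        have hs : 0 < 2 ^ k * δ := mul_pos (by positivity) hδ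
        exact mul_nonneg (by positivity) (approx_id_avg_nonneg f x _ hs)
      · intro k
        have hs : 0 < 2 ^ k * δ := mul_pos (by positivity) hδ
        exact mul_le_mul_of_nonneg_left (hM _ hs) (by positivity)
      · exact (summable_geometric_two.mul_left 8).mul_right M
  have hlim : Tendsto (fun δ : ℝ => ∫⁻ t : ℝ, ENNReal.ofReal ((δ / ((x - t) ^ 2 + δ ^ 2)) * ‖f t - f x‖))
      (𝓝[>] (0 : ℝ)) (𝓝 0) := by
    have h1 := (ENNReal.continuous_ofReal.tendsto 0).comp hser
    rw [ENNReal.ofReal_zero] at h1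
    exact tendsto_of_tendsto_of_tendsto_of_le_of_le' tendsto_const_nhds h1
      (Filter.Eventually.of_forall fun _ => zero_le) hle
  have h2 := (ENNReal.tendsto_toReal ENNReal.zero_ne_top).comp hlim
  rw [ENNReal.toReal_zero] at h2
  refine h2.congr' ?_
  filter_upwards [self_mem_nhdsWithin] with δ hδ
  have hδ' : 0 < δ := hδ
  simp only [Function.comp]
  rw [integral_eq_lintegral_of_nonneg_ae]
  · exact Filter.Eventually.of_forall fun t => by
      simp only [Pi.zero_apply]
      positivity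
  · apply AEStronglyMeasurable.mul
    · apply Continuous.aestronglyMeasurable
      apply Continuous.div continuous_const (by fun_prop)
      intro t
      positivity
    · exact (hf.aestronglyMeasurable.sub aestronglyMeasurable_const).norm

end Pool.Dav
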