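import Pool.Agent.Helper458.Dav.Defs
import Pool.Agent.Helper458.Dav.P_HP

set_option autoImplicit false

open MeasureTheory Filter Topology Set Metric
open scoped Real ENNReal

namespace Pool.Dav



theorem holo_int_aux (L : ℂ →L[ℝ] ℝ) (hL : ∀ z, |L z| ≤ ‖z‖) (g : ℂ → ℂ) (C : ℝ)
    (hd : DifferentiableOn ℂ g {z : ℂ | 0 < z.im})
    (hc : ContinuousOn g {z : ℂ | 0 ≤ z.im})
    (hb : ∀ z : ℂ, 0 ≤ z.im → ‖g z‖ ≤ C / (1 + ‖z‖ ^ 2)) : 0 ≤ ∫ x : ℝ, L (g x) := by
  refine HP (fun z => L (g z)) C (L.continuous.comp_continuousOn hc)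
    (fun z hz => (hL _).trans (hb z hz)) ?_
  intro z hz
  refine ⟨z.im, hz, fun r hr hrz => ?_⟩
  have hball : Metric.closedBall z |r| ⊆ {w : ℂ | 0 < w.im} := by
    intro w hw
    rw [Metric.mem_closedBall, dist_eq_norm, abs_of_pos hr] at hw
    have h1 : |(w - z).im| ≤ ‖w - z‖ := Complex.abs_im_le_norm _
    rw [Complex.sub_im] at h1
    have h2 := abs_le.1 (h1.trans hw)
    show 0 < w.im
    linarith [h2.1]
  have hdc : DiffContOnCl ℂ g (Metric.ball z |r|) := by
    refine DifferentiableOn.diffContOnCl ?_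
    exact hd.mono (Metric.closure_ball_subset_closedBall.trans hball)
  have hci : CircleIntegrable g z r := by
    refine ContinuousOn.circleIntegrable hr.le ?_
    refine (hd.continuousOn).mono (Set.Subset.trans ?_ hball)
    rw [abs_of_pos hr]
    exact Metric.sphere_subset_closedBall
  have h3 := L.circleAverage_comp_comm hci
  rw [hdc.circleAverage] at h3
  exact h3.symm.le

theorem holo_int (g : ℂ → ℂ) (C : ℝ) (hd : DifferentiableOn ℂ g {z : ℂ | 0 < z.im})
    (hc : ContinuousOn g {z : ℂ | 0 ≤ z.im})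
    (hb : ∀ z : ℂ, 0 ≤ z.im → ‖g z‖ ≤ C / (1 + ‖z‖ ^ 2)) : ∫ x : ℝ, g x = 0 := by
  have hgc : Continuous (fun x : ℝ => g x) := by
    refine ContinuousOn.comp_continuous hc Complex.continuous_ofReal (fun x => ?_)
    simp
  have hint : Integrable (fun x : ℝ => g x) := by
    have h1 : Integrable (fun x : ℝ => C * (1 + x ^ 2)⁻¹) := integrable_inv_one_add_sq.const_mul C
    refine h1.mono' hgc.aestronglyMeasurable (Eventually.of_forall fun x => ?_)
    have := hb x (by simp)
    rw [Complex.norm_real, Real.norm_eq_abs, sq_abs] at this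
    rwa [div_eq_mul_inv] at this
  have hL : ∀ L : ℂ →L[ℝ] ℝ, ∫ x : ℝ, L (g x) = L (∫ x : ℝ, g x) :=
    fun L => L.integral_comp_comm hint
  have a1 := holo_int_aux Complex.reCLM (fun z => Complex.abs_re_le_norm z) g C hd hc hb
  have a2 := holo_int_aux (-Complex.reCLM)
    (fun z => by simpa using Complex.abs_re_le_norm z) g C hd hc hb
  have a3 := holo_int_aux Complex.imCLM (fun z => Complex.abs_im_le_norm z) g C hd hc hb
  have a4 := holo_int_aux (-Complex.imCLM)
    (fun z => by simpa using Complex.abs_im_le_norm z) g C hd hc hb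
  rw [hL] at a1 a2 a3 a4
  simp only [_root_.neg_apply, Complex.reCLM_apply, Complex.imCLM_apply] at a1 a2 a3 a4
  apply Complex.ext
  · rw [Complex.zero_re]; linarith
  · rw [Complex.zero_im]; linarith

end Pool.Dav
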