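import Pool.Agent.Helper458.Dav.Defs
import Pool.Agent.Helper458.Dav.P_holo_int

set_option autoImplicit false

open MeasureTheory Filter Topology Set Metric
open scoped Real ENNReal

namespace Pool.Dav



theorem cr_intG (G : ℝ → ℂ) (hG : Continuous G) (C : ℝ) (hb : ∀ t, ‖G t‖ ≤ C / (1 + t ^ 2))
    (w : ℂ) (hw : w.im ≠ 0) : Integrable (fun t : ℝ => G t / ((t : ℂ) - w)) := by
  have hne : ∀ t : ℝ, (t : ℂ) - w ≠ 0 := by
    intro t h
    have := congrArg Complex.im h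
    simp at this
    exact hw this
  have hcont : Continuous (fun t : ℝ => G t / ((t : ℂ) - w)) :=
    hG.div (Complex.continuous_ofReal.sub continuous_const) hne
  refine Integrable.mono' (integrable_inv_one_add_sq.const_mul (C / |w.im|))
    hcont.aestronglyMeasurable (Filter.Eventually.of_forall fun t => ?_)
  have h1 : |w.im| ≤ ‖(t : ℂ) - w‖ := by
    have h2 := Complex.abs_im_le_norm ((t : ℂ) - w)
    simpa using h2
  have h3 : 0 < |w.im| := abs_pos.2 hw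
  rw [norm_div]
  calc ‖G t‖ / ‖(t : ℂ) - w‖ ≤ (C / (1 + t ^ 2)) / |w.im| :=
        div_le_div₀ ((norm_nonneg _).trans (hb t)) (hb t) h3 h1
    _ = C / |w.im| * (1 + t ^ 2)⁻¹ := by field_simp

theorem cr_K (x y : ℝ) (hy : 0 < y) : Integrable (fun t : ℝ => ((t - x) ^ 2 + y ^ 2)⁻¹) ∧
    ∫ t : ℝ, ((t - x) ^ 2 + y ^ 2)⁻¹ = π / y := by
  have h1 : (fun t : ℝ => ((t - x) ^ 2 + y ^ 2)⁻¹) =
      fun t : ℝ => (y ^ 2)⁻¹ * (1 + ((t - x) / y) ^ 2)⁻¹ := by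
    funext t
    rw [← mul_inv]
    congr 1
    field_simp
    ring
  have h2 : Integrable (fun t : ℝ => (1 + (t / y) ^ 2)⁻¹) :=
    integrable_inv_one_add_sq.comp_div hy.ne'
  have h3 : Integrable (fun t : ℝ => (1 + ((t - x) / y) ^ 2)⁻¹) := h2.comp_sub_right x
  refine ⟨?_, ?_⟩
  · rw [h1]
    exact h3.const_mul _
  · rw [h1, integral_const_mul]
    have h4 : ∫ t : ℝ, (1 + ((t - x) / y) ^ 2)⁻¹ = ∫ t : ℝ, (1 + (t / y) ^ 2)⁻¹ :=
      integral_sub_right_eq_self (fun t : ℝ => (1 + (t / y) ^ 2)⁻¹) x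
    have h5 : ∫ t : ℝ, (1 + (t / y) ^ 2)⁻¹ = |y| • ∫ t : ℝ, (1 + t ^ 2)⁻¹ :=
      Measure.integral_comp_div (fun t : ℝ => (1 + t ^ 2)⁻¹) y
    rw [h4, h5, integral_univ_inv_one_add_sq, abs_of_pos hy, smul_eq_mul]
    field_simp

theorem cr_bound (g : ℂ → ℂ) (C : ℝ)
    (hb : ∀ z : ℂ, 0 ≤ z.im → ‖g z‖ ≤ C / (1 + ‖z‖ ^ 2)) (z zb a : ℂ)
    (hzb : ‖zb‖ = ‖z‖) (F : ℂ → ℂ)
    (hF : ∀ ζ, ζ ≠ z → F ζ = (g ζ - a / (ζ - zb)) / (ζ - z))
    (hFc : ContinuousOn F {z : ℂ | 0 ≤ z.im}) :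
    ∃ C' : ℝ, ∀ ζ : ℂ, 0 ≤ ζ.im → ‖F ζ‖ ≤ C' / (1 + ‖ζ‖ ^ 2) := by
  have hC : 0 ≤ C := by
    have h1 := hb 0 (by simp)
    have h2 := norm_nonneg (g 0)
    simp at h1
    linarith
  have hcomp : IsCompact (closedBall (0 : ℂ) (2 * ‖z‖ + 1) ∩ {z : ℂ | 0 ≤ z.im}) :=
    (isCompact_closedBall _ _).inter_right (isClosed_le continuous_const Complex.continuous_im)
  obtain ⟨M, hM⟩ := hcomp.exists_bound_of_continuousOn (hFc.mono inter_subset_right)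
  refine ⟨|M| * (1 + (2 * ‖z‖ + 1) ^ 2) + (2 * C + 8 * ‖a‖), ?_⟩
  intro ζ hζ
  have hpos : 0 < 1 + ‖ζ‖ ^ 2 := by positivity
  have hz0 := norm_nonneg z
  have ha0 := norm_nonneg a
  have hζ0 := norm_nonneg ζ
  rw [le_div_iff₀ hpos]
  by_cases hle : ‖ζ‖ ≤ 2 * ‖z‖ + 1
  · have h1 := hM ζ ⟨by simpa using hle, hζ⟩
    have h2 : ‖F ζ‖ ≤ |M| := h1.trans (le_abs_self M)
    have h3 : 1 + ‖ζ‖ ^ 2 ≤ 1 + (2 * ‖z‖ + 1) ^ 2 := by
      have := pow_le_pow_left₀ hζ0 hle 2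
      linarith
    have h4 : ‖F ζ‖ * (1 + ‖ζ‖ ^ 2) ≤ |M| * (1 + (2 * ‖z‖ + 1) ^ 2) :=
      mul_le_mul h2 h3 hpos.le (abs_nonneg M)
    linarith
  · push Not at hle
    have hne : ζ ≠ z := by
      rintro rfl
      linarith
    have h1 : ‖ζ‖ / 2 ≤ ‖ζ - z‖ := by
      have := norm_sub_norm_le ζ z
      linarith
    have h2 : ‖ζ‖ / 2 ≤ ‖ζ - zb‖ := by
      have := norm_sub_norm_le ζ zb
      rw [hzb] at this
      linarith
    have h3 : 0 < ‖ζ‖ / 2 := by linarith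
    have hζpos : 0 < ‖ζ‖ := by linarith
    have h4 : ‖F ζ‖ ≤ (C / (1 + ‖ζ‖ ^ 2) + ‖a‖ / (‖ζ‖ / 2)) / (‖ζ‖ / 2) := by
      rw [hF ζ hne, norm_div]
      refine div_le_div₀ (by positivity) ?_ h3 h1
      refine (norm_sub_le _ _).trans (add_le_add (hb ζ hζ) ?_)
      rw [norm_div]
      exact div_le_div_of_nonneg_left ha0 h3 h2
    have h5 : (C / (1 + ‖ζ‖ ^ 2) + ‖a‖ / (‖ζ‖ / 2)) / (‖ζ‖ / 2) * (1 + ‖ζ‖ ^ 2) =
        2 * C / ‖ζ‖ + 4 * ‖a‖ * (1 + ‖ζ‖ ^ 2) / ‖ζ‖ ^ 2 := by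
      field_simp
      ring
    have h6 : 2 * C / ‖ζ‖ ≤ 2 * C := by
      rw [div_le_iff₀ (by linarith)]
      nlinarith
    have h7 : 4 * ‖a‖ * (1 + ‖ζ‖ ^ 2) / ‖ζ‖ ^ 2 ≤ 8 * ‖a‖ := by
      rw [div_le_iff₀ (by positivity)]
      have : 1 ≤ ‖ζ‖ ^ 2 := by nlinarith
      nlinarith
    have h8 : ‖F ζ‖ * (1 + ‖ζ‖ ^ 2) ≤ _ := mul_le_mul_of_nonneg_right h4 hpos.le
    rw [h5] at h8
    have h9 : 0 ≤ |M| * (1 + (2 * ‖z‖ + 1) ^ 2) := by positivity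
    linarith

theorem cauchy_rep (g : ℂ → ℂ) (C : ℝ) (hd : DifferentiableOn ℂ g {z : ℂ | 0 < z.im})
    (hc : ContinuousOn g {z : ℂ | 0 ≤ z.im})
    (hb : ∀ z : ℂ, 0 ≤ z.im → ‖g z‖ ≤ C / (1 + ‖z‖ ^ 2)) (z : ℂ) (hz : 0 < z.im) :
    cau (fun t : ℝ => (g t).re) z = g z := by
  have hC : 0 ≤ C := by
    have h1 := hb 0 (by simp)
    have h2 := norm_nonneg (g 0)
    simp at h1
    linarith
  obtain ⟨zb, hzb⟩ : ∃ zb : ℂ, zb = (starRingEnd ℂ) z := ⟨_, rfl⟩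
  have hzbim : zb.im = -z.im := by rw [hzb]; simp
  have hzbn : ‖zb‖ = ‖z‖ := by rw [hzb]; exact RCLike.norm_conj z
  have hne : ∀ ζ : ℂ, 0 ≤ ζ.im → ζ - zb ≠ 0 := by
    intro ζ hζ h
    have := congrArg Complex.im h
    simp [hzbim] at this
    linarith
  have hO : IsOpen {z : ℂ | 0 < z.im} := isOpen_lt continuous_const Complex.continuous_im
  have hsub : {z : ℂ | 0 < z.im} ⊆ {z : ℂ | 0 ≤ z.im} := fun ζ (h : 0 < ζ.im) => h.le
  -- (1)
  have hI1 : ∫ t : ℝ, g t / ((t : ℂ) - zb) = 0 := by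
    refine holo_int (fun ζ => g ζ / (ζ - zb)) (C / z.im) ?_ ?_ ?_
    · exact hd.div ((differentiableOn_id).sub_const zb) (fun ζ hζ => hne ζ (hsub hζ))
    · exact hc.div (continuousOn_id.sub continuousOn_const) (fun ζ hζ => hne ζ hζ)
    · intro ζ hζ
      have h1 : z.im ≤ ‖ζ - zb‖ := by
        have h2 := Complex.abs_im_le_norm (ζ - zb)
        have h3 : (ζ - zb).im = ζ.im + z.im := by simp [hzbim]
        rw [h3] at h2
        exact (le_trans (by linarith) (le_abs_self _)).trans h2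
      show ‖g ζ / (ζ - zb)‖ ≤ _
      rw [norm_div]
      calc ‖g ζ‖ / ‖ζ - zb‖ ≤ (C / (1 + ‖ζ‖ ^ 2)) / z.im :=
            div_le_div₀ ((norm_nonneg _).trans (hb ζ hζ)) (hb ζ hζ) hz h1
        _ = C / z.im / (1 + ‖ζ‖ ^ 2) := by
            rw [div_right_comm]
  have hI1' : ∫ t : ℝ, (starRingEnd ℂ) (g t) / ((t : ℂ) - z) = 0 := by
    have h1 := congrArg (starRingEnd ℂ) hI1
    rw [map_zero, ← integral_conj] at h1
    rw [← h1]
    refine integral_congr_ae (Filter.Eventually.of_forall fun t => ?_)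
    show (starRingEnd ℂ) (g t) / ((t : ℂ) - z) = (starRingEnd ℂ) (g t / ((t : ℂ) - zb))
    rw [map_div₀, map_sub, Complex.conj_ofReal, hzb, Complex.conj_conj]
  -- (2)
  obtain ⟨a, ha⟩ : ∃ a : ℂ, a = g z * (z - zb) := ⟨_, rfl⟩
  obtain ⟨h, hh⟩ : ∃ h : ℂ → ℂ, h = fun ζ => g ζ - a / (ζ - zb) := ⟨_, rfl⟩
  have hhz : h z = 0 := by
    rw [hh]
    show g z - a / (z - zb) = 0
    rw [ha, mul_div_cancel_right₀ _ (hne z hz.le), sub_self]
  have hhd : DifferentiableOn ℂ h {z : ℂ | 0 < z.im} := by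
    rw [hh]
    exact hd.sub ((differentiableOn_const a).div ((differentiableOn_id).sub_const zb)
      (fun ζ hζ => hne ζ (hsub hζ)))
  have hhc : ContinuousOn h {z : ℂ | 0 ≤ z.im} := by
    rw [hh]
    exact hc.sub (continuousOn_const.div (continuousOn_id.sub continuousOn_const)
      (fun ζ hζ => hne ζ hζ))
  have hnz : {z : ℂ | 0 < z.im} ∈ 𝓝 z := hO.mem_nhds hz
  have hnz' : {z : ℂ | 0 ≤ z.im} ∈ 𝓝 z := Filter.mem_of_superset hnz hsub
  have hFd : DifferentiableOn ℂ (dslope h z) {z : ℂ | 0 < z.im} :=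
    (Complex.differentiableOn_dslope hnz).2 hhd
  have hFc : ContinuousOn (dslope h z) {z : ℂ | 0 ≤ z.im} :=
    (continuousOn_dslope hnz').2 ⟨hhc, (hhd z hz).differentiableAt hnz⟩
  have hF : ∀ ζ, ζ ≠ z → dslope h z ζ = (g ζ - a / (ζ - zb)) / (ζ - z) := by
    intro ζ hζ
    rw [dslope_of_ne _ hζ, slope_def_field, hhz, sub_zero, hh]
  obtain ⟨C', hC'⟩ := cr_bound g C hb z zb a hzbn (dslope h z) hF hFc
  have hI2 := holo_int (dslope h z) C' hFd hFc hC'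
  have hneR : ∀ t : ℝ, (t : ℂ) ≠ z := by
    intro t ht
    have := congrArg Complex.im ht
    simp at this
    linarith
  have hgR : Continuous (fun t : ℝ => g t) := by
    refine hc.comp_continuous Complex.continuous_ofReal ?_
    intro t
    simp
  have hgb : ∀ t : ℝ, ‖g t‖ ≤ C / (1 + t ^ 2) := by
    intro t
    have h1 := hb t (by simp)
    rwa [Complex.norm_real, Real.norm_eq_abs, sq_abs] at h1
  have hint1 : Integrable (fun t : ℝ => g t / ((t : ℂ) - z)) :=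
    cr_intG (fun t : ℝ => g t) hgR C hgb z hz.ne'
  have hint1' : Integrable (fun t : ℝ => (starRingEnd ℂ) (g t) / ((t : ℂ) - z)) :=
    cr_intG (fun t : ℝ => (starRingEnd ℂ) (g t)) (Complex.continuous_conj.comp hgR) C
      (fun t => by rw [RCLike.norm_conj]; exact hgb t) z hz.ne'
  obtain ⟨hK1, hK2⟩ := cr_K z.re z.im hz
  have hprod : ∀ t : ℝ, ((t : ℂ) - zb) * ((t : ℂ) - z) =
      (((t - z.re) ^ 2 + z.im ^ 2 : ℝ) : ℂ) := by
    intro t
    rw [hzb]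
    apply Complex.ext
    · simp only [Complex.mul_re, Complex.sub_re, Complex.sub_im, Complex.ofReal_re,
        Complex.ofReal_im, Complex.conj_re, Complex.conj_im]
      ring
    · simp only [Complex.mul_im, Complex.sub_re, Complex.sub_im, Complex.ofReal_re,
        Complex.ofReal_im, Complex.conj_re, Complex.conj_im]
      ring
  have hint2 : Integrable (fun t : ℝ => a * ((((t - z.re) ^ 2 + z.im ^ 2)⁻¹ : ℝ) : ℂ)) :=
    (hK1.ofReal).const_mul a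
  have hFt : ∀ t : ℝ, dslope h z t = g t / ((t : ℂ) - z) -
      a * ((((t - z.re) ^ 2 + z.im ^ 2)⁻¹ : ℝ) : ℂ) := by
    intro t
    rw [hF _ (hneR t), sub_div, div_div, hprod]
    push_cast
    rfl
  have hI3 : ∫ t : ℝ, g t / ((t : ℂ) - z) = 2 * π * Complex.I * g z := by
    have h1 : ∫ t : ℝ, dslope h z t = (∫ t : ℝ, g t / ((t : ℂ) - z)) -
        ∫ t : ℝ, a * ((((t - z.re) ^ 2 + z.im ^ 2)⁻¹ : ℝ) : ℂ) := by
      rw [← integral_sub hint1 hint2]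
      exact integral_congr_ae (Filter.Eventually.of_forall hFt)
    have hK2' : ∫ t : ℝ, ((((t - z.re) ^ 2 + z.im ^ 2)⁻¹ : ℝ) : ℂ) = ((π / z.im : ℝ) : ℂ) := by
      rw [← hK2]
      exact integral_ofReal (𝕜 := ℂ)
    rw [hI2, integral_const_mul, hK2'] at h1
    have h2 : z - zb = 2 * z.im * Complex.I := by
      rw [hzb]
      apply Complex.ext
      · simp
      · simp
        ring
    have h3 := (sub_eq_zero.1 h1.symm)
    rw [h3, ha, h2]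
    have h4 : (z.im : ℂ) ≠ 0 := by exact_mod_cast hz.ne'
    push_cast
    field_simp
  -- sum
  have hsum : ∫ t : ℝ, (((g t).re : ℝ) : ℂ) / (z - t) =
      (-(1 / 2) : ℂ) * ((∫ t : ℝ, g t / ((t : ℂ) - z)) +
        ∫ t : ℝ, (starRingEnd ℂ) (g t) / ((t : ℂ) - z)) := by
    rw [← integral_add hint1 hint1', ← integral_const_mul]
    refine integral_congr_ae (Filter.Eventually.of_forall fun t => ?_)
    show (((g t).re : ℝ) : ℂ) / (z - t) = (-(1 / 2) : ℂ) * (g t / ((t : ℂ) - z) +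
      (starRingEnd ℂ) (g t) / ((t : ℂ) - z))
    have h1 : (((g t).re : ℝ) : ℂ) = (g t + (starRingEnd ℂ) (g t)) / 2 := by
      rw [Complex.add_conj]
      push_cast
      ring
    have h2 : (z - t : ℂ) = -((t : ℂ) - z) := by ring
    rw [h1, h2, div_neg, ← add_div]
    ring
  unfold cau
  rw [hsum, hI3, hI1', add_zero]
  have hpi : (π : ℂ) ≠ 0 := by exact_mod_cast Real.pi_ne_zero
  field_simp
  ring_nf
  rw [Complex.I_sq]
  ring

end Pool.Dav
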