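import Pool.Agent.Helper458.Dav.Defs

set_option autoImplicit false

open MeasureTheory Filter Topology Set Metric
open scoped Real ENNReal

namespace Pool.Dav

theorem odd_zeta : ∑' k : ℕ, (1 : ℝ) / (2 * k + 1) ^ 2 = π ^ 2 / 8 := by
  have h := hasSum_zeta_two
  have hs := h.summable
  have he : Summable (fun k : ℕ => (1 : ℝ) / ((2 * k : ℕ) : ℝ) ^ 2) :=
    hs.comp_injective (fun a b hab => by simpa using hab)
  have ho : Summable (fun k : ℕ => (1 : ℝ) / ((2 * k + 1 : ℕ) : ℝ) ^ 2) :=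
    hs.comp_injective (fun a b hab => by simpa using hab)
  have h1 := tsum_even_add_odd (f := fun n : ℕ => (1 : ℝ) / (n : ℝ) ^ 2) he ho
  rw [h.tsum_eq] at h1
  have h2 : ∑' k : ℕ, (1 : ℝ) / ((2 * k : ℕ) : ℝ) ^ 2 = 1 / 4 * (π ^ 2 / 6) := by
    rw [← h.tsum_eq, ← tsum_mul_left]
    congr 1
    funext k
    push_cast
    by_cases hk : (k : ℝ) = 0
    · simp [hk]
    · field_simp
      norm_num
  have h3 : ∑' k : ℕ, (1 : ℝ) / (2 * k + 1) ^ 2 = ∑' k : ℕ, (1 : ℝ) / ((2 * k + 1 : ℕ) : ℝ) ^ 2 := by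
    congr 1
    funext k
    push_cast
    rfl
  rw [h3]
  rw [h2] at h1
  linarith

end Pool.Dav
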