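import Pool.Agent.Helper458.Dav.Defs
import Pool.Agent.Helper458.Dav.P_U0_series
import Pool.Agent.Helper458.Dav.P_odd_zeta

set_option autoImplicit false

open MeasureTheory Filter Topology Set Metric
open scoped Real ENNReal

namespace Pool.Dav



theorem const_eq_pos : 8 / 9 ≤ ∑' k : ℕ, (-1 : ℝ) ^ k / (2 * k + 1) ^ 2 := by
  have hs1 : Summable fun k : ℕ => (1 : ℝ) / (2 * k + 1) ^ 2 := by
    by_contra h
    have h1 := tsum_eq_zero_of_not_summable h
    rw [odd_zeta] at h1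
    have : (0 : ℝ) < π ^ 2 / 8 := by positivity
    linarith
  have hs : Summable fun k : ℕ => (-1 : ℝ) ^ k / (2 * k + 1) ^ 2 := by
    refine Summable.of_norm_bounded hs1 fun k => ?_
    rw [norm_div, norm_pow, norm_neg, norm_one, one_pow, Real.norm_of_nonneg (by positivity)]
  have h1 := hs.hasSum.tendsto_sum_nat
  have h2 : Tendsto (fun n : ℕ => ∑ i ∈ Finset.range n, (-1 : ℝ) ^ i * (1 / (2 * (i : ℝ) + 1) ^ 2))
      atTop (𝓝 (∑' k : ℕ, (-1 : ℝ) ^ k / (2 * k + 1) ^ 2)) := by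
    refine h1.congr fun n => Finset.sum_congr rfl fun i _ => ?_
    rw [mul_one_div]
  have h3 : Antitone fun i : ℕ => 1 / (2 * (i : ℝ) + 1) ^ 2 := by
    intro i j hij
    have : (i : ℝ) ≤ j := by exact_mod_cast hij
    simp only
    gcongr
  have h4 := h3.alternating_series_le_tendsto h2 1
  norm_num [Finset.sum_range_succ] at h4
  linarith

theorem const_eq : 0 < U0 ∧ 1 / U0 = (∑' k : ℕ, (1 : ℝ) / (2 * k + 1) ^ 2)
    / ∑' k : ℕ, (-1 : ℝ) ^ k / (2 * k + 1) ^ 2 := by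
  have h := const_eq_pos
  have hS : 0 < ∑' k : ℕ, (-1 : ℝ) ^ k / (2 * k + 1) ^ 2 := by linarith
  rw [U0_series, odd_zeta]
  refine ⟨by positivity, ?_⟩
  have hpi : (π : ℝ) ≠ 0 := Real.pi_ne_zero
  field_simp

end Pool.Dav
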