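import Pool.Agent.Helper458.Dav.Defs

set_option autoImplicit false

open MeasureTheory Filter Topology Set Metric
open scoped Real ENNReal

namespace Pool.Dav



lemma td_K_int (δ : ℝ) (hδ : 0 < δ) : Integrable (fun u : ℝ => δ / (u ^ 2 + δ ^ 2)) := by
  have h := (integrable_inv_one_add_sq.comp_div hδ.ne').const_mul δ⁻¹
  refine h.congr (Filter.Eventually.of_forall fun u => ?_)
  simp only
  have h1 : u ^ 2 + δ ^ 2 ≠ 0 := by positivity
  have h2 : 1 + (u / δ) ^ 2 ≠ 0 := by positivity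
  field_simp
  ring

/-- the kernel difference -/
noncomputable def tdq (δ u : ℝ) : ℝ := u / (u ^ 2 + δ ^ 2) - if δ < |u| then u⁻¹ else 0

lemma td_q_meas (δ : ℝ) : Measurable (tdq δ) := by
  unfold tdq
  refine Measurable.sub (by fun_prop) ?_
  refine Measurable.ite (measurableSet_lt measurable_const (by fun_prop)) (by fun_prop)
    measurable_const

lemma td_q_bound (δ : ℝ) (hδ : 0 < δ) (u : ℝ) : |tdq δ u| ≤ δ / (u ^ 2 + δ ^ 2) := by
  have h1 : 0 < u ^ 2 + δ ^ 2 := by positivity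
  unfold tdq
  split_ifs with h
  · have hu : u ≠ 0 := by
      rintro rfl
      rw [abs_zero] at h
      linarith
    have e : u / (u ^ 2 + δ ^ 2) - u⁻¹ = -(δ ^ 2) / (u * (u ^ 2 + δ ^ 2)) := by
      field_simp
      ring
    rw [e, abs_div, abs_neg, abs_of_nonneg (by positivity : (0 : ℝ) ≤ δ ^ 2), abs_mul,
      abs_of_pos h1, div_le_div_iff₀ (by positivity) h1]
    have : δ ^ 2 ≤ δ * |u| := by nlinarith
    calc δ ^ 2 * (u ^ 2 + δ ^ 2) ≤ (δ * |u|) * (u ^ 2 + δ ^ 2) :=
          mul_le_mul_of_nonneg_right this h1.le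
      _ = δ * (|u| * (u ^ 2 + δ ^ 2)) := by ring
  · push Not at h
    rw [sub_zero, abs_div, abs_of_pos h1]
    exact div_le_div_of_nonneg_right h h1.le

lemma td_q_int (δ : ℝ) (hδ : 0 < δ) : Integrable (tdq δ) :=
  (td_K_int δ hδ).mono' (td_q_meas δ).aestronglyMeasurable
    (Filter.Eventually.of_forall fun u => by
      rw [Real.norm_eq_abs]
      exact td_q_bound δ hδ u)

lemma td_q_odd (δ u : ℝ) : tdq δ (-u) = -tdq δ u := by
  unfold tdq
  rw [abs_neg]
  split_ifs
  · rw [neg_sq, inv_neg]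
    ring
  · rw [neg_sq]
    ring

lemma td_q_zero (δ x : ℝ) : ∫ t, tdq δ (x - t) = 0 := by
  rw [integral_sub_left_eq_self (tdq δ) volume x]
  have h1 : ∫ u, tdq δ (-u) = ∫ u, tdq δ u := integral_neg_eq_self _ _
  simp only [td_q_odd] at h1
  rw [integral_neg] at h1
  linarith

theorem trunc_diff (f : ℝ → ℂ) (hf : Integrable f) (x δ : ℝ) (hδ : 0 < δ) :
    ‖QQ f δ x - truncH f δ x‖ ≤ π⁻¹ * ∫ t : ℝ, (δ / ((x - t) ^ 2 + δ ^ 2)) * ‖f t - f x‖ := by
  have hpi : (0 : ℝ) < π⁻¹ := by positivity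
  -- integrability of the pieces
  have hb1 : ∀ t : ℝ, |(x - t) / ((x - t) ^ 2 + δ ^ 2)| ≤ δ⁻¹ := by
    intro t
    have h1 : 0 < (x - t) ^ 2 + δ ^ 2 := by positivity
    rw [abs_div, abs_of_pos h1, inv_eq_one_div, div_le_div_iff₀ h1 hδ]
    rw [← sq_abs (x - t)]
    nlinarith [sq_nonneg (|x - t| - δ), abs_nonneg (x - t)]
  have hI1 : Integrable fun t : ℝ =>
      (((x - t) / ((x - t) ^ 2 + δ ^ 2) : ℝ) : ℂ) * f t := by
    refine hf.bdd_mul (c := δ⁻¹) ?_ ?_
    · exact (Complex.measurable_ofReal.comp (by fun_prop)).aestronglyMeasurable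
    · refine Filter.Eventually.of_forall fun t => ?_
      rw [Complex.norm_real, Real.norm_eq_abs]
      exact hb1 t
  have hI2 : Integrable fun t : ℝ =>
      ((if δ < |x - t| then (x - t)⁻¹ else 0 : ℝ) : ℂ) * f t := by
    refine hf.bdd_mul (c := δ⁻¹) ?_ ?_
    · refine (Complex.measurable_ofReal.comp ?_).aestronglyMeasurable
      exact Measurable.ite (measurableSet_lt measurable_const (by fun_prop)) (by fun_prop)
        measurable_const
    · refine Filter.Eventually.of_forall fun t => ?_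
      rw [Complex.norm_real, Real.norm_eq_abs]
      split_ifs with h
      · rw [abs_inv]
        exact inv_anti₀ hδ h.le
      · rw [abs_zero]
        positivity
  have hQ : QQ f δ x = (π⁻¹ : ℝ) * ∫ t : ℝ, (((x - t) / ((x - t) ^ 2 + δ ^ 2) : ℝ) : ℂ) * f t := by
    unfold QQ
    rw [← integral_const_mul]
    congr 1
    ext t
    push_cast
    ring
  have hT : truncH f δ x = (π⁻¹ : ℝ) *
      ∫ t : ℝ, ((if δ < |x - t| then (x - t)⁻¹ else 0 : ℝ) : ℂ) * f t := by
    unfold truncH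
    have hset : MeasurableSet {y : ℝ | δ < |x - y|} :=
      measurableSet_lt measurable_const (by fun_prop)
    rw [← integral_indicator hset]
    congr 1
    · push_cast
      rw [one_div]
    · congr 1
      ext t
      by_cases h : δ < |x - t|
      · rw [Set.indicator_of_mem (show t ∈ {y : ℝ | δ < |x - y|} from h), if_pos h]
        push_cast
        rw [div_eq_mul_inv, mul_comm]
      · rw [Set.indicator_of_notMem (show t ∉ {y : ℝ | δ < |x - y|} from h), if_neg h]
        simp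
  have hqi : Integrable fun t : ℝ => tdq δ (x - t) := (td_q_int δ hδ).comp_sub_left x
  have hI3 : Integrable fun t : ℝ => ((tdq δ (x - t) : ℝ) : ℂ) * f x :=
    (hqi.ofReal).mul_const _
  have hz : ∫ t : ℝ, ((tdq δ (x - t) : ℝ) : ℂ) * f x = 0 := by
    rw [integral_mul_const, integral_complex_ofReal, td_q_zero]
    simp
  have hdiff : QQ f δ x - truncH f δ x =
      (π⁻¹ : ℝ) * ∫ t : ℝ, ((tdq δ (x - t) : ℝ) : ℂ) * (f t - f x) := by
    have h1 : ∫ t : ℝ, ((tdq δ (x - t) : ℝ) : ℂ) * (f t - f x) =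
        (∫ t : ℝ, (((x - t) / ((x - t) ^ 2 + δ ^ 2) : ℝ) : ℂ) * f t) -
        ∫ t : ℝ, ((if δ < |x - t| then (x - t)⁻¹ else 0 : ℝ) : ℂ) * f t := by
      have h2 : ∀ t : ℝ, ((tdq δ (x - t) : ℝ) : ℂ) * (f t - f x) =
          ((((x - t) / ((x - t) ^ 2 + δ ^ 2) : ℝ) : ℂ) * f t -
          ((if δ < |x - t| then (x - t)⁻¹ else 0 : ℝ) : ℂ) * f t) -
          ((tdq δ (x - t) : ℝ) : ℂ) * f x := by
        intro t
        unfold tdq
        push_cast
        ring
      simp_rw [h2]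
      have hI12 : Integrable fun t : ℝ => (((x - t) / ((x - t) ^ 2 + δ ^ 2) : ℝ) : ℂ) * f t -
          ((if δ < |x - t| then (x - t)⁻¹ else 0 : ℝ) : ℂ) * f t := hI1.sub hI2
      rw [integral_sub hI12 hI3, integral_sub hI1 hI2, hz, sub_zero]
    rw [hQ, hT, h1]
    ring
  rw [hdiff, norm_mul, Complex.norm_real, Real.norm_eq_abs, abs_of_pos hpi]
  apply mul_le_mul_of_nonneg_left _ hpi.le
  refine (norm_integral_le_integral_norm _).trans ?_
  have hKi : Integrable fun t : ℝ => δ / ((x - t) ^ 2 + δ ^ 2) := (td_K_int δ hδ).comp_sub_left x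
  have hKb : ∀ t : ℝ, ‖δ / ((x - t) ^ 2 + δ ^ 2)‖ ≤ δ⁻¹ := by
    intro t
    have h1 : 0 < (x - t) ^ 2 + δ ^ 2 := by positivity
    rw [Real.norm_eq_abs, abs_of_nonneg (by positivity), inv_eq_one_div,
      div_le_div_iff₀ h1 hδ]
    nlinarith [sq_nonneg (x - t)]
  have hJ : Integrable fun t : ℝ => (δ / ((x - t) ^ 2 + δ ^ 2)) * ‖f t - f x‖ := by
    have h1 : Integrable fun t : ℝ => (δ / ((x - t) ^ 2 + δ ^ 2)) * ‖f t‖ +
        (δ / ((x - t) ^ 2 + δ ^ 2)) * ‖f x‖ := by
      refine Integrable.add ?_ (hKi.mul_const _)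
      exact hf.norm.bdd_mul (c := δ⁻¹) hKi.aestronglyMeasurable
        (Filter.Eventually.of_forall hKb)
    refine h1.mono' ?_ ?_
    · refine hKi.aestronglyMeasurable.mul ?_
      exact (hf.aestronglyMeasurable.sub aestronglyMeasurable_const).norm
    · refine Filter.Eventually.of_forall fun t => ?_
      have h3 : 0 ≤ δ / ((x - t) ^ 2 + δ ^ 2) := by positivity
      rw [norm_mul, norm_norm, Real.norm_eq_abs, abs_of_nonneg h3, ← mul_add]
      exact mul_le_mul_of_nonneg_left (norm_sub_le _ _) h3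
  refine integral_mono_of_nonneg (Filter.Eventually.of_forall fun t => norm_nonneg _) hJ ?_
  refine Filter.Eventually.of_forall fun t => ?_
  simp only
  rw [norm_mul, Complex.norm_real, Real.norm_eq_abs]
  exact mul_le_mul_of_nonneg_right (td_q_bound δ hδ (x - t)) (norm_nonneg _)

end Pool.Dav
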