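import Pool.Agent.Helper458.Dav.Defs
import Pool.Agent.Helper458.Dav.P_approx_id
import Pool.Agent.Helper458.Dav.P_trunc_diff

set_option autoImplicit false

open MeasureTheory Filter Topology Set Metric
open scoped Real ENNReal

namespace Pool.Dav



theorem trunc_ae (f : ℝ → ℂ) (hf : Integrable f) :
    ∀ᵐ x : ℝ, Tendsto (fun δ : ℝ => QQ f δ x - truncH f δ x) (𝓝[>] (0 : ℝ)) (𝓝 0) := by
  filter_upwards [approx_id f hf] with x hx
  have h1 : Tendsto (fun δ : ℝ => π⁻¹ * ∫ t : ℝ, (δ / ((x - t) ^ 2 + δ ^ 2)) * ‖f t - f x‖)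
      (𝓝[>] (0 : ℝ)) (𝓝 0) := by
    have := hx.const_mul (π⁻¹)
    rwa [mul_zero] at this
  refine squeeze_zero_norm' ?_ h1
  filter_upwards [self_mem_nhdsWithin] with δ hδ
  exact trunc_diff f hf x δ hδ

end Pool.Dav
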