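import Pool.Agent.Helper458.Dav.Defs
import Pool.Agent.Helper458.Dav.P_cauchy_rep
import Pool.Agent.Helper458.Dav.P_cau_eq
import Pool.Agent.Helper458.Dav.P_trunc_ae

set_option autoImplicit false

open MeasureTheory Filter Topology Set Metric
open scoped Real ENNReal

namespace Pool.Dav



theorem hilbert_rep_integrable (g : ℂ → ℂ) (C : ℝ)
    (hc : ContinuousOn g {z : ℂ | 0 ≤ z.im})
    (hb : ∀ z : ℂ, 0 ≤ z.im → ‖g z‖ ≤ C / (1 + ‖z‖ ^ 2)) :
    Integrable (fun t : ℝ => (g t).re) := by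
  have hcont : Continuous (fun t : ℝ => g t) :=
    hc.comp_continuous Complex.continuous_ofReal (fun t => by simp)
  have hcont2 : Continuous (fun t : ℝ => (g t).re) := Complex.continuous_re.comp hcont
  refine (integrable_inv_one_add_sq.const_mul C).mono' hcont2.aestronglyMeasurable
    (Eventually.of_forall fun t => ?_)
  have h1 := hb t (by simp)
  rw [Complex.norm_real, Real.norm_eq_abs, sq_abs] at h1
  rw [Real.norm_eq_abs, ← div_eq_mul_inv]
  exact (Complex.abs_re_le_norm _).trans h1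

theorem hilbert_rep (g : ℂ → ℂ) (C : ℝ) (hd : DifferentiableOn ℂ g {z : ℂ | 0 < z.im})
    (hc : ContinuousOn g {z : ℂ | 0 ≤ z.im})
    (hb : ∀ z : ℂ, 0 ≤ z.im → ‖g z‖ ≤ C / (1 + ‖z‖ ^ 2)) :
    ∀ᵐ x : ℝ, HasHilbert (fun t : ℝ => (((g t).re : ℝ) : ℂ)) x (((g x).im : ℝ) : ℂ) := by
  have hf := hilbert_rep_integrable g C hc hb
  have hf2 : Integrable (fun t : ℝ => (((g t).re : ℝ) : ℂ)) := hf.ofReal
  filter_upwards [trunc_ae _ hf2] with x hx
  have hQ : ∀ δ : ℝ, 0 < δ → QQ (fun t : ℝ => (((g t).re : ℝ) : ℂ)) δ x =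
      (((g (x + δ * Complex.I)).im : ℝ) : ℂ) := by
    intro δ hδ
    have h1 := (cau_eq (fun t : ℝ => (g t).re) hf δ x hδ).2
    have h2 : 0 < ((x : ℂ) + δ * Complex.I).im := by simpa using hδ
    rw [cauchy_rep g C hd hc hb _ h2] at h1
    exact h1
  have hg : Tendsto (fun δ : ℝ => g (x + δ * Complex.I)) (𝓝[>] (0 : ℝ)) (𝓝 (g x)) := by
    have h1 : ContinuousWithinAt g {z : ℂ | 0 ≤ z.im} (x : ℂ) := hc _ (by simp)
    have h2 : Tendsto (fun δ : ℝ => (x : ℂ) + δ * Complex.I) (𝓝[>] (0 : ℝ))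
        (𝓝[{z : ℂ | 0 ≤ z.im}] (x : ℂ)) := by
      refine tendsto_nhdsWithin_iff.2 ⟨?_, ?_⟩
      · have h3 : Continuous (fun δ : ℝ => (x : ℂ) + δ * Complex.I) := by fun_prop
        have h4 := h3.tendsto 0
        simp only [Complex.ofReal_zero, zero_mul, add_zero] at h4
        exact h4.mono_left nhdsWithin_le_nhds
      · filter_upwards [self_mem_nhdsWithin] with δ hδ
        have : (0 : ℝ) < δ := hδ
        show 0 ≤ ((x : ℂ) + δ * Complex.I).im
        simpa using this.le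
    exact h1.tendsto.comp h2
  have hQt : Tendsto (fun δ : ℝ => QQ (fun t : ℝ => (((g t).re : ℝ) : ℂ)) δ x) (𝓝[>] (0 : ℝ))
      (𝓝 (((g x).im : ℝ) : ℂ)) := by
    have h1 : Tendsto (fun δ : ℝ => (((g (x + δ * Complex.I)).im : ℝ) : ℂ)) (𝓝[>] (0 : ℝ))
        (𝓝 (((g x).im : ℝ) : ℂ)) :=
      ((Complex.continuous_ofReal.comp Complex.continuous_im).tendsto _).comp hg
    refine h1.congr' ?_
    filter_upwards [self_mem_nhdsWithin] with δ hδ
    exact (hQ δ hδ).symm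
  have h := hQt.sub hx
  simp only [sub_sub_cancel, sub_zero] at h
  exact h

end Pool.Dav
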