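import Pool.Agent.Helper458.Dav.Defs
import Pool.Agent.Helper458.Dav.P_hilbert_rep
import Pool.Agent.Helper458.Dav.P_Gm_props
import Pool.Agent.Helper458.Dav.P_rr_int
import Pool.Agent.Helper458.Dav.P_Gm_L1
import Pool.Agent.Helper458.Dav.P_Gm_level

set_option autoImplicit false

open MeasureTheory Filter Topology Set Metric
open scoped Real ENNReal

namespace Pool.Dav



theorem lower_hilbert_eq {f : ℝ → ℂ} {x : ℝ} {v : ℂ} (h : HasHilbert f x v) : hilbert f x = v := by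
  have h1 : ∃ v, HasHilbert f x v := ⟨v, h⟩
  unfold hilbert
  rw [dif_pos h1]
  exact tendsto_nhds_unique h1.choose_spec h

theorem lower_hilbert_zero {f : ℝ → ℂ} (hf : f =ᵐ[volume] 0) (x : ℝ) : hilbert f x = 0 := by
  apply lower_hilbert_eq
  unfold HasHilbert
  have h1 : ∀ ε : ℝ, truncH f ε x = 0 := by
    intro ε
    unfold truncH
    have h2 : ∫ y in {y : ℝ | ε < |x - y|}, f y / ((x : ℂ) - (y : ℂ)) = 0 := by
      apply integral_eq_zero_of_ae
      have h3 := ae_restrict_of_ae (s := {y : ℝ | ε < |x - y|}) hf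
      filter_upwards [h3] with y hy
      rw [hy]
      simp
    rw [h2, mul_zero]
  simp only [h1]
  exact tendsto_const_nhds

theorem lower_main (m : ℕ) (hm : 2 ≤ m) (η : ℝ) (hη : 0 < η) (hη1 : η ≤ 1 / 2) :
    ∃ f : ℝ → ℝ, Integrable f ∧ ¬ f =ᵐ[volume] 0 ∧
      (∫ x, |f x| ≤ 2 * U0 + (U0 + 1) * ((4 / π) * ∫ x in {x : ℝ | 1 < |x|}, rr x ^ m / (1 - rr x))) ∧
      ENNReal.ofReal (2 - η) ≤ volume {x : ℝ | 1 - η < ‖hilbert (fun y => (f y : ℂ)) x‖} := by
  obtain ⟨δ, hδ, hlev⟩ := Gm_level m hm η hη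
  obtain ⟨hd, hi, C, hC⟩ := Gm_props m hm δ hδ
  obtain ⟨hint, hL1⟩ := Gm_L1 m hm δ hδ
  have hrep := hilbert_rep (Gm m δ) C (hd.mono (fun z hz => by
      have : 0 < z.im := hz
      show -δ < z.im
      linarith)) (hd.continuousOn.mono (fun z hz => by
      have : 0 ≤ z.im := hz
      show -δ < z.im
      linarith)) hC
  have hvol : ENNReal.ofReal (2 - η) ≤
      volume {x : ℝ | 1 - η < ‖hilbert (fun y => (((Gm m δ y).re : ℝ) : ℂ)) x‖} := by
    refine hlev.trans (le_of_eq ?_)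
    apply measure_congr
    filter_upwards [hrep] with x hx
    have h1 := lower_hilbert_eq hx
    apply propext
    show 1 - η < |(Gm m δ x).im| ↔ 1 - η < ‖hilbert (fun y => (((Gm m δ y).re : ℝ) : ℂ)) x‖
    rw [h1, Complex.norm_real, Real.norm_eq_abs]
  refine ⟨fun x => (Gm m δ x).re, hint, ?_, hL1, hvol⟩
  intro h0
  have h1 : (fun y : ℝ => (((Gm m δ y).re : ℝ) : ℂ)) =ᵐ[volume] 0 := by
    filter_upwards [h0] with y hy
    have : (Gm m δ y).re = 0 := hy
    rw [this]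
    rfl
  have h2 : {x : ℝ | 1 - η < ‖hilbert (fun y => (((Gm m δ y).re : ℝ) : ℂ)) x‖} = ∅ := by
    ext x
    simp only [Set.mem_setOf_eq, Set.mem_empty_iff_false, iff_false, not_lt]
    rw [lower_hilbert_zero h1, norm_zero]
    linarith
  rw [h2, measure_empty] at hvol
  have h3 : 0 < ENNReal.ofReal (2 - η) := ENNReal.ofReal_pos.2 (by linarith)
  exact absurd hvol (not_le.2 h3)

theorem lower (ε : ℝ) (hε : 0 < ε) : ∃ f : ℝ → ℝ, Integrable f ∧ ¬ f =ᵐ[volume] 0 ∧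
    ∃ lam : ℝ, 0 < lam ∧ ENNReal.ofReal ((1 / U0 - ε) * ∫ x, |f x|)
      ≤ ENNReal.ofReal lam * volume {x : ℝ | lam < ‖hilbert (fun y => (f y : ℂ)) x‖} := by
  rcases le_or_gt U0 0 with hU | hU
  · obtain ⟨f, h1, h2, h3, h4⟩ := lower_main 2 le_rfl (1 / 2) (by norm_num) le_rfl
    refine ⟨f, h1, h2, 1 - 1 / 2, by norm_num, ?_⟩
    have h5 : (1 / U0 - ε) * ∫ x, |f x| ≤ 0 := by
      apply mul_nonpos_of_nonpos_of_nonneg
      · have : 1 / U0 ≤ 0 := div_nonpos_of_nonneg_of_nonpos zero_le_one hU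
        linarith
      · exact integral_nonneg fun _ => abs_nonneg _
    rw [ENNReal.ofReal_of_nonpos h5]
    exact zero_le
  · have htend : Tendsto (fun m : ℕ => (U0 + 1) * ((4 / π) *
        ∫ x in {x : ℝ | 1 < |x|}, rr x ^ m / (1 - rr x))) atTop (𝓝 0) := by
      have := (rr_int.2.const_mul (4 / π)).const_mul (U0 + 1)
      rwa [mul_zero, mul_zero] at this
    have hK : 0 < ε * U0 ^ 2 := by positivity
    obtain ⟨m, hm1, hm2⟩ := ((htend.eventually (gt_mem_nhds hK)).and (eventually_ge_atTop 2)).exists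
    set K : ℝ := (U0 + 1) * ((4 / π) * ∫ x in {x : ℝ | 1 < |x|}, rr x ^ m / (1 - rr x)) with hKdef
    set η : ℝ := min (ε * U0 / 3) (1 / 2) with hη
    have hη0 : 0 < η := lt_min (by positivity) (by norm_num)
    have hη1 : η ≤ 1 / 2 := min_le_right _ _
    have hη2 : η ≤ ε * U0 / 3 := min_le_left _ _
    obtain ⟨f, h1, h2, h3, h4⟩ := lower_main m hm2 η hη0 hη1
    refine ⟨f, h1, h2, 1 - η, by linarith, ?_⟩
    have hfn : 0 ≤ ∫ x, |f x| := integral_nonneg fun _ => abs_nonneg _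
    have h5 : (1 / U0 - ε) * ∫ x, |f x| ≤ (1 - η) * (2 - η) := by
      rcases le_or_gt (1 / U0 - ε) 0 with h6 | h6
      · have : (1 / U0 - ε) * ∫ x, |f x| ≤ 0 := mul_nonpos_of_nonpos_of_nonneg h6 hfn
        nlinarith
      · have h7 : (1 / U0 - ε) * ∫ x, |f x| ≤ (1 / U0 - ε) * (2 * U0 + ε * U0 ^ 2) := by
          apply mul_le_mul_of_nonneg_left _ h6.le
          linarith
        have h8 : (1 / U0 - ε) * (2 * U0 + ε * U0 ^ 2) = 2 - ε * U0 - ε ^ 2 * U0 ^ 2 := by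
          field_simp
          ring
        rw [h8] at h7
        nlinarith [sq_nonneg (ε * U0), sq_nonneg η]
    calc ENNReal.ofReal ((1 / U0 - ε) * ∫ x, |f x|) ≤ ENNReal.ofReal ((1 - η) * (2 - η)) :=
          ENNReal.ofReal_le_ofReal h5
      _ = ENNReal.ofReal (1 - η) * ENNReal.ofReal (2 - η) := ENNReal.ofReal_mul (by linarith)
      _ ≤ _ := by gcongr

end Pool.Dav
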