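import Pool.Agent.Helper458.Dav.Defs
import Pool.Agent.Helper458.Dav.P_QQ_level
import Pool.Agent.Helper458.Dav.P_trunc_ae

set_option autoImplicit false

open MeasureTheory Filter Topology Set Metric
open scoped Real ENNReal

namespace Pool.Dav



theorem upper (f : ℝ → ℂ) (hf : Integrable f) (lam : ℝ) (hlam : 0 < lam) :
    ENNReal.ofReal U0 * (ENNReal.ofReal lam * volume {x : ℝ | lam < ‖hilbert f x‖})
      ≤ ENNReal.ofReal (∫ x, ‖f x‖) := by
  have hlamC : (lam : ℂ) ≠ 0 := by exact_mod_cast hlam.ne'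
  set g : ℝ → ℂ := fun y => f y * (lam : ℂ)⁻¹ with hg
  have hgi : Integrable g := hf.mul_const _
  have hQg : ∀ δ x, QQ g δ x = QQ f δ x * (lam : ℂ)⁻¹ := by
    intro δ x
    unfold QQ
    rw [← integral_mul_const]
    congr 1
    ext t
    simp only [hg]
    ring
  have hnormQ : ∀ δ x, ‖QQ g δ x‖ = ‖QQ f δ x‖ / lam := by
    intro δ x
    rw [hQg, norm_mul, norm_inv, Complex.norm_real, Real.norm_eq_abs, abs_of_pos hlam,
      div_eq_mul_inv]
  have hnormg : ∫ x, ‖g x‖ = (∫ x, ‖f x‖) / lam := by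
    rw [div_eq_mul_inv, ← integral_mul_const]
    congr 1
    ext x
    simp only [hg]
    rw [norm_mul, norm_inv, Complex.norm_real, Real.norm_eq_abs, abs_of_pos hlam]
  have hd : Tendsto (fun n : ℕ => (1 : ℝ) / ((n : ℝ) + 1)) atTop (𝓝[>] (0 : ℝ)) := by
    refine tendsto_nhdsWithin_iff.2 ⟨tendsto_one_div_add_atTop_nhds_zero_nat, ?_⟩
    exact Eventually.of_forall (fun n => by
      show (0 : ℝ) < 1 / ((n : ℝ) + 1)
      positivity)
  set E : ℕ → Set ℝ := fun n => {x : ℝ | 1 < ‖QQ g (1 / ((n : ℝ) + 1)) x‖} with hE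
  have hEn : ∀ n, ENNReal.ofReal U0 * volume (E n) ≤ ENNReal.ofReal ((∫ x, ‖f x‖) / lam) := by
    intro n
    have h := QQ_level g hgi (1 / ((n : ℝ) + 1)) (by positivity)
    rw [hnormg] at h
    exact h
  have hsub : volume {x : ℝ | lam < ‖hilbert f x‖} ≤ volume (⋃ n : ℕ, ⋂ m : ℕ, E (n + m)) := by
    apply measure_mono_ae
    filter_upwards [trunc_ae f hf] with x hx hxS
    have hxS' : lam < ‖hilbert f x‖ := hxS
    have hex : ∃ v, HasHilbert f x v := by
      by_contra hne
      have h0 : hilbert f x = 0 := by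
        unfold hilbert
        rw [dif_neg hne]
      rw [h0, norm_zero] at hxS'
      linarith
    have hval : HasHilbert f x (hilbert f x) := by
      have h1 : hilbert f x = hex.choose := by
        unfold hilbert
        rw [dif_pos hex]
      rw [h1]
      exact hex.choose_spec
    have hlimQ : Tendsto (fun δ : ℝ => QQ f δ x) (𝓝[>] (0 : ℝ)) (𝓝 (hilbert f x)) := by
      have h1 := hx.add hval
      simp only [sub_add_cancel, zero_add] at h1
      exact h1
    have hlimn := (hlimQ.comp hd).norm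
    have hev := hlimn.eventually (lt_mem_nhds hxS')
    obtain ⟨N, hN⟩ := eventually_atTop.1 hev
    show x ∈ ⋃ n : ℕ, ⋂ m : ℕ, E (n + m)
    refine mem_iUnion.2 ⟨N, mem_iInter.2 fun m => ?_⟩
    have h2 := hN (N + m) (Nat.le_add_right N m)
    simp only [Function.comp_apply] at h2
    show 1 < ‖QQ g (1 / (((N + m : ℕ) : ℝ) + 1)) x‖
    rw [hnormQ, lt_div_iff₀ hlam, one_mul]
    exact h2
  have hdir : Directed (· ⊆ ·) (fun n : ℕ => ⋂ m : ℕ, E (n + m)) := by
    apply Monotone.directed_le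
    intro a b hab x hxa
    obtain ⟨c, rfl⟩ := Nat.exists_eq_add_of_le hab
    have hxa' := mem_iInter.1 hxa
    refine mem_iInter.2 fun m => ?_
    have := hxa' (c + m)
    rwa [← Nat.add_assoc] at this
  have hU : ENNReal.ofReal U0 * volume (⋃ n : ℕ, ⋂ m : ℕ, E (n + m))
      ≤ ENNReal.ofReal ((∫ x, ‖f x‖) / lam) := by
    rw [hdir.measure_iUnion, ENNReal.mul_iSup]
    refine iSup_le fun n => ?_
    refine le_trans ?_ (hEn n)
    gcongr
    refine (iInter_subset _ 0).trans ?_
    simp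
  calc ENNReal.ofReal U0 * (ENNReal.ofReal lam * volume {x : ℝ | lam < ‖hilbert f x‖})
      = ENNReal.ofReal lam * (ENNReal.ofReal U0 * volume {x : ℝ | lam < ‖hilbert f x‖}) := by
        ring
    _ ≤ ENNReal.ofReal lam * (ENNReal.ofReal U0 * volume (⋃ n : ℕ, ⋂ m : ℕ, E (n + m))) := by
        gcongr
    _ ≤ ENNReal.ofReal lam * ENNReal.ofReal ((∫ x, ‖f x‖) / lam) := by
        gcongr
    _ = ENNReal.ofReal (∫ x, ‖f x‖) := by
        rw [← ENNReal.ofReal_mul hlam.le]
        congr 1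
        field_simp

end Pool.Dav
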