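import Pool.Agent.Helper458.Dav.Defs
import Pool.Agent.Helper458.Dav.P_upper
import Pool.Agent.Helper458.Dav.P_lower
import Pool.Agent.Helper458.Dav.P_const_eq

set_option autoImplicit false

open MeasureTheory Filter Topology Set Metric
open scoped Real ENNReal

namespace Pool.Dav



theorem final_aux_pos {f : ℝ → ℝ} (hf : Integrable f) (hne : ¬ f =ᵐ[volume] 0) :
    0 < ∫ x, |f x| := by
  have h0 : 0 ≤ ∫ x, |f x| := integral_nonneg fun x => abs_nonneg _
  rcases h0.eq_or_lt with h | h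
  · exfalso
    apply hne
    have h1 := (integral_eq_zero_iff_of_nonneg (fun x => abs_nonneg (f x)) hf.abs).1 h.symm
    filter_upwards [h1] with x hx
    exact abs_eq_zero.1 hx
  · exact h

theorem final_aux_C : weakConstC ≤ ENNReal.ofReal (1 / U0) := by
  have hU := const_eq.1
  refine iSup_le fun f => iSup_le fun hf => iSup_le fun _ => iSup_le fun lam => iSup_le fun hlam => ?_
  apply ENNReal.div_le_of_le_mul
  have h1 := mul_le_mul_right (upper f hf lam hlam) (ENNReal.ofReal (1 / U0))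
  rw [← mul_assoc, ← ENNReal.ofReal_mul (by positivity), one_div_mul_cancel hU.ne',
    ENNReal.ofReal_one, one_mul] at h1
  exact h1

theorem final_aux_RC : weakConstR ≤ weakConstC := by
  refine iSup_le fun f => iSup_le fun hf => iSup_le fun hne => iSup_le fun lam =>
    iSup_le fun hlam => ?_
  refine le_iSup_of_le (fun y => (f y : ℂ)) (le_iSup_of_le hf.ofReal (le_iSup_of_le ?_
    (le_iSup_of_le lam (le_iSup_of_le hlam ?_))))
  · intro h
    apply hne
    filter_upwards [h] with x hx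
    have hx' : ((f x : ℝ) : ℂ) = 0 := hx
    exact_mod_cast hx'
  · have : (∫ x, ‖((f x : ℝ) : ℂ)‖) = ∫ x, |f x| := by
      congr 1
      funext x
      rw [Complex.norm_real, Real.norm_eq_abs]
    rw [this]

theorem final_aux_R : ENNReal.ofReal (1 / U0) ≤ weakConstR := by
  have key : ∀ ε : ℝ, 0 < ε → ENNReal.ofReal (1 / U0 - ε) ≤ weakConstR := by
    intro ε hε
    obtain ⟨f, hf, hne, lam, hlam, h⟩ := lower ε hε
    have hI := final_aux_pos hf hne
    refine le_iSup_of_le f (le_iSup_of_le hf (le_iSup_of_le hne (le_iSup_of_le lam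
      (le_iSup_of_le hlam ?_))))
    rw [ENNReal.le_div_iff_mul_le (Or.inl (ENNReal.ofReal_pos.2 hI).ne')
      (Or.inl ENNReal.ofReal_ne_top), ← ENNReal.ofReal_mul' hI.le]
    exact h
  have hlim : Tendsto (fun ε : ℝ => ENNReal.ofReal (1 / U0 - ε)) (𝓝[>] 0)
      (𝓝 (ENNReal.ofReal (1 / U0))) := by
    have h1 : Tendsto (fun ε : ℝ => 1 / U0 - ε) (𝓝[>] 0) (𝓝 (1 / U0)) := by
      have h2 : Tendsto (fun ε : ℝ => 1 / U0 - ε) (𝓝 0) (𝓝 (1 / U0 - 0)) :=
        tendsto_const_nhds.sub tendsto_id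
      rw [sub_zero] at h2
      exact h2.mono_left nhdsWithin_le_nhds
    exact ENNReal.tendsto_ofReal h1
  refine le_of_tendsto hlim ?_
  filter_upwards [self_mem_nhdsWithin] with ε hε
  exact key ε hε

theorem final :
    weakConstC = ENNReal.ofReal ((∑' k : ℕ, (1 : ℝ) / (2 * k + 1) ^ 2)
      / ∑' k : ℕ, (-1 : ℝ) ^ k / (2 * k + 1) ^ 2) ∧
    weakConstR = ENNReal.ofReal ((∑' k : ℕ, (1 : ℝ) / (2 * k + 1) ^ 2)
      / ∑' k : ℕ, (-1 : ℝ) ^ k / (2 * k + 1) ^ 2) := by
  rw [← const_eq.2]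
  have h1 := final_aux_C
  have h2 := final_aux_RC
  have h3 := final_aux_R
  exact ⟨le_antisymm h1 (h3.trans h2), le_antisymm (h2.trans h1) h3⟩

end Pool.Dav
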